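import Mathlib

set_option autoImplicit false

namespace Esc405
open Complex Polynomial

/-- The contraction `R(v) = (v + (i/100) sin v)/100`. -/
noncomputable def R (v : ℂ) : ℂ := (v + I / 100 * sin v) / 100
/-- Its derivative. -/
noncomputable def R' (v : ℂ) : ℂ := (1 + I / 100 * cos v) / 100
/-- Derivative of the `K`-th iterate. -/
noncomputable def D (K : ℕ) (v : ℂ) : ℂ := ∏ k ∈ Finset.range K, R' (R^[k] v)
/-- The strip. -/
def U : Set ℂ := {v | |v.im| ≤ 1}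
/-- scaled iterate -/
noncomputable def phi (K : ℕ) (v : ℂ) : ℂ := R^[K] v / 16
/-- the long thin rectangle in level `J` coordinates -/
def Sig (J : ℕ) : Set ℂ := {v | -1 ≤ v.re ∧ v.re ≤ 2 * Real.pi * 100 ^ J ∧ |v.im| ≤ 1 / 10}
/-- the tube -/
def T (J : ℕ) : Set ℂ := phi J '' Sig J
/-- Quantitative separation data at the point `w`. -/
def Good (K : Set ℂ) (w : ℂ) (d : ℕ) (B : ℝ) : Prop :=
  ∃ P : ℂ[X], P.natDegree ≤ d ∧ P.eval w = 1 ∧ (∀ z ∈ K, ‖P.eval z‖ ≤ 1 / 4) ∧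
    ∀ z : ℂ, ‖z‖ ≤ 3 → ‖P.eval z‖ ≤ B
/-- `m`-th quality of a peak point -/
def G (K : Set ℂ) (m : ℕ) (w : ℂ) : Prop := Good K w (8 ^ m) (2 ^ (11 ^ m))

end Esc405
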