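import Mathlib
import Pool.Agent.Esc405.Defs

set_option autoImplicit false

/-! Copied from the files of helper121 (polynomials with all zeros on the unit circle, chain step). -/

namespace Esc405
open Complex Polynomial MeasureTheory ENNReal Filter Set

/-- The reciprocal conjugate polynomial. -/
noncomputable def star' (g : ℂ[X]) : ℂ[X] := (g.map (starRingEnd ℂ)).reverse

lemma natDegree_mapconj (g : ℂ[X]) : (g.map (starRingEnd ℂ)).natDegree = g.natDegree :=
  natDegree_map_eq_of_injective (starRingEnd ℂ).injective g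

lemma eval_star' (g : ℂ[X]) (z : ℂ) (hz : z ≠ 0) :
    (star' g).eval z = z ^ g.natDegree * starRingEnd ℂ (g.eval (starRingEnd ℂ z⁻¹)) := by
  let _ : Invertible (z⁻¹) := invertibleOfNonzero (inv_ne_zero hz)
  have h := eval₂_reverse_mul_pow (RingHom.id ℂ) z⁻¹ (g.map (starRingEnd ℂ))
  rw [invOf_eq_inv, inv_inv, natDegree_mapconj] at h
  have h2 : eval₂ (RingHom.id ℂ) z⁻¹ (g.map (starRingEnd ℂ)) =
      starRingEnd ℂ (g.eval (starRingEnd ℂ z⁻¹)) := by
    change (g.map (starRingEnd ℂ)).eval z⁻¹ = _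
    rw [eval_map]
    have : z⁻¹ = starRingEnd ℂ (starRingEnd ℂ z⁻¹) := (Complex.conj_conj _).symm
    conv_lhs => rw [this]
    rw [eval₂_at_apply]
  rw [h2] at h
  have h3 : (star' g).eval z = eval₂ (RingHom.id ℂ) z (g.map (starRingEnd ℂ)).reverse := rfl
  rw [h3, ← h]
  have h4 : z ^ g.natDegree * z⁻¹ ^ g.natDegree = 1 := by
    rw [← mul_pow, mul_inv_cancel₀ hz, one_pow]
  calc _ = (z ^ g.natDegree * z⁻¹ ^ g.natDegree) *
        eval₂ (RingHom.id ℂ) z (g.map (starRingEnd ℂ)).reverse := by rw [h4, one_mul]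
    _ = _ := by ring

lemma star'_natDegree (g : ℂ[X]) (hg0 : g.coeff 0 = 1) : (star' g).natDegree = g.natDegree := by
  unfold star'
  rw [reverse_natDegree, natDegree_mapconj]
  have : (g.map (starRingEnd ℂ)).natTrailingDegree = 0 := by
    rw [natTrailingDegree_eq_zero]
    right
    rw [coeff_map, hg0]; simp
  rw [this, Nat.sub_zero]

lemma star'_monic (g : ℂ[X]) (hg0 : g.coeff 0 = 1) : (star' g).Monic := by
  unfold star' Monic
  rw [reverse_leadingCoeff, trailingCoeff]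
  have : (g.map (starRingEnd ℂ)).natTrailingDegree = 0 := by
    rw [natTrailingDegree_eq_zero]
    right
    rw [coeff_map, hg0]; simp
  rw [this, coeff_map, hg0]; simp

lemma norm_star'_le (g : ℂ[X]) (hg : ∀ z : ℂ, ‖z‖ ≤ 1 → g.eval z ≠ 0) (w : ℂ) (hw : ‖w‖ ≤ 1) :
    ‖(star' g).eval w‖ ≤ ‖g.eval w‖ := by
  have hd : DiffContOnCl ℂ (fun z => (star' g).eval z / g.eval z) (Metric.ball (0 : ℂ) 1) := by
    constructor
    · apply DifferentiableOn.div
      · exact (star' g).differentiable.differentiableOn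
      · exact g.differentiable.differentiableOn
      · intro z hz
        rw [mem_ball_zero_iff] at hz
        exact hg z hz.le
    · rw [closure_ball _ one_ne_zero]
      apply ContinuousOn.div
      · exact (star' g).continuous.continuousOn
      · exact g.continuous.continuousOn
      · intro z hz
        rw [mem_closedBall_zero_iff] at hz
        exact hg z hz
  have hfr : ∀ z ∈ frontier (Metric.ball (0 : ℂ) 1), ‖(star' g).eval z / g.eval z‖ ≤ 1 := by
    intro z hz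
    rw [frontier_ball _ one_ne_zero, mem_sphere_zero_iff_norm] at hz
    have hz0 : z ≠ 0 := by
      intro h0; rw [h0, norm_zero] at hz; norm_num at hz
    have hinv : starRingEnd ℂ z⁻¹ = z := by
      rw [map_inv₀, inv_eq_iff_eq_inv]
      rw [Complex.inv_def, Complex.normSq_eq_norm_sq, hz]
      simp
    rw [eval_star' g z hz0, hinv, norm_div, norm_mul, norm_pow, hz, one_pow, one_mul,
      RCLike.norm_conj]
    rw [div_self (norm_ne_zero_iff.mpr (hg z hz.le))]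
  have h1 := Complex.norm_le_of_forall_mem_frontier_norm_le Metric.isBounded_ball hd hfr
    (z := w) (by rw [closure_ball _ one_ne_zero, mem_closedBall_zero_iff]; exact hw)
  rw [norm_div, div_le_one (norm_pos_iff.mpr (hg w hw))] at h1
  exact h1

lemma norm_le_star' (g : ℂ[X]) (hg : ∀ z : ℂ, ‖z‖ ≤ 1 → g.eval z ≠ 0) (z : ℂ) (hz : 1 ≤ ‖z‖) :
    ‖g.eval z‖ ≤ ‖(star' g).eval z‖ := by
  have hz0 : z ≠ 0 := by
    intro h0; rw [h0, norm_zero] at hz; norm_num at hz
  obtain ⟨w, hw⟩ : ∃ w, w = starRingEnd ℂ z⁻¹ := ⟨_, rfl⟩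
  have hw0 : w ≠ 0 := by
    rw [hw]; simpa using hz0
  have hwn : ‖w‖ ≤ 1 := by
    rw [hw, RCLike.norm_conj, norm_inv]
    exact inv_le_one_of_one_le₀ hz
  have h1 := norm_star'_le g hg w hwn
  have h2 : starRingEnd ℂ w⁻¹ = z := by
    rw [hw, ← map_inv₀, inv_inv, Complex.conj_conj]
  rw [eval_star' g w hw0, h2, norm_mul, norm_pow, RCLike.norm_conj] at h1
  rw [eval_star' g z hz0, norm_mul, norm_pow, RCLike.norm_conj, ← hw]
  have h3 : ‖z‖ * ‖w‖ = 1 := by
    rw [hw, RCLike.norm_conj, norm_inv, mul_inv_cancel₀ (norm_ne_zero_iff.mpr hz0)]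
  calc ‖g.eval z‖ = (‖z‖ * ‖w‖) ^ g.natDegree * ‖g.eval z‖ := by rw [h3, one_pow, one_mul]
    _ = ‖z‖ ^ g.natDegree * (‖w‖ ^ g.natDegree * ‖g.eval z‖) := by rw [mul_pow]; ring
    _ ≤ ‖z‖ ^ g.natDegree * ‖g.eval w‖ := mul_le_mul_of_nonneg_left h1 (by positivity)

/-- The family `z^m g^*(z) + g(z)`. -/
noncomputable def fam (g : ℂ[X]) (m : ℕ) : ℂ[X] := X ^ m * star' g + g

lemma fam_natDegree_aux (g : ℂ[X]) (hg0 : g.coeff 0 = 1) (m : ℕ) (hm : 1 ≤ m) :
    (X ^ m * star' g).Monic ∧ (X ^ m * star' g).natDegree = m + g.natDegree ∧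
      g.degree < (X ^ m * star' g).degree := by
  have h1 : (X ^ m * star' g).Monic := (monic_X_pow m).mul (star'_monic g hg0)
  have h2 : (X ^ m * star' g).natDegree = m + g.natDegree := by
    rw [(monic_X_pow m).natDegree_mul (star'_monic g hg0), natDegree_X_pow,
      star'_natDegree g hg0]
  refine ⟨h1, h2, ?_⟩
  apply degree_lt_degree
  rw [h2]; omega

lemma fam_monic (g : ℂ[X]) (hg0 : g.coeff 0 = 1) (m : ℕ) (hm : 1 ≤ m) : (fam g m).Monic := by
  obtain ⟨h1, h2, h3⟩ := fam_natDegree_aux g hg0 m hm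
  exact h1.add_of_left h3

lemma fam_natDegree (g : ℂ[X]) (hg0 : g.coeff 0 = 1) (m : ℕ) (hm : 1 ≤ m) :
    (fam g m).natDegree = m + g.natDegree := by
  obtain ⟨h1, h2, h3⟩ := fam_natDegree_aux g hg0 m hm
  unfold fam
  rw [natDegree_add_eq_left_of_degree_lt h3, h2]

lemma fam_roots (g : ℂ[X]) (hg : ∀ z : ℂ, ‖z‖ ≤ 1 → g.eval z ≠ 0)
    (m : ℕ) (hm : 1 ≤ m) : (fam g m).rootSet ℂ ⊆ Metric.closedBall 0 1 := by
  intro z hz
  rw [mem_closedBall_zero_iff]
  by_contra hcon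
  push Not at hcon
  have hz' : (fam g m).eval z = 0 := by
    have := (mem_rootSet.mp hz).2
    simpa using this
  simp only [fam, eval_add, eval_mul, eval_pow, eval_X] at hz'
  have h1 : z ^ m * (star' g).eval z = -g.eval z := by linear_combination hz'
  have h2 : ‖z‖ ^ m * ‖(star' g).eval z‖ = ‖g.eval z‖ := by
    rw [← norm_pow, ← norm_mul, h1, norm_neg]
  have h3 := norm_le_star' g hg z hcon.le
  have hz0 : z ≠ 0 := by
    intro h0; rw [h0, norm_zero] at hcon; norm_num at hcon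
  have h4 : 0 < ‖(star' g).eval z‖ := by
    rw [norm_pos_iff, eval_star' g z hz0]
    apply mul_ne_zero (pow_ne_zero _ hz0)
    rw [Ne, map_eq_zero]
    apply hg
    rw [RCLike.norm_conj, norm_inv]
    exact inv_le_one_of_one_le₀ hcon.le
  have h5 : 1 < ‖z‖ ^ m := one_lt_pow₀ hcon (by omega)
  nlinarith

lemma fam_large (g : ℂ[X]) (hg : ∀ z : ℂ, ‖z‖ ≤ 1 → g.eval z ≠ 0) (m : ℕ) (z : ℂ)
    (hz : ‖z‖ ≤ 3 / 4) : ‖g.eval z‖ * (1 - (3 / 4) ^ m) ≤ ‖(fam g m).eval z‖ := by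
  simp only [fam, eval_add, eval_mul, eval_pow, eval_X]
  have h1 := norm_star'_le g hg z (by linarith)
  have h2 : ‖z‖ ^ m ≤ (3 / 4) ^ m := pow_le_pow_left₀ (norm_nonneg _) hz m
  have h3 : ‖z ^ m * (star' g).eval z‖ ≤ (3 / 4) ^ m * ‖g.eval z‖ := by
    rw [norm_mul, norm_pow]
    exact mul_le_mul h2 h1 (norm_nonneg _) (by positivity)
  have h4 : ‖g.eval z‖ ≤ ‖z ^ m * (star' g).eval z + g.eval z‖ + ‖z ^ m * (star' g).eval z‖ := by
    have : g.eval z = (z ^ m * (star' g).eval z + g.eval z) - z ^ m * (star' g).eval z := by ring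
    conv_lhs => rw [this]
    exact norm_sub_le _ _
  linarith

/-- One step of the chain. -/
lemma good_step {K : Set ℂ} {w₀ w : ℂ} {d : ℕ} {B D : ℝ} (hw₀ : ‖w₀‖ ≤ 2) (hD0 : 0 < D)
    (hD1 : D ≤ 1) (hD : ∀ z ∈ K, D ≤ ‖z - w₀‖) (hww : ‖w - w₀‖ ≤ D / 2) (hB : 2 ≤ B)
    (hd : 1 ≤ d) (h : Good K w₀ d B) : Good K w (8 * d) (B ^ 11) := by
  obtain ⟨P₀, hdeg, hP1, hPK, hPB⟩ := h
  have hroot : (1 - P₀ ^ 2).IsRoot w₀ := by
    rw [IsRoot.def, eval_sub, eval_one, eval_pow, hP1]; norm_num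
  obtain ⟨q, hq⟩ := dvd_iff_isRoot.mpr hroot
  have hqe : ∀ z : ℂ, 1 - (P₀.eval z) ^ 2 = (z - w₀) * q.eval z := by
    intro z
    have := congrArg (fun p => p.eval z) hq
    simpa using this
  have hqdeg : q.natDegree ≤ 2 * d - 1 := by
    by_cases hq0 : q = 0
    · rw [hq0]; simp
    have h1 : (1 - P₀ ^ 2).natDegree = 1 + q.natDegree := by
      rw [hq, natDegree_mul (X_sub_C_ne_zero w₀) hq0, natDegree_X_sub_C]
    have h2 : (1 - P₀ ^ 2).natDegree ≤ 2 * d := by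
      refine le_trans (natDegree_sub_le _ _) (max_le (by simp) ?_)
      refine le_trans (natDegree_pow_le) ?_
      omega
    omega
  -- bound of `q` on the disc of radius three
  have hqB : ∀ z : ℂ, ‖z‖ ≤ 3 → ‖q.eval z‖ ≤ 2 * B ^ 2 := by
    intro z hz
    have hB2 : 1 ≤ B ^ 2 := by nlinarith
    have hfr : ∀ y ∈ frontier (Metric.ball (0 : ℂ) 3), ‖q.eval y‖ ≤ 2 * B ^ 2 := by
      intro y hy
      rw [frontier_ball _ (by norm_num), mem_sphere_zero_iff_norm] at hy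
      have h1 : 1 ≤ ‖y - w₀‖ := by
        have := norm_sub_norm_le y w₀
        linarith
      have h2 : ‖y - w₀‖ * ‖q.eval y‖ ≤ 1 + B ^ 2 := by
        rw [← norm_mul, ← hqe y]
        refine le_trans (norm_sub_le _ _) ?_
        rw [norm_one, norm_pow]
        have h3 := pow_le_pow_left₀ (norm_nonneg _) (hPB y (by linarith)) 2
        linarith
      have h4 : ‖q.eval y‖ ≤ ‖y - w₀‖ * ‖q.eval y‖ :=
        le_mul_of_one_le_left (norm_nonneg _) h1
      linarith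
    have := Complex.norm_le_of_forall_mem_frontier_norm_le (f := fun y => q.eval y)
      Metric.isBounded_ball (q.differentiable.diffContOnCl) hfr
      (z := z) (by rw [closure_ball _ (by norm_num : (3 : ℝ) ≠ 0), mem_closedBall_zero_iff]; exact hz)
    exact this
  let ρ : ℂ[X] := C (w - w₀) * q
  have hρe : ∀ z : ℂ, ρ.eval z = (w - w₀) * q.eval z := by
    intro z; simp [ρ]
  have hρdeg : ρ.natDegree ≤ 2 * d - 1 := le_trans (natDegree_C_mul_le _ _) hqdeg
  have hρK : ∀ z ∈ K, ‖ρ.eval z‖ ≤ 17 / 32 := by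
    intro z hz
    have h1 := hD z hz
    have h0 : 0 < ‖z - w₀‖ := lt_of_lt_of_le hD0 h1
    have h2 : ‖z - w₀‖ * ‖q.eval z‖ ≤ 17 / 16 := by
      rw [← norm_mul, ← hqe z]
      refine le_trans (norm_sub_le _ _) ?_
      rw [norm_one, norm_pow]
      have h3 := pow_le_pow_left₀ (norm_nonneg _) (hPK z hz) 2
      norm_num at h3 ⊢
      linarith
    rw [hρe, norm_mul]
    have h5 : ‖w - w₀‖ ≤ ‖z - w₀‖ / 2 := by linarith
    have h6 : ‖w - w₀‖ * ‖q.eval z‖ ≤ ‖z - w₀‖ / 2 * ‖q.eval z‖ :=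
      mul_le_mul_of_nonneg_right h5 (norm_nonneg _)
    linarith
  have hρB : ∀ z : ℂ, ‖z‖ ≤ 3 → ‖ρ.eval z‖ ≤ B ^ 2 := by
    intro z hz
    rw [hρe, norm_mul]
    have h1 := hqB z hz
    have h2 : ‖w - w₀‖ ≤ 1 / 2 := by linarith
    have h3 : ‖w - w₀‖ * ‖q.eval z‖ ≤ 1 / 2 * (2 * B ^ 2) :=
      mul_le_mul h2 h1 (norm_nonneg _) (by norm_num)
    linarith
  refine ⟨ρ ^ 4 + P₀ ^ 2 * (1 + ρ + ρ ^ 2 + ρ ^ 3), ?_, ?_, ?_, ?_⟩
  · have e1 : (ρ ^ 4).natDegree ≤ 8 * d := le_trans natDegree_pow_le (by omega)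
    have e2 : (P₀ ^ 2).natDegree ≤ 2 * d := le_trans natDegree_pow_le (by omega)
    have e3 : (1 + ρ + ρ ^ 2 + ρ ^ 3).natDegree ≤ 6 * d := by
      refine natDegree_add_le_of_degree_le (natDegree_add_le_of_degree_le
        (natDegree_add_le_of_degree_le (by simp) (by omega))
        (le_trans natDegree_pow_le (by omega))) (le_trans natDegree_pow_le (by omega))
    refine natDegree_add_le_of_degree_le e1 ?_
    exact le_trans natDegree_mul_le (by omega)
  · have h1 := hqe w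
    have h2 : (P₀.eval w) ^ 2 = 1 - ρ.eval w := by
      rw [hρe]; linear_combination -h1
    simp only [eval_add, eval_pow, eval_mul, eval_one]
    rw [h2]; ring
  · intro z hz
    simp only [eval_add, eval_pow, eval_mul, eval_one]
    have h1 := hρK z hz
    have h2 := hPK z hz
    have h0 := norm_nonneg (ρ.eval z)
    have e1 : ‖(ρ.eval z) ^ 4‖ ≤ (17 / 32) ^ 4 := by
      rw [norm_pow]; exact pow_le_pow_left₀ h0 h1 4
    have e2 : ‖(P₀.eval z) ^ 2‖ ≤ (1 / 4) ^ 2 := by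
      rw [norm_pow]; exact pow_le_pow_left₀ (norm_nonneg _) h2 2
    have e3 : ‖1 + ρ.eval z + (ρ.eval z) ^ 2 + (ρ.eval z) ^ 3‖ ≤
        1 + 17 / 32 + (17 / 32) ^ 2 + (17 / 32) ^ 3 := by
      refine le_trans (norm_add_le _ _) (add_le_add (le_trans (norm_add_le _ _)
        (add_le_add (le_trans (norm_add_le _ _) (add_le_add (by rw [norm_one]) h1)) ?_)) ?_)
      · rw [norm_pow]; exact pow_le_pow_left₀ h0 h1 2
      · rw [norm_pow]; exact pow_le_pow_left₀ h0 h1 3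
    have e4 := mul_le_mul e2 e3 (norm_nonneg _) (by norm_num)
    rw [← norm_mul] at e4
    refine le_trans (norm_add_le _ _) (le_trans (add_le_add e1 e4) ?_)
    norm_num
  · intro z hz
    simp only [eval_add, eval_pow, eval_mul, eval_one]
    have h1 := hρB z hz
    have h2 := hPB z hz
    have h0 := norm_nonneg (ρ.eval z)
    have hBpos : 0 < B := by linarith
    have e1 : ‖(ρ.eval z) ^ 4‖ ≤ (B ^ 2) ^ 4 := by
      rw [norm_pow]; exact pow_le_pow_left₀ h0 h1 4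
    have e2 : ‖(P₀.eval z) ^ 2‖ ≤ B ^ 2 := by
      rw [norm_pow]; exact pow_le_pow_left₀ (norm_nonneg _) h2 2
    have e3 : ‖1 + ρ.eval z + (ρ.eval z) ^ 2 + (ρ.eval z) ^ 3‖ ≤
        1 + B ^ 2 + (B ^ 2) ^ 2 + (B ^ 2) ^ 3 := by
      refine le_trans (norm_add_le _ _) (add_le_add (le_trans (norm_add_le _ _)
        (add_le_add (le_trans (norm_add_le _ _) (add_le_add (by rw [norm_one]) h1)) ?_)) ?_)
      · rw [norm_pow]; exact pow_le_pow_left₀ h0 h1 2
      · rw [norm_pow]; exact pow_le_pow_left₀ h0 h1 3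
    have e4 := mul_le_mul e2 e3 (norm_nonneg _) (by positivity)
    rw [← norm_mul] at e4
    refine le_trans (norm_add_le _ _) (le_trans (add_le_add e1 e4) ?_)
    have f1 : 1 ≤ B := by linarith
    have f2 : B ^ 2 ≤ B ^ 8 := pow_le_pow_right₀ f1 (by norm_num)
    have f3 : B ^ 4 ≤ B ^ 8 := pow_le_pow_right₀ f1 (by norm_num)
    have f4 : B ^ 6 ≤ B ^ 8 := pow_le_pow_right₀ f1 (by norm_num)
    have f5 : (8 : ℝ) ≤ B ^ 3 := by
      have := pow_le_pow_left₀ (by norm_num : (0 : ℝ) ≤ 2) hB 3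
      norm_num at this; exact this
    have f6 : B ^ 8 * 8 ≤ B ^ 8 * B ^ 3 := mul_le_mul_of_nonneg_left f5 (by positivity)
    have f7 : B ^ 8 * B ^ 3 = B ^ 11 := by ring
    have f8 : 0 < B ^ 8 := by positivity
    calc (B ^ 2) ^ 4 + B ^ 2 * (1 + B ^ 2 + (B ^ 2) ^ 2 + (B ^ 2) ^ 3)
        = 2 * B ^ 8 + B ^ 2 + B ^ 4 + B ^ 6 := by ring
      _ ≤ B ^ 11 := by linarith


end Esc405
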