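import Mathlib
import Pool.Agent.Esc405.Defs

set_option autoImplicit false

namespace Esc405
open Complex Polynomial

-- TARGET: all of the following lemmas
lemma norm_sin_le_aux (y : ℝ) (hy : |y| ≤ 1) : (Real.exp y + Real.exp (-y)) / 2 ≤ 25 / 16 := by
  rw [← Real.cosh_eq]
  have h1 : Real.cosh y ≤ Real.cosh 1 := by
    rw [Real.cosh_le_cosh, abs_one]
    exact hy
  refine h1.trans ?_
  rw [Real.cosh_eq, Real.exp_neg]
  have h2 := Real.exp_one_lt_d9
  have h3 := Real.exp_one_gt_d9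
  have h4 : (Real.exp 1)⁻¹ ≤ 2 / 5 := by
    rw [inv_le_comm₀ (Real.exp_pos 1) (by norm_num)]
    norm_num
    linarith
  linarith

lemma norm_sin_le {v : ℂ} (hv : v ∈ U) : ‖sin v‖ ≤ 25 / 16 := by
  have h1 : ‖sin v‖ = ‖exp (-v * I) - exp (v * I)‖ / 2 := by
    rw [Complex.sin, norm_div, norm_mul, Complex.norm_I, mul_one, Complex.norm_ofNat]
  have h2 : ‖exp (-v * I)‖ = Real.exp v.im := by
    rw [Complex.norm_exp]
    simp
  have h3 : ‖exp (v * I)‖ = Real.exp (-v.im) := by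
    rw [Complex.norm_exp]
    simp
  have h4 := norm_sub_le (exp (-v * I)) (exp (v * I))
  rw [h2, h3] at h4
  have h5 := norm_sin_le_aux v.im hv
  rw [h1]
  linarith

lemma norm_cos_le {v : ℂ} (hv : v ∈ U) : ‖cos v‖ ≤ 25 / 16 := by
  have h1 : ‖cos v‖ = ‖exp (v * I) + exp (-v * I)‖ / 2 := by
    rw [Complex.cos, norm_div, Complex.norm_ofNat]
  have h2 : ‖exp (-v * I)‖ = Real.exp v.im := by
    rw [Complex.norm_exp]
    simp
  have h3 : ‖exp (v * I)‖ = Real.exp (-v.im) := by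
    rw [Complex.norm_exp]
    simp
  have h4 := norm_add_le (exp (v * I)) (exp (-v * I))
  rw [h2, h3] at h4
  have h5 := norm_sin_le_aux v.im hv
  rw [h1]
  linarith

lemma R_close {v : ℂ} (hv : v ∈ U) : ‖100 * R v - v‖ ≤ 1 / 64 := by
  have h1 : 100 * R v - v = I / 100 * sin v := by
    unfold R
    ring
  rw [h1, norm_mul, norm_div, Complex.norm_I, Complex.norm_ofNat]
  have h2 := norm_sin_le hv
  linarith

lemma R_im {v : ℂ} (hv : v ∈ U) : |100 * (R v).im - v.im| ≤ 1 / 64 := by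
  have h1 : (100 * R v - v).im = 100 * (R v).im - v.im := by
    simp
  rw [← h1]
  exact (Complex.abs_im_le_norm _).trans (R_close hv)

lemma R_mem {v : ℂ} (hv : v ∈ U) : R v ∈ U := by
  have h1 := abs_le.1 (R_im hv)
  have h2 : |v.im| ≤ 1 := hv
  have h3 := abs_le.1 h2
  change |(R v).im| ≤ 1
  rw [abs_le]
  constructor <;> linarith

lemma iter_mem {v : ℂ} (hv : v ∈ U) (k : ℕ) : R^[k] v ∈ U := by
  induction k with
  | zero => exact hv
  | succ k ih =>
    rw [Function.iterate_succ_apply']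
    exact R_mem ih

lemma R'_close {v : ℂ} (hv : v ∈ U) : ‖100 * R' v - 1‖ ≤ 1 / 64 := by
  have h1 : 100 * R' v - 1 = I / 100 * cos v := by
    unfold R'
    ring
  rw [h1, norm_mul, norm_div, Complex.norm_I, Complex.norm_ofNat]
  have h2 := norm_cos_le hv
  linarith

lemma R'_lower {v : ℂ} (hv : v ∈ U) : 63 / 6400 ≤ ‖R' v‖ := by
  have h1 := R'_close hv
  have h2 : ‖(1 : ℂ)‖ ≤ ‖100 * R' v‖ + ‖100 * R' v - 1‖ := by
    have h3 : (1 : ℂ) = 100 * R' v - (100 * R' v - 1) := by ring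
    calc ‖(1 : ℂ)‖ = ‖100 * R' v - (100 * R' v - 1)‖ := by rw [← h3]
      _ ≤ _ := norm_sub_le _ _
  rw [norm_one, norm_mul, Complex.norm_ofNat] at h2
  linarith

lemma R'_upper {v : ℂ} (hv : v ∈ U) : ‖R' v‖ ≤ 65 / 6400 := by
  have h1 := R'_close hv
  have h2 : ‖100 * R' v‖ ≤ ‖(1 : ℂ)‖ + ‖100 * R' v - 1‖ := by
    have h3 : 100 * R' v = 1 + (100 * R' v - 1) := by ring
    calc ‖100 * R' v‖ = ‖1 + (100 * R' v - 1)‖ := by rw [← h3]
      _ ≤ _ := norm_add_le _ _
  rw [norm_one, norm_mul, Complex.norm_ofNat] at h2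
  linarith

lemma iter_close {v : ℂ} (hv : v ∈ U) (K : ℕ) : ‖R^[K] v - v / 100 ^ K‖ ≤ 1 / 6336 := by
  induction K with
  | zero =>
    rw [Function.iterate_zero, id, pow_zero, div_one, sub_self, norm_zero]
    norm_num
  | succ K ih =>
    rw [Function.iterate_succ_apply']
    have h1 := R_close (iter_mem hv K)
    have h2 : R (R^[K] v) - v / 100 ^ (K + 1) =
        (1 / 100) * (100 * R (R^[K] v) - R^[K] v) + (1 / 100) * (R^[K] v - v / 100 ^ K) := by
      rw [pow_succ]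
      field_simp
      ring
    rw [h2]
    have h3 := norm_add_le ((1 / 100) * (100 * R (R^[K] v) - R^[K] v))
      ((1 / 100) * (R^[K] v - v / 100 ^ K))
    have h4 : ‖(1 / 100 : ℂ)‖ = 1 / 100 := by
      rw [norm_div, norm_one, Complex.norm_ofNat]
    rw [norm_mul, norm_mul, h4] at h3
    linarith



end Esc405
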