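import Mathlib
import Pool.Agent.Esc405.Defs

set_option autoImplicit false

namespace Esc405
open MeasureTheory

/-- Key crossing lemma: a connected set running from `g 0` out of the tube `g '' S` (only through the
right end) has points at every distance `s ∈ (0, e)` from the cross-section `re = a` inside the piece
`a < re < b`. -/
lemma tube_cross {g : ℂ → ℂ} (hgc : Continuous g) {X h a b e : ℝ} (hh0 : 0 < h) (hh1 : h ≤ 1)
    (hopen : ∀ O : Set ℂ, IsOpen O → O ⊆ {v | |v.im| ≤ 1} → IsOpen (g '' O))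
    (ha : 0 ≤ a) (hab : a < b) (hbX : b ≤ X)
    (hinj : Set.InjOn g {v | -1 ≤ v.re ∧ v.re ≤ X ∧ |v.im| ≤ h})
    (he : ∀ v v' : ℂ, v.re = a → v'.re = b → |v.im| ≤ h → |v'.im| ≤ h → e ≤ ‖g v' - g v‖)
    {Γ : Set ℂ} (hΓ : IsPreconnected Γ) (h0 : g 0 ∈ Γ)
    (h1 : ∃ z ∈ Γ, z ∉ g '' {v | -1 ≤ v.re ∧ v.re ≤ X ∧ |v.im| ≤ h})
    (hw : ∀ v : ℂ, -1 ≤ v.re → v.re ≤ X → |v.im| ≤ h → (|v.im| = h ∨ v.re = -1) → g v ∉ Γ)
    {s : ℝ} (hs0 : 0 < s) (hse : s < e) :
    ∃ v : ℂ, a < v.re ∧ v.re < b ∧ |v.im| < h ∧ g v ∈ Γ ∧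
      Metric.infDist (g v) (g '' {u | u.re = a ∧ |u.im| ≤ h}) = s := by
  by_contra hno
  push Not at hno
  set C : Set ℂ := g '' {u | u.re = a ∧ |u.im| ≤ h} with hC
  have hCne : C.Nonempty := ⟨g (a : ℂ), (a : ℂ), by simp [hh0.le], rfl⟩
  have hdc : Continuous (fun v => Metric.infDist (g v) C) :=
    (Metric.continuous_infDist_pt C).comp hgc
  have him : Continuous (fun v : ℂ => |v.im|) := Complex.continuous_im.abs
  set V : Set ℂ := {v | (-1 < v.re ∧ v.re < b) ∧ |v.im| < h ∧ (v.re < a ∨ Metric.infDist (g v) C < s)} with hV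
  set T : Set ℂ := {v | (-1 ≤ v.re ∧ v.re ≤ b) ∧ |v.im| ≤ h ∧ (v.re ≤ a ∨ Metric.infDist (g v) C ≤ s)} with hT
  have hVo : IsOpen V := by
    apply IsOpen.and
    · exact (isOpen_lt continuous_const Complex.continuous_re).and
        (isOpen_lt Complex.continuous_re continuous_const)
    apply IsOpen.and
    · exact isOpen_lt him continuous_const
    · exact (isOpen_lt Complex.continuous_re continuous_const).union
        (isOpen_lt hdc continuous_const)
  have hTc : IsClosed T := by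
    apply IsClosed.and
    · exact (isClosed_le continuous_const Complex.continuous_re).and
        (isClosed_le Complex.continuous_re continuous_const)
    apply IsClosed.and
    · exact isClosed_le him continuous_const
    · exact (isClosed_le Complex.continuous_re continuous_const).union
        (isClosed_le hdc continuous_const)
  have hTk : IsCompact T := by
    have hsub : T ⊆ (Set.Icc (-1) b) ×ℂ (Set.Icc (-h) h) := by
      intro v hv
      rw [Complex.mem_reProdIm]
      exact ⟨⟨hv.1.1, hv.1.2⟩, abs_le.mp hv.2.1⟩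
    exact (isCompact_Icc.reProdIm isCompact_Icc).of_isClosed_subset hTc hsub
  have hO : IsOpen (g '' V) := hopen V hVo (fun v hv => le_trans hv.2.1.le hh1)
  have hK : IsClosed (g '' T) := (hTk.image hgc).isClosed
  have hVT : V ⊆ T := by
    intro v hv
    refine ⟨⟨hv.1.1.le, hv.1.2.le⟩, hv.2.1.le, ?_⟩
    rcases hv.2.2 with h | h
    · exact Or.inl h.le
    · exact Or.inr h.le
  have hkey : ∀ z ∈ Γ, z ∈ g '' T → z ∈ g '' V := by
    rintro z hz ⟨v, hv, rfl⟩
    have hreX : v.re ≤ X := hv.1.2.trans hbX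
    have hw' : ¬ (|v.im| = h ∨ v.re = -1) := fun hh => hw v hv.1.1 hreX hv.2.1 hh hz
    push Not at hw'
    have him' : |v.im| < h := lt_of_le_of_ne hv.2.1 hw'.1
    have hre' : -1 < v.re := lt_of_le_of_ne hv.1.1 (Ne.symm hw'.2)
    have hreb : v.re < b := by
      rcases lt_or_eq_of_le hv.1.2 with h | h
      · exact h
      · exfalso
        have hinf : Metric.infDist (g v) C ≤ s := by
          rcases hv.2.2 with h' | h'
          · linarith
          · exact h'
        have hge : e ≤ Metric.infDist (g v) C := by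
          rw [Metric.le_infDist hCne]
          rintro y ⟨u, hu, rfl⟩
          rw [dist_eq_norm]
          exact he u v hu.1 h hu.2 hv.2.1
        linarith
    refine ⟨v, ⟨⟨hre', hreb⟩, him', ?_⟩, rfl⟩
    rcases lt_trichotomy v.re a with h | h | h
    · exact Or.inl h
    · right
      have : g v ∈ C := ⟨v, ⟨h, hv.2.1⟩, rfl⟩
      rw [Metric.infDist_zero_of_mem this]
      exact hs0
    · right
      have hinf : Metric.infDist (g v) C ≤ s := by
        rcases hv.2.2 with h' | h'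
        · linarith
        · exact h'
      exact lt_of_le_of_ne hinf (hno v h hreb him' hz)
  have h0V : g 0 ∈ g '' V := by
    refine ⟨0, ⟨⟨by simp, by simp only [Complex.zero_re]; linarith⟩, by simpa using hh0, ?_⟩, rfl⟩
    rcases lt_or_eq_of_le ha with h | h
    · left; simpa using h
    · right
      have : g 0 ∈ C := ⟨0, ⟨by simpa using h, by simpa using hh0.le⟩, rfl⟩
      rw [Metric.infDist_zero_of_mem this]
      exact hs0
  obtain ⟨z, hz, hzS⟩ := h1
  have hzT : z ∈ (g '' T)ᶜ := by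
    rintro ⟨v, hv, rfl⟩
    exact hzS ⟨v, ⟨hv.1.1, hv.1.2.trans hbX, hv.2.1⟩, rfl⟩
  obtain ⟨y, _, hy1, hy2⟩ := hΓ (g '' V) (g '' T)ᶜ hO hK.isOpen_compl
    (fun y hy => by
      by_cases hyT : y ∈ g '' T
      · exact Or.inl (hkey y hy hyT)
      · exact Or.inr hyT) ⟨g 0, h0, h0V⟩ ⟨z, hz, hzT⟩
  exact hy2 (Set.image_mono hVT hy1)

/-- Length of a connected set escaping through the tube. -/
lemma tube_length {g : ℂ → ℂ} (hgc : Continuous g) {X h : ℝ} (hh0 : 0 < h) (hh1 : h ≤ 1)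
    (hopen : ∀ O : Set ℂ, IsOpen O → O ⊆ {v | |v.im| ≤ 1} → IsOpen (g '' O))
    (hinj : Set.InjOn g {v | -1 ≤ v.re ∧ v.re ≤ X ∧ |v.im| ≤ h})
    (M : ℕ) (x e : ℕ → ℝ) (hx : StrictMono x) (hx0 : x 0 = 0) (hxM : x M ≤ X)
    (he : ∀ i < M, ∀ v v' : ℂ, v.re = x i → v'.re = x (i + 1) → |v.im| ≤ h → |v'.im| ≤ h →
      e i ≤ ‖g v' - g v‖)
    {Γ : Set ℂ} (hΓ : IsPreconnected Γ) (hm : MeasurableSet Γ) (h0 : g 0 ∈ Γ)
    (h1 : ∃ z ∈ Γ, z ∉ g '' {v | -1 ≤ v.re ∧ v.re ≤ X ∧ |v.im| ≤ h})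
    (hw : ∀ v : ℂ, -1 ≤ v.re → v.re ≤ X → |v.im| ≤ h → (|v.im| = h ∨ v.re = -1) → g v ∉ Γ) :
    ∑ i ∈ Finset.range M, ENNReal.ofReal (e i) ≤ μH[1] Γ := by
  set P : ℕ → Set ℂ := fun i => {v | (x i < v.re ∧ v.re < x (i + 1)) ∧ |v.im| < h} with hP
  have hPo : ∀ i, IsOpen (P i) := by
    intro i
    exact ((isOpen_lt continuous_const Complex.continuous_re).and
        (isOpen_lt Complex.continuous_re continuous_const)).and
        (isOpen_lt Complex.continuous_im.abs continuous_const)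
  have hWo : ∀ i, IsOpen (g '' P i) := fun i =>
    hopen _ (hPo i) (fun v hv => le_trans hv.2.le hh1)
  have hxnn : ∀ i, 0 ≤ x i := fun i => by
    rw [← hx0]; exact hx.monotone (Nat.zero_le i)
  have hPS : ∀ i, i < M → P i ⊆ {v | -1 ≤ v.re ∧ v.re ≤ X ∧ |v.im| ≤ h} := by
    intro i hi v hv
    have h2 : x (i + 1) ≤ x M := hx.monotone hi
    refine ⟨?_, ?_, hv.2.le⟩
    · have := hxnn i; linarith [hv.1.1]
    · linarith [hv.1.2]
  have hPd : ∀ i j, i < j → Disjoint (P i) (P j) := by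
    intro i j hij
    rw [Set.disjoint_left]
    intro v hv hv'
    have h2 : x (i + 1) ≤ x j := hx.monotone hij
    linarith [hv.1.2, hv'.1.1]
  have hWd : ∀ i j, i < M → j < M → i < j → Disjoint (g '' P i) (g '' P j) := by
    intro i j hi hj hij
    rw [Set.disjoint_left]
    rintro _ ⟨v, hv, rfl⟩ ⟨v', hv', hvv⟩
    have : v' = v := hinj (hPS j hj hv') (hPS i hi hv) hvv
    subst this
    exact Set.disjoint_left.mp (hPd i j hij) hv hv'
  have h2 : μH[1] (⋃ j ∈ Finset.range M, Γ ∩ g '' P j) =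
      ∑ j ∈ Finset.range M, μH[1] (Γ ∩ g '' P j) := by
    apply measure_biUnion_finset
    · intro i hi j hj hij
      have hi' : i < M := by simpa using hi
      have hj' : j < M := by simpa using hj
      rcases lt_or_gt_of_ne hij with h | h
      · exact (hWd i j hi' hj' h).mono Set.inter_subset_right Set.inter_subset_right
      · exact ((hWd j i hj' hi' h).mono Set.inter_subset_right Set.inter_subset_right).symm
    · intro j _
      exact hm.inter (hWo j).measurableSet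
  have h3 : μH[1] (⋃ j ∈ Finset.range M, Γ ∩ g '' P j) ≤ μH[1] Γ := by
    apply measure_mono
    intro z hz
    simp only [Set.mem_iUnion] at hz
    obtain ⟨j, _, hz⟩ := hz
    exact hz.1
  refine le_trans ?_ h3
  rw [h2]
  apply Finset.sum_le_sum
  intro i hi
  have hi' : i < M := Finset.mem_range.mp hi
  set C : Set ℂ := g '' {u | u.re = x i ∧ |u.im| ≤ h} with hC
  have h4 := (Metric.lipschitz_infDist_pt C).hausdorffMeasure_image_le (d := 1) zero_le_one
    (Γ ∩ g '' P i)
  simp only [ENNReal.coe_one, ENNReal.rpow_one, one_mul] at h4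
  refine le_trans ?_ h4
  rw [hausdorffMeasure_real]
  have h5 : Set.Ioo (0 : ℝ) (e i) ⊆ (fun z => Metric.infDist z C) '' (Γ ∩ g '' P i) := by
    intro s hs
    obtain ⟨v, hv1, hv2, hv3, hv4, hv5⟩ := tube_cross hgc (X := X) (a := x i) (b := x (i + 1))
      (e := e i) hh0 hh1 hopen (hxnn i) (hx (Nat.lt_succ_self i))
      ((hx.monotone hi').trans hxM) hinj (he i hi') hΓ h0 h1 hw hs.1 hs.2
    exact ⟨g v, ⟨hv4, v, ⟨⟨hv1, hv2⟩, hv3⟩, rfl⟩, hv5⟩
  refine le_trans ?_ (measure_mono h5)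
  rw [Real.volume_Ioo]
  apply ENNReal.ofReal_le_ofReal
  linarith



end Esc405
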