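import Mathlib
import Pool.Agent.Esc405.M1

set_option autoImplicit false

namespace Esc405
open Complex Polynomial

-- TARGET: all of the following lemmas
/-- discrete mean of `cos^2` over full periods -/
lemma sum_cos_sq (J k : ℕ) (hk : k < J) :
    ∑ i ∈ Finset.range (8 * 100 ^ J), Real.cos ((i : ℝ) * (Real.pi / 4) / 100 ^ k) ^ 2 =
      4 * 100 ^ J := by
  set θ : ℝ := Real.pi / 2 / 100 ^ k with hθ
  have h100 : (1 : ℝ) ≤ 100 ^ k := one_le_pow₀ (by norm_num)
  have hθ0 : 0 < θ := by positivity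
  have hθ1 : θ < Real.pi := by
    rw [hθ, div_lt_iff₀ (by positivity)]
    nlinarith [Real.pi_pos]
  set z : ℂ := cexp (θ * I) with hz
  have hz1 : z ≠ 1 := by
    intro h
    have := congrArg Complex.im h
    rw [hz, Complex.exp_ofReal_mul_I_im, Complex.one_im] at this
    exact absurd this (Real.sin_pos_of_pos_of_lt_pi hθ0 hθ1).ne'
  have hzN : z ^ (8 * 100 ^ J) = 1 := by
    obtain ⟨m, rfl⟩ := Nat.exists_eq_add_of_lt hk
    rw [hz, ← Complex.exp_nat_mul, Complex.exp_eq_one_iff]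
    refine ⟨2 * 100 ^ (m + 1), ?_⟩
    rw [hθ]
    push_cast
    have h3 : (100 : ℂ) ^ (k + m + 1) = 100 ^ k * 100 ^ (m + 1) := by ring
    have h4 : (100 : ℂ) ^ k ≠ 0 := pow_ne_zero _ (by norm_num)
    rw [h3]
    field_simp
    ring
  have hsum : ∑ i ∈ Finset.range (8 * 100 ^ J), z ^ i = 0 := by
    have h5 := geom_sum_mul z (8 * 100 ^ J)
    rw [hzN, sub_self] at h5
    rcases mul_eq_zero.1 h5 with h6 | h6
    · exact h6
    · exact absurd (sub_eq_zero.1 h6) hz1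
  have hre : ∑ i ∈ Finset.range (8 * 100 ^ J), Real.cos ((i : ℝ) * θ) = 0 := by
    have h7 := congrArg Complex.re hsum
    rw [Complex.re_sum, Complex.zero_re] at h7
    rw [← h7]
    refine Finset.sum_congr rfl fun i _ => ?_
    rw [hz, ← Complex.exp_nat_mul]
    have h8 : (i : ℂ) * (θ * I) = ((i * θ : ℝ) : ℂ) * I := by push_cast; ring
    rw [h8, Complex.exp_ofReal_mul_I_re]
  have hterm : ∀ i : ℕ, Real.cos ((i : ℝ) * (Real.pi / 4) / 100 ^ k) ^ 2 =
      1 / 2 + Real.cos ((i : ℝ) * θ) / 2 := by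
    intro i
    rw [Real.cos_sq]
    congr 3
    rw [hθ]
    field_simp
    ring
  have h9 : ∑ i ∈ Finset.range (8 * 100 ^ J), Real.cos ((i : ℝ) * θ) / 2 = 0 := by
    rw [← Finset.sum_div, hre, zero_div]
  rw [Finset.sum_congr rfl fun i _ => hterm i, Finset.sum_add_distrib, h9, Finset.sum_const,
    Finset.card_range, nsmul_eq_mul]
  push_cast
  ring

lemma log_factor_sinh (b : ℝ) (hb : |b| ≤ 1 / 6336) : |Real.sinh b| ≤ 2 / 6336 := by
  have h1 := Real.abs_exp_sub_one_le (x := b) (hb.trans (by norm_num))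
  have h2 := Real.abs_exp_sub_one_le (x := -b) (by rw [abs_neg]; exact hb.trans (by norm_num))
  rw [abs_neg] at h2
  rw [abs_le] at h1 h2 ⊢
  rw [Real.sinh_eq]
  constructor <;> linarith [h1.1, h1.2, h2.1, h2.2]

lemma log_factor_sq (x : ℝ) (k : ℕ) :
    1 + (1 / 10000 * Real.cos (x / 100 ^ k) ^ 2 - 1 / 100000 + 1 / 10 ^ 9) ≤
      ‖1 + I / 100 * cos (R^[k] (x : ℂ))‖ ^ 2 := by
  have hU : (x : ℂ) ∈ U := by
    show |(x : ℂ).im| ≤ 1
    simp
  have hclose := iter_close hU k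
  set w : ℂ := R^[k] (x : ℂ) with hw
  have hwe : w = ((w.re : ℝ) : ℂ) + ((w.im : ℝ) : ℂ) * I := (Complex.re_add_im w).symm
  have hxe : (x : ℂ) / 100 ^ k = ((x / 100 ^ k : ℝ) : ℂ) := by push_cast; rfl
  rw [hxe] at hclose
  have ha : |w.re - x / 100 ^ k| ≤ 1 / 6336 := by
    have := (Complex.abs_re_le_norm _).trans hclose
    rwa [Complex.sub_re, Complex.ofReal_re] at this
  have hb : |w.im| ≤ 1 / 6336 := by
    have := (Complex.abs_im_le_norm _).trans hclose
    rw [Complex.sub_im, Complex.ofReal_im, sub_zero] at this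
    exact this
  set a := w.re with hadef
  set b := w.im with hbdef
  set x' := x / 100 ^ k with hx'
  have hs := log_factor_sinh b hb
  have hcosd : |Real.cos a - Real.cos x'| ≤ 1 / 6336 := by
    refine le_trans ?_ ha
    have h := Real.cos_sub_cos a x'
    rw [h, abs_mul, abs_mul]
    have h2 : |Real.sin ((a + x') / 2)| ≤ 1 := Real.abs_sin_le_one _
    have h3 : |Real.sin ((a - x') / 2)| ≤ |(a - x') / 2| := Real.abs_sin_le_abs
    have h4 : |(-2 : ℝ)| = 2 := by norm_num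
    rw [h4]
    have h5 : |(a - x') / 2| = |a - x'| / 2 := by rw [abs_div]; norm_num
    rw [h5] at h3
    nlinarith [abs_nonneg (Real.sin ((a - x') / 2)), abs_nonneg (Real.sin ((a + x') / 2))]
  have hnorm : ‖1 + I / 100 * cos w‖ ^ 2 =
      (1 + Real.sin a * Real.sinh b / 100) ^ 2 + (Real.cos a * Real.cosh b / 100) ^ 2 := by
    rw [hwe, Complex.cos_add_mul_I, ← Complex.ofReal_cos, ← Complex.ofReal_sin,
      ← Complex.ofReal_cosh, ← Complex.ofReal_sinh]
    rw [← Complex.normSq_eq_norm_sq, Complex.normSq_apply]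
    have e : (1 + I / 100 * (((Real.cos a : ℝ) : ℂ) * ((Real.cosh b : ℝ) : ℂ) -
        ((Real.sin a : ℝ) : ℂ) * ((Real.sinh b : ℝ) : ℂ) * I)) =
        ((1 + Real.sin a * Real.sinh b / 100 : ℝ) : ℂ) +
          ((Real.cos a * Real.cosh b / 100 : ℝ) : ℂ) * I := by
      push_cast
      linear_combination (-(Complex.sin a * Complex.sinh b / 100)) * Complex.I_sq
    rw [e]
    simp only [Complex.add_re, Complex.ofReal_re, Complex.mul_re, Complex.I_re, mul_zero,
      Complex.ofReal_im, Complex.I_im, mul_one, sub_self, add_zero, Complex.add_im,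
      Complex.mul_im, zero_add]
    ring
  have hc1 : Real.cos x' ^ 2 ≤ 1 := Real.cos_sq_le_one x'
  have hc0 : 0 ≤ Real.cos x' ^ 2 := sq_nonneg _
  rw [hnorm]
  have h1 : 1 ≤ Real.cosh b := Real.one_le_cosh b
  have h2 : |Real.sin a * Real.sinh b| ≤ 2 / 6336 := by
    rw [abs_mul]
    calc |Real.sin a| * |Real.sinh b| ≤ 1 * (2 / 6336) :=
          mul_le_mul (Real.abs_sin_le_one a) hs (abs_nonneg _) zero_le_one
      _ = 2 / 6336 := one_mul _
  have h3 := (abs_le.1 h2).1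
  have h4 : Real.cos a ^ 2 ≤ Real.cos a ^ 2 * Real.cosh b ^ 2 := by
    have : 1 ≤ Real.cosh b ^ 2 := one_le_pow₀ h1
    nlinarith [sq_nonneg (Real.cos a)]
  have h5 : Real.cos x' ^ 2 - 2 / 6336 ≤ Real.cos a ^ 2 := by
    have h6 : |Real.cos a ^ 2 - Real.cos x' ^ 2| ≤ 2 / 6336 := by
      have : Real.cos a ^ 2 - Real.cos x' ^ 2 =
          (Real.cos a - Real.cos x') * (Real.cos a + Real.cos x') := by ring
      rw [this, abs_mul]
      have h7 : |Real.cos a + Real.cos x'| ≤ 2 := by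
        refine (abs_add_le _ _).trans ?_
        linarith [Real.abs_cos_le_one a, Real.abs_cos_le_one x']
      calc |Real.cos a - Real.cos x'| * |Real.cos a + Real.cos x'| ≤ (1 / 6336) * 2 :=
            mul_le_mul hcosd h7 (abs_nonneg _) (by norm_num)
        _ = 2 / 6336 := by norm_num
    linarith [(abs_le.1 h6).1]
  have h8 : (Real.cos a * Real.cosh b / 100) ^ 2 =
      Real.cos a ^ 2 * Real.cosh b ^ 2 / 10000 := by ring
  rw [h8]
  nlinarith [sq_nonneg (Real.sin a * Real.sinh b / 100)]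

/-- one factor -/
lemma log_factor (x : ℝ) (k : ℕ) :
    (1 / 10000 * (Real.cos (x / 100 ^ k) ^ 2 - 1 / 10)) / 2 - 1 / 10 ^ 8 ≤
      Real.log ‖1 + I / 100 * cos (R^[k] (x : ℂ))‖ := by
  have hlow := log_factor_sq x k
  set w : ℂ := R^[k] (x : ℂ) with hw
  set x' := x / 100 ^ k with hx'
  set y0 : ℝ := 1 / 10000 * Real.cos x' ^ 2 - 1 / 100000 + 1 / 10 ^ 9 with hy0
  have hc1 : Real.cos x' ^ 2 ≤ 1 := Real.cos_sq_le_one x'
  have hc0 : 0 ≤ Real.cos x' ^ 2 := sq_nonneg _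
  have hy1 : -(1 / 10000) ≤ y0 := by rw [hy0]; norm_num; linarith
  have hy2 : y0 ≤ 1 / 10000 := by rw [hy0]; norm_num; linarith
  have hpos : 0 < 1 + y0 := by linarith
  have hlog1 : y0 - 2 * y0 ^ 2 ≤ Real.log (1 + y0) := by
    have h1 := Real.one_sub_inv_le_log_of_pos hpos
    have h2 : (1 + y0)⁻¹ ≤ 1 - y0 + 2 * y0 ^ 2 := by
      rw [inv_le_iff_one_le_mul₀ hpos]
      nlinarith [sq_nonneg y0]
    linarith
  have hlog2 : Real.log (1 + y0) ≤ Real.log (‖1 + I / 100 * cos w‖ ^ 2) :=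
    Real.log_le_log hpos hlow
  rw [Real.log_pow] at hlog2
  have hsq : y0 ^ 2 ≤ 1 / 10 ^ 8 := by
    have : |y0| ≤ 1 / 10000 := abs_le.2 ⟨hy1, hy2⟩
    calc y0 ^ 2 = |y0| ^ 2 := (sq_abs y0).symm
      _ ≤ (1 / 10000) ^ 2 := pow_le_pow_left₀ (abs_nonneg _) this 2
      _ = 1 / 10 ^ 8 := by norm_num
  push_cast at hlog2
  have : y0 = 1 / 10000 * Real.cos x' ^ 2 - 1 / 100000 + 1 / 10 ^ 9 := hy0
  norm_num at this hsq ⊢
  linarith

lemma growth_norm (J : ℕ) (x : ℝ) :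
    ‖D J (x : ℂ)‖ = (100 ^ J)⁻¹ * Real.exp (∑ k ∈ Finset.range J,
      Real.log ‖1 + I / 100 * cos (R^[k] (x : ℂ))‖) := by
  have hpos : ∀ k, 0 < ‖1 + I / 100 * cos (R^[k] (x : ℂ))‖ := by
    intro k
    have h := log_factor_sq x k
    have h0 : 0 ≤ Real.cos (x / 100 ^ k) ^ 2 := sq_nonneg _
    rcases (norm_nonneg (1 + I / 100 * cos (R^[k] (x : ℂ)))).lt_or_eq with h1 | h1
    · exact h1
    · rw [← h1] at h
      norm_num at h
      linarith
  unfold D
  rw [norm_prod, Real.exp_sum]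
  have h1 : ∀ k ∈ Finset.range J, ‖R' (R^[k] (x : ℂ))‖ =
      (100 : ℝ)⁻¹ * Real.exp (Real.log ‖1 + I / 100 * cos (R^[k] (x : ℂ))‖) := by
    intro k _
    rw [Real.exp_log (hpos k), R', norm_div]
    have : ‖(100 : ℂ)‖ = 100 := by norm_num
    rw [this]
    ring
  rw [Finset.prod_congr rfl h1, Finset.prod_mul_distrib, Finset.prod_const, Finset.card_range,
    inv_pow]

/-- growth of the total length -/
lemma growth (J : ℕ) :
    8 * Real.exp (J / 10 ^ 5) ≤
      ∑ i ∈ Finset.range (8 * 100 ^ J), ‖D J (((i : ℝ) * (Real.pi / 4) : ℝ) : ℂ)‖ := by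
  set S : ℕ → ℝ := fun i => ∑ k ∈ Finset.range J,
    Real.log ‖1 + I / 100 * cos (R^[k] ((((i : ℝ) * (Real.pi / 4) : ℝ) : ℂ)))‖ with hS
  have h1 : ∑ i ∈ Finset.range (8 * 100 ^ J), ‖D J (((i : ℝ) * (Real.pi / 4) : ℝ) : ℂ)‖ =
      (100 ^ J)⁻¹ * ∑ i ∈ Finset.range (8 * 100 ^ J), Real.exp (S i) := by
    rw [Finset.mul_sum]
    exact Finset.sum_congr rfl fun i _ => growth_norm J _
  have h2 : (J : ℝ) / 10 ^ 5 * (8 * 100 ^ J) ≤ ∑ i ∈ Finset.range (8 * 100 ^ J), S i := by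
    rw [hS, Finset.sum_comm]
    have h3 : ∀ k ∈ Finset.range J, (1 : ℝ) / 10 ^ 5 * (8 * 100 ^ J) ≤
        ∑ i ∈ Finset.range (8 * 100 ^ J),
          Real.log ‖1 + I / 100 * cos (R^[k] ((((i : ℝ) * (Real.pi / 4) : ℝ) : ℂ)))‖ := by
      intro k hk
      refine le_trans ?_ (Finset.sum_le_sum fun i _ => log_factor ((i : ℝ) * (Real.pi / 4)) k)
      have h4 := sum_cos_sq J k (Finset.mem_range.1 hk)
      have h5 : ∑ i ∈ Finset.range (8 * 100 ^ J),
          ((1 / 10000 * (Real.cos ((i : ℝ) * (Real.pi / 4) / 100 ^ k) ^ 2 - 1 / 10)) / 2 -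
            1 / 10 ^ 8) = 1 / 20000 * (∑ i ∈ Finset.range (8 * 100 ^ J),
              Real.cos ((i : ℝ) * (Real.pi / 4) / 100 ^ k) ^ 2) -
            (8 * 100 ^ J) * (1 / 200000 + 1 / 10 ^ 8) := by
        rw [Finset.mul_sum]
        have h6 : (8 * 100 ^ J : ℝ) * (1 / 200000 + 1 / 10 ^ 8) =
            ∑ i ∈ Finset.range (8 * 100 ^ J), (1 / 200000 + 1 / 10 ^ 8 : ℝ) := by
          rw [Finset.sum_const, Finset.card_range, nsmul_eq_mul]
          push_cast
          ring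
        rw [h6, ← Finset.sum_sub_distrib]
        refine Finset.sum_congr rfl fun i _ => ?_
        ring
      rw [h5, h4]
      have h7 : (0 : ℝ) < 100 ^ J := by positivity
      norm_num
      nlinarith
    refine le_trans ?_ (Finset.sum_le_sum h3)
    rw [Finset.sum_const, Finset.card_range, nsmul_eq_mul]
    apply le_of_eq
    ring
  have h8 : ∀ i ∈ Finset.range (8 * 100 ^ J),
      Real.exp (J / 10 ^ 5) * (1 + (S i - J / 10 ^ 5)) ≤ Real.exp (S i) := by
    intro i _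
    have h9 : Real.exp (S i) = Real.exp (J / 10 ^ 5) * Real.exp (S i - J / 10 ^ 5) := by
      rw [← Real.exp_add]; congr 1; ring
    rw [h9]
    refine mul_le_mul_of_nonneg_left ?_ (Real.exp_pos _).le
    have := Real.add_one_le_exp (S i - J / 10 ^ 5)
    linarith
  have h10 := Finset.sum_le_sum h8
  rw [← Finset.mul_sum, Finset.sum_add_distrib, Finset.sum_sub_distrib, Finset.sum_const,
    Finset.sum_const, Finset.card_range, nsmul_eq_mul, nsmul_eq_mul] at h10
  have h11 : (0 : ℝ) < 100 ^ J := by positivity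
  have h12 : Real.exp (J / 10 ^ 5) * (8 * 100 ^ J) ≤
      ∑ i ∈ Finset.range (8 * 100 ^ J), Real.exp (S i) := by
    refine le_trans (mul_le_mul_of_nonneg_left ?_ (Real.exp_pos _).le) h10
    push_cast
    linarith
  rw [h1]
  calc 8 * Real.exp (J / 10 ^ 5) = (100 ^ J)⁻¹ * (Real.exp (J / 10 ^ 5) * (8 * 100 ^ J)) := by
        field_simp
    _ ≤ _ := mul_le_mul_of_nonneg_left h12 (by positivity)



end Esc405
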