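import Mathlib
import Pool.Agent.Esc405.M1

set_option autoImplicit false

namespace Esc405
open Complex Polynomial

-- TARGET: all of the following lemmas

lemma w864_convex : Convex ℝ U := by
  intro x hx y hy a b ha hb hab
  have hx' : |x.im| ≤ 1 := hx
  have hy' : |y.im| ≤ 1 := hy
  show |(a • x + b • y).im| ≤ 1
  have e : (a • x + b • y).im = a * x.im + b * y.im := by simp
  rw [e]
  calc |a * x.im + b * y.im| ≤ |a * x.im| + |b * y.im| := abs_add_le _ _
    _ = a * |x.im| + b * |y.im| := by rw [abs_mul, abs_mul, abs_of_nonneg ha, abs_of_nonneg hb]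
    _ ≤ a * 1 + b * 1 := by
        exact add_le_add (mul_le_mul_of_nonneg_left hx' ha) (mul_le_mul_of_nonneg_left hy' hb)
    _ = 1 := by rw [mul_one, mul_one, hab]

lemma R_sub {v v' : ℂ} (hv : v ∈ U) (hv' : v' ∈ U) :
    ‖100 * (R v - R v') - (v - v')‖ ≤ 1 / 64 * ‖v - v'‖ := by
  have h := Convex.norm_image_sub_le_of_norm_hasDerivWithin_le (𝕜 := ℂ) (f := fun v => I / 100 * sin v)
    (f' := fun v => I / 100 * cos v) (C := 1 / 64) (s := U)
    (fun x _ => ((hasDerivAt_sin x).const_mul (I / 100)).hasDerivWithinAt) (by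
      intro x hx
      have h1 := norm_cos_le hx
      rw [norm_mul, norm_div, norm_I]
      have h2 : ‖(100 : ℂ)‖ = 100 := by norm_num
      rw [h2]
      linarith) w864_convex hv' hv
  have e : 100 * (R v - R v') - (v - v') = I / 100 * sin v - I / 100 * sin v' := by
    unfold R
    ring
  rw [e]
  exact h

lemma R'_sub {v v' : ℂ} (hv : v ∈ U) (hv' : v' ∈ U) :
    ‖R' v - R' v'‖ ≤ 1 / 6400 * ‖v - v'‖ := by
  have h := Convex.norm_image_sub_le_of_norm_hasDerivWithin_le (𝕜 := ℂ) (f := R')
    (f' := fun v => I / 100 * (-sin v) / 100) (C := 1 / 6400) (s := U)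
    (fun x _ => by
      have h1 := (((hasDerivAt_cos x).const_mul (I / 100)).const_add 1).div_const (100 : ℂ)
      exact h1.hasDerivWithinAt) (by
      intro x hx
      have h1 := norm_sin_le hx
      rw [norm_div, norm_mul, norm_div, norm_I, norm_neg]
      have h2 : ‖(100 : ℂ)‖ = 100 := by norm_num
      rw [h2]
      linarith) w864_convex hv' hv
  exact h

lemma hasDerivAt_R (v : ℂ) : HasDerivAt R (R' v) v := by
  have h1 := ((hasDerivAt_id v).add ((hasDerivAt_sin v).const_mul (I / 100))).div_const (100 : ℂ)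
  exact h1

lemma hasDerivAt_iter (K : ℕ) (v : ℂ) : HasDerivAt (R^[K]) (D K v) v := by
  induction K with
  | zero =>
    simp only [D, Finset.range_zero, Finset.prod_empty]
    exact hasDerivAt_id v
  | succ K ih =>
    have h1 := (hasDerivAt_R (R^[K] v)).comp v ih
    rw [Function.iterate_succ']
    have e : D (K + 1) v = R' (R^[K] v) * D K v := by
      unfold D
      rw [Finset.prod_range_succ, mul_comm]
    rw [e]
    exact h1




end Esc405
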