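import Mathlib
import Pool.Agent.Esc405.M2

set_option autoImplicit false

namespace Esc405
open Complex Polynomial

-- TARGET: all of the following lemmas
lemma D_succ (K : ℕ) (v : ℂ) : D (K + 1) v = R' v * D K (R v) := by
  unfold D
  rw [Finset.prod_range_succ', mul_comm]
  rfl
lemma D_lower {v : ℂ} (hv : v ∈ U) (K : ℕ) : (63 / 6400 : ℝ) ^ K ≤ ‖D K v‖ := by
  unfold D
  rw [norm_prod]
  calc (63 / 6400 : ℝ) ^ K = ∏ k ∈ Finset.range K, (63 / 6400 : ℝ) := by
        rw [Finset.prod_const, Finset.card_range]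
    _ ≤ ∏ k ∈ Finset.range K, ‖R' (R^[k] v)‖ :=
        Finset.prod_le_prod (fun _ _ => by norm_num) (fun k _ => R'_lower (iter_mem hv k))
lemma D_upper {v : ℂ} (hv : v ∈ U) (K : ℕ) : ‖D K v‖ ≤ (65 / 6400 : ℝ) ^ K := by
  unfold D
  rw [norm_prod]
  calc ∏ k ∈ Finset.range K, ‖R' (R^[k] v)‖ ≤ ∏ k ∈ Finset.range K, (65 / 6400 : ℝ) :=
        Finset.prod_le_prod (fun _ _ => norm_nonneg _) (fun k _ => R'_upper (iter_mem hv k))
    _ = (65 / 6400 : ℝ) ^ K := by rw [Finset.prod_const, Finset.card_range]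
lemma R_dist {v v' : ℂ} (hv : v ∈ U) (hv' : v' ∈ U) :
    63 / 6400 * ‖v - v'‖ ≤ ‖R v - R v'‖ ∧ ‖R v - R v'‖ ≤ 65 / 6400 * ‖v - v'‖ := by
  have h1 := R_sub hv hv'
  have h2 : ‖100 * (R v - R v')‖ = 100 * ‖R v - R v'‖ := by
    rw [norm_mul]
    norm_num
  have h3 := norm_sub_norm_le (100 * (R v - R v')) (v - v')
  have h4 := norm_sub_norm_le (v - v') (100 * (R v - R v'))
  rw [norm_sub_rev (v - v') (100 * (R v - R v'))] at h4
  rw [h2] at h3 h4
  constructor <;> linarith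
/-- distortion -/
lemma D_dist (K : ℕ) {v v' : ℂ} (hv : v ∈ U) (hv' : v' ∈ U) (h : ‖v' - v‖ ≤ 2) :
    ‖D K v' - D K v‖ ≤ ‖v' - v‖ / 50 * ‖D K v‖ := by
  induction K generalizing v v' with
  | zero =>
    have e : ∀ w, D 0 w = 1 := fun w => by simp [D]
    rw [e, e, sub_self, norm_zero]
    positivity
  | succ K ih =>
    have hs := (R_dist hv' hv).2
    have hs2 : ‖R v' - R v‖ ≤ 2 := by linarith
    have h1 := ih (R_mem hv) (R_mem hv') hs2
    have h2 := R'_sub hv' hv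
    have h3 := R'_lower hv
    have ht0 := norm_nonneg (v' - v)
    have hs0 := norm_nonneg (R v' - R v)
    have hd0 := norm_nonneg (D K (R v))
    have hr0 := norm_nonneg (R' v)
    have h4 : ‖D K (R v')‖ ≤ (1 + ‖R v' - R v‖ / 50) * ‖D K (R v)‖ := by
      have h5 : ‖D K (R v')‖ ≤ ‖D K (R v)‖ + ‖D K (R v') - D K (R v)‖ := by
        have e : D K (R v') = D K (R v) + (D K (R v') - D K (R v)) := by ring
        calc ‖D K (R v')‖ = ‖D K (R v) + (D K (R v') - D K (R v))‖ := by rw [← e]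
          _ ≤ _ := norm_add_le _ _
      linarith
    have h6 : ‖R' v' - R' v‖ ≤ ‖R' v‖ * (‖v' - v‖ / 63) := by
      have h7 : 63 / 6400 * (‖v' - v‖ / 63) ≤ ‖R' v‖ * (‖v' - v‖ / 63) :=
        mul_le_mul_of_nonneg_right h3 (by positivity)
      linarith
    rw [D_succ, D_succ]
    have e : R' v' * D K (R v') - R' v * D K (R v) =
        (R' v' - R' v) * D K (R v') + R' v * (D K (R v') - D K (R v)) := by ring
    rw [e, norm_mul (R' v) (D K (R v))]
    refine (norm_add_le _ _).trans ?_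
    rw [norm_mul, norm_mul]
    have h8 : ‖R' v' - R' v‖ * ‖D K (R v')‖ ≤
        (‖R' v‖ * (‖v' - v‖ / 63)) * ((1 + ‖R v' - R v‖ / 50) * ‖D K (R v)‖) :=
      mul_le_mul h6 h4 (norm_nonneg _) (by positivity)
    have h9 : ‖R' v‖ * ‖D K (R v') - D K (R v)‖ ≤
        ‖R' v‖ * (‖R v' - R v‖ / 50 * ‖D K (R v)‖) :=
      mul_le_mul_of_nonneg_left h1 hr0
    have h10 : (‖v' - v‖ / 63) * (1 + ‖R v' - R v‖ / 50) + ‖R v' - R v‖ / 50 ≤ ‖v' - v‖ / 50 := by
      have h11 : (‖v' - v‖ / 63) * (1 + ‖R v' - R v‖ / 50) ≤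
          (‖v' - v‖ / 63) * (1 + 1 / 25) := by
        apply mul_le_mul_of_nonneg_left _ (by positivity)
        linarith
      linarith
    have h12 := mul_le_mul_of_nonneg_left h10 (mul_nonneg hr0 hd0)
    calc _ ≤ (‖R' v‖ * (‖v' - v‖ / 63)) * ((1 + ‖R v' - R v‖ / 50) * ‖D K (R v)‖) +
          ‖R' v‖ * (‖R v' - R v‖ / 50 * ‖D K (R v)‖) := add_le_add h8 h9
      _ = ‖R' v‖ * ‖D K (R v)‖ *
          ((‖v' - v‖ / 63) * (1 + ‖R v' - R v‖ / 50) + ‖R v' - R v‖ / 50) := by ring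
      _ ≤ ‖R' v‖ * ‖D K (R v)‖ * (‖v' - v‖ / 50) := h12
      _ = _ := by ring
lemma h396_U_convex : Convex ℝ U := by
  intro x hx y hy a b ha hb hab
  have hx' : |x.im| ≤ 1 := hx
  have hy' : |y.im| ≤ 1 := hy
  show |(a • x + b • y).im| ≤ 1
  have e : (a • x + b • y).im = a * x.im + b * y.im := by
    simp [Complex.add_im]
  rw [e]
  rw [abs_le] at *
  constructor
  · nlinarith
  · nlinarith
/-- near linearity at distance at most two -/
lemma iter_near (K : ℕ) {v v' : ℂ} (hv : v ∈ U) (hv' : v' ∈ U) (h : ‖v' - v‖ ≤ 2) :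
    ‖R^[K] v' - R^[K] v - D K v * (v' - v)‖ ≤ 1 / 25 * ‖D K v‖ * ‖v' - v‖ := by
  have hseg : segment ℝ v v' ⊆ U := h396_U_convex.segment_subset hv hv'
  have h1 := Convex.norm_image_sub_le_of_norm_hasDerivWithin_le (𝕜 := ℂ) (G := ℂ)
    (f := fun u => R^[K] u - D K v * u) (f' := fun u => D K u - D K v)
    (C := 1 / 25 * ‖D K v‖) (s := segment ℝ v v') (x := v) (y := v')
    (fun x _ => by
      have h2 := (hasDerivAt_iter K x).sub ((hasDerivAt_id x).const_mul (D K v))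
      rw [mul_one] at h2
      exact h2.hasDerivWithinAt)
    (fun x hx => by
      have h2 : ‖x - v‖ ≤ ‖v' - v‖ := by
        obtain ⟨a, b, ha, hb, hab, rfl⟩ := hx
        have e : a • v + b • v' - v = b • (v' - v) := by
          have ha' : a = 1 - b := by linarith
          rw [ha']
          module
        rw [e, norm_smul, Real.norm_eq_abs, abs_of_nonneg hb]
        have : b ≤ 1 := by linarith
        nlinarith [norm_nonneg (v' - v)]
      have h3 := D_dist K hv (hseg hx) (h2.trans h)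
      refine h3.trans ?_
      apply mul_le_mul_of_nonneg_right _ (norm_nonneg _)
      linarith)
    (convex_segment v v') (left_mem_segment ℝ v v') (right_mem_segment ℝ v v')
  have e : R^[K] v' - R^[K] v - D K v * (v' - v) =
      (R^[K] v' - D K v * v') - (R^[K] v - D K v * v) := by ring
  rw [e]
  exact h1
lemma h396_near_lower (K : ℕ) {v v' : ℂ} (hv : v ∈ U) (hv' : v' ∈ U) (h : ‖v' - v‖ ≤ 2) :
    24 / 25 * ‖D K v‖ * ‖v' - v‖ ≤ ‖R^[K] v' - R^[K] v‖ := by
  have h1 := iter_near K hv hv' h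
  have h2 := norm_sub_norm_le (D K v * (v' - v)) (R^[K] v' - R^[K] v)
  rw [norm_sub_rev (D K v * (v' - v)) (R^[K] v' - R^[K] v), norm_mul] at h2
  linarith
/-- two points at distance at least one are separated at scale `D K v` -/
lemma iter_far (K : ℕ) {v v' : ℂ} (hv : v ∈ U) (hv' : v' ∈ U) (h : 1 ≤ ‖v' - v‖) :
    1 / 2 * ‖D K v‖ ≤ ‖R^[K] v' - R^[K] v‖ := by
  induction K generalizing v v' with
  | zero =>
    have e : ∀ w, D 0 w = 1 := fun w => by simp [D]
    rw [e]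
    simp only [Function.iterate_zero, id_eq, norm_one]
    linarith
  | succ K ih =>
    rw [D_succ, norm_mul, Function.iterate_succ_apply, Function.iterate_succ_apply]
    have h1 := R'_upper hv
    have hd0 := norm_nonneg (D K (R v))
    by_cases hc : 1 ≤ ‖R v' - R v‖
    · have h2 := ih (R_mem hv) (R_mem hv') hc
      have h3 : ‖R' v‖ * ‖D K (R v)‖ ≤ 1 * ‖D K (R v)‖ :=
        mul_le_mul_of_nonneg_right (by linarith) hd0
      linarith
    · push Not at hc
      have h2 := h396_near_lower K (R_mem hv) (R_mem hv') (by linarith)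
      have h3 := (R_dist hv' hv).1
      have h4 : (63 / 6400 : ℝ) ≤ ‖R v' - R v‖ := by linarith
      have h5 : 24 / 25 * ‖D K (R v)‖ * (63 / 6400) ≤
          24 / 25 * ‖D K (R v)‖ * ‖R v' - R v‖ :=
        mul_le_mul_of_nonneg_left h4 (by positivity)
      have h6 : ‖R' v‖ * ‖D K (R v)‖ ≤ 65 / 6400 * ‖D K (R v)‖ :=
        mul_le_mul_of_nonneg_right h1 hd0
      linarith
lemma iter_sep (K : ℕ) {v v' : ℂ} (hv : v ∈ U) (hv' : v' ∈ U) {r : ℝ} (hr0 : 0 ≤ r) (hr1 : r ≤ 1)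
    (h : r ≤ ‖v' - v‖) : 1 / 2 * ‖D K v‖ * r ≤ ‖R^[K] v' - R^[K] v‖ := by
  have hd0 := norm_nonneg (D K v)
  by_cases hc : 1 ≤ ‖v' - v‖
  · have h1 := iter_far K hv hv' hc
    have h2 : 1 / 2 * ‖D K v‖ * r ≤ 1 / 2 * ‖D K v‖ * 1 :=
      mul_le_mul_of_nonneg_left hr1 (by positivity)
    linarith
  · push Not at hc
    have h1 := h396_near_lower K hv hv' (by linarith)
    have h2 : 1 / 2 * ‖D K v‖ * r ≤ 24 / 25 * ‖D K v‖ * ‖v' - v‖ :=
      mul_le_mul (by linarith) h hr0 (by positivity)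
    linarith
lemma iter_inj (K : ℕ) {v v' : ℂ} (hv : v ∈ U) (hv' : v' ∈ U) (h : R^[K] v = R^[K] v') :
    v = v' := by
  by_contra hne
  have h1 : 0 < ‖v' - v‖ := norm_pos_iff.2 (sub_ne_zero.2 (Ne.symm hne))
  have h2 := iter_sep K hv hv' (r := min ‖v' - v‖ 1) (le_min h1.le zero_le_one) (min_le_right _ _)
    (min_le_left _ _)
  rw [h, sub_self, norm_zero] at h2
  have h3 : 0 < min ‖v' - v‖ 1 := lt_min h1 zero_lt_one
  have h4 : 0 < ‖D K v‖ := lt_of_lt_of_le (by positivity) (D_lower hv K)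
  have h5 : 0 < 1 / 2 * ‖D K v‖ * min ‖v' - v‖ 1 := by positivity
  linarith



end Esc405
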