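import Mathlib
import Pool.Agent.Esc405.M3
import Pool.Agent.Esc405.Base

set_option autoImplicit false

namespace Esc405
open Complex Polynomial

-- TARGET: all of the following lemmas
/-- a step with given distance `E` for `G` -/
lemma G_step {Q : Set ℂ} {w₀ w : ℂ} {m : ℕ} {E : ℝ} (hw₀ : ‖w₀‖ ≤ 2) (hE0 : 0 < E)
    (hE1 : E ≤ 1) (hE : ∀ z ∈ Q, E ≤ ‖z - w₀‖) (hww : ‖w - w₀‖ ≤ E / 2)
    (h : G Q m w₀) : G Q (m + 1) w := by
  have hB : (2:ℝ) ≤ 2 ^ (11 ^ m) := by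
    have h1 : 1 ≤ 11 ^ m := Nat.one_le_pow _ _ (by norm_num)
    calc (2:ℝ) = 2 ^ 1 := by norm_num
      _ ≤ 2 ^ (11 ^ m) := pow_le_pow_right₀ (by norm_num) h1
  have hd : 1 ≤ 8 ^ m := Nat.one_le_pow _ _ (by norm_num)
  have h2 := good_step (D := E) hw₀ hE0 hE1 hE hww hB hd h
  have e1 : 8 * 8 ^ m = 8 ^ (m + 1) := by rw [pow_succ]; ring
  have e2 : ((2:ℝ) ^ (11 ^ m)) ^ 11 = 2 ^ (11 ^ (m + 1)) := by
    rw [← pow_mul, ← pow_succ]
  rw [e1, e2] at h2
  exact h2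

/-- one step in level `K` coordinates -/
lemma chain_step (K : ℕ) {S : Set ℂ} (hS : S ⊆ U) {v v' : ℂ} (hv : v ∈ U) (hv' : v' ∈ U)
    {r : ℝ} (hr0 : 0 < r) (hr1 : r ≤ 1) (hr : ∀ s ∈ S, r ≤ ‖s - v‖) (hvv : ‖v' - v‖ ≤ r / 5)
    (hn : ‖phi K v‖ ≤ 2) {m : ℕ} (h : G (phi K '' S) m (phi K v)) :
    G (phi K '' S) (m + 1) (phi K v') := by
  have hD0 : 0 < ‖D K v‖ := lt_of_lt_of_le (by positivity) (D_lower hv K)
  have hD1 : ‖D K v‖ ≤ 1 := (D_upper hv K).trans (pow_le_one₀ (by norm_num) (by norm_num))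
  have hphi : ∀ s, ‖phi K s - phi K v‖ = ‖R^[K] s - R^[K] v‖ / 16 := by
    intro s
    unfold phi
    rw [← sub_div, norm_div]
    norm_num
  refine G_step (E := ‖D K v‖ * r / 32) hn (by positivity) ?_ ?_ ?_ h
  · have : ‖D K v‖ * r ≤ 1 * 1 := mul_le_mul hD1 hr1 hr0.le zero_le_one
    linarith
  · rintro z ⟨s, hs, rfl⟩
    rw [hphi]
    have h1 := iter_sep K hv (hS hs) hr0.le hr1 (hr s hs)
    linarith
  · rw [hphi]
    have h1 := iter_near K hv hv' (by linarith)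
    have h2 : ‖R^[K] v' - R^[K] v‖ ≤ ‖D K v * (v' - v)‖ + 1 / 25 * ‖D K v‖ * ‖v' - v‖ := by
      calc ‖R^[K] v' - R^[K] v‖ = ‖D K v * (v' - v) + (R^[K] v' - R^[K] v - D K v * (v' - v))‖ := by
            congr 1; ring
        _ ≤ ‖D K v * (v' - v)‖ + ‖R^[K] v' - R^[K] v - D K v * (v' - v)‖ := norm_add_le _ _
        _ ≤ _ := by linarith
    rw [norm_mul] at h2
    have h3 : ‖D K v‖ * ‖v' - v‖ ≤ ‖D K v‖ * (r / 5) := mul_le_mul_of_nonneg_left hvv hD0.le
    have h4 : 0 < ‖D K v‖ * r := by positivity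
    nlinarith

/-- points of norm in `[1,2]` are good at once -/
lemma G_start {Q : Set ℂ} (hQ : ∀ z ∈ Q, ‖z‖ ≤ 1 / 2) {w : ℂ} (hw : 1 ≤ ‖w‖) : G Q 1 w := by
  have hw0 : w ≠ 0 := by
    intro h
    rw [h, norm_zero] at hw
    linarith
  have hinv : ‖w⁻¹‖ ≤ 1 := by
    rw [norm_inv]
    exact inv_le_one_of_one_le₀ hw
  have hev : ∀ z, ((C w⁻¹ * X) ^ 2 : ℂ[X]).eval z = (w⁻¹ * z) ^ 2 := by
    intro z
    rw [eval_pow, eval_mul, eval_C, eval_X]
  have hbd : ∀ z : ℂ, ∀ c : ℝ, ‖z‖ ≤ c → ‖((C w⁻¹ * X) ^ 2 : ℂ[X]).eval z‖ ≤ c ^ 2 := by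
    intro z c hz
    rw [hev, norm_pow, norm_mul]
    have h1 : ‖w⁻¹‖ * ‖z‖ ≤ 1 * c := mul_le_mul hinv hz (norm_nonneg _) zero_le_one
    rw [one_mul] at h1
    exact pow_le_pow_left₀ (by positivity) h1 2
  refine ⟨(C w⁻¹ * X) ^ 2, ?_, ?_, ?_, ?_⟩
  · refine (natDegree_pow_le_of_le 2 ((natDegree_C_mul_le w⁻¹ X).trans natDegree_X_le)).trans ?_
    norm_num
  · rw [hev, inv_mul_cancel₀ hw0, one_pow]
  · intro z hz
    refine (hbd z _ (hQ z hz)).trans ?_
    norm_num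
  · intro z hz
    refine (hbd z _ hz).trans ?_
    norm_num

/-- vertical descent from height one to height `y` in level `K` coordinates, away from a set close
to the real axis -/
lemma descend (K : ℕ) {S : Set ℂ} (hS : ∀ s ∈ S, |s.im| ≤ 1 / 800) {x y σ : ℝ}
    (hσ : σ = 1 ∨ σ = -1) (hy0 : 1 / 110 ≤ y) (hy1 : y ≤ 1)
    (hn : ∀ t : ℝ, y ≤ t → t ≤ 1 → ‖phi K (x + (σ * t : ℝ) * I)‖ ≤ 2) {m : ℕ}
    (h : G (phi K '' S) m (phi K (x + (σ : ℝ) * I))) :
    G (phi K '' S) (m + 30) (phi K (x + (σ * y : ℝ) * I)) := by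
  have hσ1 : |σ| = 1 := by
    rcases hσ with h | h <;> rw [h] <;> norm_num
  have him : ∀ t : ℝ, ((x : ℂ) + ((σ * t : ℝ) : ℂ) * I).im = σ * t := by
    intro t
    simp
  have ht1 : ∀ j : ℕ, max y ((85 / 100 : ℝ) ^ j) ≤ 1 := fun j =>
    max_le hy1 (pow_le_one₀ (by norm_num) (by norm_num))
  have ht0 : ∀ j : ℕ, y ≤ max y ((85 / 100 : ℝ) ^ j) := fun j => le_max_left _ _
  have hU : ∀ t : ℝ, 0 ≤ t → t ≤ 1 → ((x : ℂ) + ((σ * t : ℝ) : ℂ) * I) ∈ U := by
    intro t h0 h1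
    change |((x : ℂ) + ((σ * t : ℝ) : ℂ) * I).im| ≤ 1
    rw [him, abs_mul, hσ1, one_mul, abs_of_nonneg h0]
    exact h1
  have main : ∀ j : ℕ, G (phi K '' S) (m + j)
      (phi K (x + ((σ * max y ((85 / 100 : ℝ) ^ j) : ℝ) : ℂ) * I)) := by
    intro j
    induction j with
    | zero =>
      rw [pow_zero, max_eq_right hy1, mul_one]
      exact h
    | succ j ih =>
      obtain ⟨t, ht⟩ : ∃ t, t = max y ((85 / 100 : ℝ) ^ j) := ⟨_, rfl⟩
      obtain ⟨t', ht'⟩ : ∃ t', t' = max y ((85 / 100 : ℝ) ^ (j + 1)) := ⟨_, rfl⟩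
      have a1 := ht1 j
      have a2 := ht0 j
      have b1 := ht1 (j + 1)
      have b2 := ht0 (j + 1)
      rw [← ht] at ih a1 a2
      rw [← ht'] at b1 b2 ⊢
      have hle : 85 / 100 * t ≤ t' := by
        rw [ht, ht']
        rcases le_total y ((85 / 100 : ℝ) ^ j) with h1 | h1
        · rw [max_eq_right h1]
          refine le_trans ?_ (le_max_right _ _)
          rw [pow_succ]
          linarith
        · rw [max_eq_left h1]
          refine le_trans ?_ (le_max_left _ _)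
          linarith
      have hle2 : t' ≤ t := by
        rw [ht, ht']
        refine max_le_max le_rfl ?_
        rw [pow_succ]
        have : (0:ℝ) ≤ (85 / 100 : ℝ) ^ j := by positivity
        linarith
      refine chain_step K (r := t - 1 / 800) ?_ (hU t (by linarith) a1) (hU t' (by linarith) b1)
        (by linarith) (by linarith) ?_ ?_ (hn t a2 a1) ih
      · intro s hs
        have := hS s hs
        change |s.im| ≤ 1
        linarith
      · intro s hs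
        have h1 := hS s hs
        refine le_trans ?_ (Complex.abs_im_le_norm _)
        rw [Complex.sub_im, him]
        have h2 : |σ * t| = t := by
          rw [abs_mul, hσ1, one_mul, abs_of_nonneg (by linarith)]
        have h3 : |σ * t| - |s.im| ≤ |s.im - σ * t| := by
          rw [abs_sub_comm]
          exact abs_sub_abs_le_abs_sub _ _
        linarith
      · have h1 : ((x : ℂ) + ((σ * t' : ℝ) : ℂ) * I) - ((x : ℂ) + ((σ * t : ℝ) : ℂ) * I) =
            ((σ * (t' - t) : ℝ) : ℂ) * I := by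
          push_cast
          ring
        rw [h1, norm_mul, Complex.norm_I, mul_one, Complex.norm_real, Real.norm_eq_abs, abs_mul,
          hσ1, one_mul, abs_of_nonpos (by linarith)]
        linarith
  have hfin := main 30
  have h85 : (85 / 100 : ℝ) ^ 30 ≤ y := by
    refine le_trans ?_ hy0
    norm_num
  rw [max_eq_left h85] at hfin
  exact hfin



end Esc405
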