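import Mathlib
import Pool.Agent.Esc405.M4

set_option autoImplicit false

namespace Esc405
open Complex Polynomial

-- TARGET: all of the following lemmas (T J = phi K '' (R^[J-K] '' Sig J))
private lemma aux_vert (x t t' : ℝ) : ‖(⟨x, t⟩ : ℂ) - ⟨x, t'⟩‖ = |t - t'| := by
  have e : (⟨x, t⟩ : ℂ) - ⟨x, t'⟩ = ((t - t' : ℝ) : ℂ) * I := by
    apply Complex.ext <;> simp
  rw [e, norm_mul, Complex.norm_I, mul_one, Complex.norm_real, Real.norm_eq_abs]

private lemma aux_seq (a q : ℝ) (ha : 0 < a) (ha1 : a ≤ 1) (hq0 : 0 < q) (hq1 : q ≤ 1) (j : ℕ) :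
    a ≤ max a (q ^ j) ∧ max a (q ^ j) ≤ 1 ∧ max a (q ^ (j + 1)) ≤ max a (q ^ j) ∧
      q * max a (q ^ j) ≤ max a (q ^ (j + 1)) := by
  have h1 : q ^ (j + 1) ≤ q ^ j := pow_le_pow_of_le_one hq0.le hq1 (Nat.le_succ j)
  refine ⟨le_max_left _ _, max_le ha1 (pow_le_one₀ hq0.le hq1), max_le_max le_rfl h1, ?_⟩
  rcases le_total a (q ^ j) with h | h
  · rw [max_eq_right h, ← pow_succ']
    exact le_max_right _ _
  · rw [max_eq_left h]
    exact le_trans (by nlinarith) (le_max_left _ _)

lemma Sig_subset (J : ℕ) : Sig J ⊆ U := by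
  rintro v ⟨_, _, h⟩
  show |v.im| ≤ 1
  linarith

lemma T_eq (J K : ℕ) (hK : K ≤ J) : T J = phi K '' (R^[J - K] '' Sig J) := by
  unfold T
  rw [Set.image_image]
  refine Set.image_congr fun v _ => ?_
  unfold phi
  rw [← Function.iterate_add_apply, Nat.add_sub_cancel' hK]

private lemma aux_norm (K : ℕ) {v : ℂ} (hv : v ∈ U) {B : ℝ} (hB : ‖v‖ ≤ B * 100 ^ K) :
    ‖phi K v‖ ≤ (B + 1 / 6336) / 16 := by
  have h1 := iter_close hv K
  have hp : (0 : ℝ) < 100 ^ K := by positivity
  have e : ‖v / 100 ^ K‖ = ‖v‖ / 100 ^ K := by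
    rw [norm_div, norm_pow]
    norm_num
  have h2 : ‖v / 100 ^ K‖ ≤ B := by
    rw [e, div_le_iff₀ hp]
    exact hB
  have h3 := norm_sub_norm_le (R^[K] v) (v / 100 ^ K)
  have e2 : ‖phi K v‖ = ‖R^[K] v‖ / 16 := by
    unfold phi
    rw [norm_div]
    norm_num
  rw [e2]
  have h4 : ‖R^[K] v‖ ≤ B + 1 / 6336 := by linarith
  linarith

lemma T_small (J : ℕ) {z : ℂ} (hz : z ∈ T J) : ‖z‖ ≤ 1 / 2 := by
  obtain ⟨v, hv, rfl⟩ := hz
  have hvU := Sig_subset J hv
  obtain ⟨h1, h2, h3⟩ := hv
  have hp : (1 : ℝ) ≤ 100 ^ J := one_le_pow₀ (by norm_num)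
  have hpi := Real.pi_lt_d2
  have hpi2 := Real.pi_gt_three
  have hre : |v.re| ≤ 2 * Real.pi * 100 ^ J := abs_le.mpr ⟨by nlinarith, h2⟩
  have hn : ‖v‖ ≤ (64 / 10) * 100 ^ J := by
    refine (Complex.norm_le_abs_re_add_abs_im v).trans ?_
    nlinarith
  refine (aux_norm J hvU hn).trans ?_
  norm_num

private lemma aux_low (v : ℂ) (hv : |v.im| ≤ 1 / 10) (m : ℕ) : |(R^[m + 1] v).im| ≤ 1 / 800 := by
  have hvU : v ∈ U := by
    show |v.im| ≤ 1
    linarith
  induction m with
  | zero =>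
    have h := R_im hvU
    rw [abs_le] at h hv ⊢
    show -(1 / 800) ≤ (R v).im ∧ (R v).im ≤ 1 / 800
    constructor <;> linarith [h.1, h.2, hv.1, hv.2]
  | succ m ih =>
    have h := R_im (iter_mem hvU (m + 1))
    rw [Function.iterate_succ_apply']
    rw [abs_le] at h ih ⊢
    constructor <;> linarith [h.1, h.2, ih.1, ih.2]

lemma low_im (J K : ℕ) (hK : K < J) {s : ℂ} (hs : s ∈ R^[J - K] '' Sig J) : |s.im| ≤ 1 / 800 := by
  obtain ⟨v, hv, rfl⟩ := hs
  obtain ⟨m, hm⟩ : ∃ m, J - K = m + 1 := ⟨J - K - 1, by omega⟩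
  rw [hm]
  exact aux_low v hv.2.2 m

/-- norm bound for the points used in level `K` -/
lemma phi_norm (K : ℕ) {v : ℂ} (hv : v ∈ U) (hre : |v.re| ≤ 8 * 100 ^ K + 1) : ‖phi K v‖ ≤ 2 := by
  have hp : (1 : ℝ) ≤ 100 ^ K := one_le_pow₀ (by norm_num)
  have him : |v.im| ≤ 1 := hv
  have hn : ‖v‖ ≤ 10 * 100 ^ K := by
    refine (Complex.norm_le_abs_re_add_abs_im v).trans ?_
    linarith
  refine (aux_norm K hv hn).trans ?_
  norm_num

/-- level zero: from height one (in z) down to height `1/16` -/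
lemma claim_zero (J : ℕ) (hJ : 1 ≤ J) {v : ℂ} (hv : |v.im| = 1) (hre : |v.re| ≤ 9) :
    G (T J) 30 (phi 0 v) := by
  have hT : ∀ z ∈ T J, |z.im| ≤ 1 / 12800 := by
    intro z hz
    rw [T_eq J 0 (Nat.zero_le _)] at hz
    obtain ⟨s, hs, rfl⟩ := hz
    have h1 := low_im J 0 (by omega) hs
    have e : (phi 0 s).im = s.im / 16 := by
      simp [phi]
    rw [e, abs_div, abs_of_pos (by norm_num : (0 : ℝ) < 16)]
    linarith
  have hvv : v.im ^ 2 = 1 := by
    rw [← sq_abs, hv]
    norm_num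
  have key : ∀ j : ℕ, G (T J) (1 + j) ⟨v.re / 16, v.im * max (1 / 16) ((17 / 20) ^ j)⟩ := by
    intro j
    induction j with
    | zero =>
      refine G_start (fun z hz => T_small J hz) ?_
      have h1 := Complex.abs_im_le_norm (⟨v.re / 16, v.im * max (1 / 16) ((17 / 20) ^ 0)⟩ : ℂ)
      refine le_trans ?_ h1
      show 1 ≤ |v.im * max (1 / 16) ((17 / 20) ^ 0)|
      rw [abs_mul, hv]
      norm_num
    | succ j ih =>
      obtain ⟨s1, s2, s3, s4⟩ := aux_seq (1 / 16) (17 / 20) (by norm_num) (by norm_num) (by norm_num) (by norm_num) j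
      set y := max (1 / 16 : ℝ) ((17 / 20) ^ j) with hy
      set y' := max (1 / 16 : ℝ) ((17 / 20) ^ (j + 1)) with hy'
      rw [← add_assoc]
      refine G_step (w₀ := ⟨v.re / 16, v.im * y⟩) (E := 9 / 10 * y) ?_ (by linarith) (by linarith) ?_ ?_ ih
      · refine (Complex.norm_le_abs_re_add_abs_im _).trans ?_
        show |v.re / 16| + |v.im * y| ≤ 2
        rw [abs_div, abs_of_pos (by norm_num : (0 : ℝ) < 16), abs_mul, hv, abs_of_nonneg (by linarith : 0 ≤ y)]
        linarith
      · intro z hz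
        refine le_trans ?_ (Complex.abs_im_le_norm _)
        show 9 / 10 * y ≤ |z.im - v.im * y|
        have h1 := hT z hz
        have h2 := abs_sub_abs_le_abs_sub (v.im * y) z.im
        rw [abs_mul, hv, abs_of_nonneg (by linarith : 0 ≤ y), abs_sub_comm] at h2
        linarith
      · rw [aux_vert, ← mul_sub, abs_mul, hv, one_mul, abs_sub_comm, abs_of_nonneg (by linarith)]
        linarith
  have h30 := key 29
  have e : (⟨v.re / 16, v.im * max (1 / 16) ((17 / 20) ^ 29)⟩ : ℂ) = phi 0 v := by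
    have h1 : max (1 / 16 : ℝ) ((17 / 20) ^ 29) = 1 / 16 := max_eq_left (by norm_num)
    rw [h1]
    apply Complex.ext
    · simp [phi]
    · simp [phi]
      ring
  rw [e] at h30
  exact h30

/-- the main induction over the levels `K < J` and the step into level `J` -/
lemma claim_level (J K : ℕ) (hJ : 1 ≤ J) (hK : K ≤ J) {v : ℂ} (hv : |v.im| = 1)
    (hre : |v.re| ≤ 8 * 100 ^ K + 1) : G (T J) (30 * K + 30) (phi K v) := by
  induction K generalizing v with
  | zero =>
    refine claim_zero J hJ hv ?_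
    norm_num at hre
    exact hre
  | succ K ih =>
    have hvU : v ∈ U := by
      show |v.im| ≤ 1
      exact hv.le
    have hp : (1 : ℝ) ≤ 100 ^ K := one_le_pow₀ (by norm_num)
    have h1 := R_im hvU
    have h2 : |100 * (R v).re - v.re| ≤ 1 / 64 := by
      have h3 := (Complex.abs_re_le_norm (100 * R v - v)).trans (R_close hvU)
      simpa using h3
    have hphi : phi (K + 1) v = phi K (R v) := by
      unfold phi
      rw [Function.iterate_succ_apply]
    rw [hphi]
    set u := R v with hu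
    have hure : |u.re| ≤ 8 * 100 ^ K + 1 := by
      rw [pow_succ] at hre
      rw [abs_le] at h2 hre ⊢
      constructor <;> linarith [h2.1, h2.2, hre.1, hre.2]
    have hvcase : v.im = 1 ∨ v.im = -1 := by
      rcases abs_eq (by norm_num : (0 : ℝ) ≤ 1) |>.1 hv with h | h
      · exact Or.inl h
      · exact Or.inr h
    have huim : 1 / 110 ≤ |u.im| ∧ |u.im| ≤ 1 ∧ v.im * |u.im| = u.im := by
      rw [abs_le] at h1
      rcases hvcase with h | h
      · rw [h] at h1 ⊢
        have hpos : 0 < u.im := by linarith [h1.1]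
        rw [abs_of_pos hpos]
        refine ⟨by linarith [h1.1], by linarith [h1.2], by ring⟩
      · rw [h] at h1 ⊢
        have hneg : u.im < 0 := by linarith [h1.2]
        rw [abs_of_neg hneg]
        refine ⟨by linarith [h1.2], by linarith [h1.1], by ring⟩
    have hIH := ih (by omega) (v := (u.re : ℂ) + (v.im : ℝ) * I) (by simp [hv]) (by simpa using hure)
    have hd := descend K (S := R^[J - K] '' Sig J) (fun s hs => low_im J K (by omega) hs)
      (x := u.re) (y := |u.im|) (σ := v.im) hvcase huim.1 huim.2.1 ?_ (m := 30 * K + 30) ?_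
    · have e : ((u.re : ℂ) + ((v.im * |u.im| : ℝ) : ℂ) * I) = u := by
        rw [huim.2.2]
        exact Complex.re_add_im u
      rw [e, ← T_eq J K (by omega)] at hd
      have e2 : 30 * (K + 1) + 30 = 30 * K + 30 + 30 := by ring
      rw [e2]
      exact hd
    · intro t ht1 ht2
      refine phi_norm K ?_ ?_
      · show |((u.re : ℂ) + ((v.im * t : ℝ) : ℂ) * I).im| ≤ 1
        have e : ((u.re : ℂ) + ((v.im * t : ℝ) : ℂ) * I).im = v.im * t := by simp
        rw [e, abs_mul, hv, one_mul, abs_of_nonneg (le_trans (abs_nonneg _) ht1)]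
        exact ht2
      · have e : ((u.re : ℂ) + ((v.im * t : ℝ) : ℂ) * I).re = u.re := by simp
        rw [e]
        exact hure
    · rw [← T_eq J K (by omega)]
      exact hIH

/-- all points of the boundary of the larger rectangle are good -/
lemma contour_good (J : ℕ) (hJ : 1 ≤ J) {v : ℂ} (hre1 : -2 ≤ v.re)
    (hre2 : v.re ≤ 2 * Real.pi * 100 ^ J + 1) (him : |v.im| ≤ 1 / 5)
    (hb : |v.im| = 1 / 5 ∨ v.re = -2 ∨ v.re = 2 * Real.pi * 100 ^ J + 1) :
    G (T J) (30 * J + 60) (phi J v) := by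
  have hp : (1 : ℝ) ≤ 100 ^ J := one_le_pow₀ (by norm_num)
  have hpi := Real.pi_lt_d2
  have hpi2 := Real.pi_gt_three
  have hvre : |v.re| ≤ 8 * 100 ^ J + 1 := abs_le.mpr ⟨by linarith, by nlinarith⟩
  by_cases hA : |v.im| = 1 / 5
  · have hσ : |5 * v.im| = 1 := by
      rw [abs_mul, hA]
      norm_num
    have key : ∀ j : ℕ, G (T J) (30 * J + 30 + j) (phi J ⟨v.re, 5 * v.im * max (1 / 5) ((9 / 10) ^ j)⟩) := by
      intro j
      induction j with
      | zero =>
        refine claim_level J J hJ le_rfl ?_ hvre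
        show |5 * v.im * max (1 / 5) ((9 / 10) ^ 0)| = 1
        rw [abs_mul, hσ]
        norm_num
      | succ j ih =>
        obtain ⟨s1, s2, s3, s4⟩ := aux_seq (1 / 5) (9 / 10) (by norm_num) (by norm_num) (by norm_num) (by norm_num) j
        obtain ⟨s1', s2', -, -⟩ := aux_seq (1 / 5) (9 / 10) (by norm_num) (by norm_num) (by norm_num) (by norm_num) (j + 1)
        set y := max (1 / 5 : ℝ) ((9 / 10) ^ j) with hy
        set y' := max (1 / 5 : ℝ) ((9 / 10) ^ (j + 1)) with hy'
        have hU : (⟨v.re, 5 * v.im * y⟩ : ℂ) ∈ U := by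
          show |5 * v.im * y| ≤ 1
          rw [abs_mul, hσ, one_mul, abs_of_nonneg (by linarith)]
          exact s2
        have hU' : (⟨v.re, 5 * v.im * y'⟩ : ℂ) ∈ U := by
          show |5 * v.im * y'| ≤ 1
          rw [abs_mul, hσ, one_mul, abs_of_nonneg (by linarith)]
          exact s2'
        rw [← add_assoc]
        refine chain_step J (S := Sig J) (Sig_subset J) hU hU' (r := y / 2) (by linarith) (by linarith) ?_ ?_
          (phi_norm J hU hvre) ih
        · intro s hs
          refine le_trans ?_ (Complex.abs_im_le_norm _)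
          show y / 2 ≤ |s.im - 5 * v.im * y|
          have h1 := hs.2.2
          have h2 := abs_sub_abs_le_abs_sub (5 * v.im * y) s.im
          rw [abs_mul, hσ, abs_of_nonneg (by linarith : 0 ≤ y), abs_sub_comm] at h2
          linarith
        · rw [aux_vert, ← mul_sub, abs_mul, hσ, one_mul, abs_sub_comm, abs_of_nonneg (by linarith)]
          linarith
    have h30 := key 30
    have e : (⟨v.re, 5 * v.im * max (1 / 5) ((9 / 10) ^ 30)⟩ : ℂ) = v := by
      have h1 : max (1 / 5 : ℝ) ((9 / 10) ^ 30) = 1 / 5 := max_eq_left (by norm_num)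
      rw [h1]
      apply Complex.ext
      · rfl
      · show 5 * v.im * (1 / 5) = v.im
        ring
    rw [e] at h30
    exact h30
  · have hB : v.re = -2 ∨ v.re = 2 * Real.pi * 100 ^ J + 1 := hb.resolve_left hA
    have hdist : ∀ (s : ℂ) (t : ℝ), s ∈ Sig J → 1 ≤ ‖s - ⟨v.re, t⟩‖ := by
      intro s t hs
      refine le_trans ?_ (Complex.abs_re_le_norm _)
      show 1 ≤ |s.re - v.re|
      rcases hB with h | h
      · rw [h]
        refine le_trans ?_ (le_abs_self _)
        linarith [hs.1]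
      · rw [h]
        refine le_trans ?_ (neg_le_abs _)
        linarith [hs.2.1]
    have him' := abs_le.1 him
    have hmem : ∀ j : ℕ, j ≤ 30 → |1 + (v.im - 1) * ((j : ℝ) / 30)| ≤ 1 := by
      intro j hj
      have hj' : ((j : ℝ) / 30) ≤ 1 := by
        rw [div_le_one (by norm_num)]
        exact_mod_cast hj
      have hj0 : 0 ≤ ((j : ℝ) / 30) := by positivity
      rw [abs_le]
      constructor <;> nlinarith [him'.1, him'.2]
    have key : ∀ j : ℕ, j ≤ 30 → G (T J) (30 * J + 30 + j) (phi J ⟨v.re, 1 + (v.im - 1) * ((j : ℝ) / 30)⟩) := by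
      intro j
      induction j with
      | zero =>
        intro _
        refine claim_level J J hJ le_rfl ?_ hvre
        show |1 + (v.im - 1) * (((0 : ℕ) : ℝ) / 30)| = 1
        simp
      | succ j ih =>
        intro hj
        have hU : (⟨v.re, 1 + (v.im - 1) * ((j : ℝ) / 30)⟩ : ℂ) ∈ U := hmem j (by omega)
        have hU' : (⟨v.re, 1 + (v.im - 1) * (((j + 1 : ℕ) : ℝ) / 30)⟩ : ℂ) ∈ U := hmem (j + 1) hj
        rw [← add_assoc]
        refine chain_step J (S := Sig J) (Sig_subset J) hU hU' (r := 1) (by norm_num) le_rfl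
          (fun s hs => hdist s _ hs) ?_ (phi_norm J hU hvre) (ih (by omega))
        rw [aux_vert]
        have e : 1 + (v.im - 1) * (((j + 1 : ℕ) : ℝ) / 30) - (1 + (v.im - 1) * ((j : ℝ) / 30)) = (v.im - 1) / 30 := by
          push_cast
          ring
        rw [e, abs_le]
        constructor <;> linarith [him'.1, him'.2]
    have h30 := key 30 le_rfl
    have e : (⟨v.re, 1 + (v.im - 1) * (((30 : ℕ) : ℝ) / 30)⟩ : ℂ) = v := by
      apply Complex.ext
      · rfl
      · show 1 + (v.im - 1) * (((30 : ℕ) : ℝ) / 30) = v.im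
        push_cast
        ring
    rw [e] at h30
    exact h30



end Esc405
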