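import Mathlib
import Pool.Agent.Esc405.M5
import Pool.Agent.Esc405.M10
import Pool.Agent.Esc405.M11
import Pool.Prelude.Def_F_75ec743f

set_option autoImplicit false

namespace Esc405
open Complex Polynomial MeasureTheory N3d24e4eb

-- TARGET: all of the following lemmas

lemma w443_hasDeriv (J : ℕ) (v : ℂ) : HasDerivAt (phi J) (D J v / 16) v :=
  (hasDerivAt_iter J v).div_const 16

lemma w443_diff (J : ℕ) : Differentiable ℂ (phi J) :=
  fun v => (w443_hasDeriv J v).differentiableAt

lemma w443_R0 : R 0 = 0 := by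
  unfold R
  simp

lemma w443_phi0 (J : ℕ) : phi J 0 = 0 := by
  unfold phi
  rw [Function.iterate_fixed w443_R0 J]
  simp

lemma w443_sig0 (J : ℕ) : (0 : ℂ) ∈ Sig J := by
  refine ⟨by simp, ?_, by simp⟩
  simp only [zero_re]
  have := Real.pi_pos
  positivity

lemma phi_open (J : ℕ) (O : Set ℂ) (hO : IsOpen O) (hOU : O ⊆ {v | |v.im| ≤ 1}) :
    IsOpen (phi J '' O) := by
  rw [isOpen_iff_mem_nhds]
  rintro _ ⟨v, hv, rfl⟩
  have hvU : v ∈ U := hOU hv
  have hne : D J v ≠ 0 := by
    intro h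
    have h1 := D_lower hvU J
    rw [h, norm_zero] at h1
    have h2 : (0 : ℝ) < (63 / 6400 : ℝ) ^ J := by positivity
    linarith
  have hs : HasStrictDerivAt (phi J) (deriv (phi J) v) v :=
    ((w443_diff J).contDiff (n := 1)).contDiffAt.hasStrictDerivAt one_ne_zero
  rw [(w443_hasDeriv J v).deriv] at hs
  have hm := hs.map_nhds_eq (div_ne_zero hne (by norm_num))
  rw [← hm]
  exact Filter.mem_map.2 (Filter.mem_of_superset (hO.mem_nhds hv) (Set.subset_preimage_image _ _))

lemma cross_dist (J i : ℕ) {v v' : ℂ} (hv : v.re = (i : ℝ) * (Real.pi / 4))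
    (hv' : v'.re = ((i + 1 : ℕ) : ℝ) * (Real.pi / 4)) (h1 : |v.im| ≤ 1 / 10) (h2 : |v'.im| ≤ 1 / 10) :
    1 / 25 * ‖D J (((i : ℝ) * (Real.pi / 4) : ℝ) : ℂ)‖ ≤ ‖phi J v' - phi J v‖ := by
  have hpi1 := Real.pi_gt_d2
  have hpi2 := Real.pi_lt_d2
  have hvU : v ∈ U := by
    show |v.im| ≤ 1
    linarith
  have hvU' : v' ∈ U := by
    show |v'.im| ≤ 1
    linarith
  have hxU : (((i : ℝ) * (Real.pi / 4) : ℝ) : ℂ) ∈ U := by
    show |(((i : ℝ) * (Real.pi / 4) : ℝ) : ℂ).im| ≤ 1
    rw [ofReal_im, abs_zero]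
    norm_num
  have hre : (v' - v).re = Real.pi / 4 := by
    rw [sub_re, hv, hv']
    push_cast
    ring
  have him : |(v' - v).im| ≤ 1 / 5 := by
    rw [sub_im]
    have := abs_sub v'.im v.im
    have h3 := abs_le.1 h1
    have h4 := abs_le.1 h2
    rw [abs_le]
    constructor <;> linarith
  have hlow : Real.pi / 4 ≤ ‖v' - v‖ := by
    have := abs_re_le_norm (v' - v)
    rw [hre, abs_of_pos (by linarith)] at this
    exact this
  have hup : ‖v' - v‖ ≤ 2 := by
    have := norm_le_abs_re_add_abs_im (v' - v)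
    rw [hre, abs_of_pos (by linarith : (0 : ℝ) < Real.pi / 4)] at this
    linarith
  have h5 := iter_near J hvU hvU' hup
  set x : ℂ := (((i : ℝ) * (Real.pi / 4) : ℝ) : ℂ) with hx
  have hvx : ‖v - x‖ ≤ 1 / 10 := by
    have e : v - x = ((v.im : ℝ) : ℂ) * I := by
      apply Complex.ext
      · rw [sub_re, hv, hx, ofReal_re]
        simp
      · rw [sub_im, hx, ofReal_im]
        simp
    rw [e, norm_mul, norm_I, mul_one, norm_real, Real.norm_eq_abs]
    exact h1
  have h6 := D_dist J hxU hvU (by linarith : ‖v - x‖ ≤ 2)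
  have hD0 : 0 ≤ ‖D J x‖ := norm_nonneg _
  have h7 : ‖D J v - D J x‖ ≤ 1 / 500 * ‖D J x‖ := by
    refine h6.trans ?_
    apply mul_le_mul_of_nonneg_right _ hD0
    linarith
  have h8 : ‖D J x‖ ≤ ‖D J v‖ + ‖D J v - D J x‖ := by
    have := norm_sub_norm_le (D J x) (D J v)
    rw [norm_sub_rev] at this
    linarith
  have h9 : ‖D J v * (v' - v)‖ ≤ ‖R^[J] v' - R^[J] v‖ + ‖R^[J] v' - R^[J] v - D J v * (v' - v)‖ := by
    have := norm_sub_norm_le (D J v * (v' - v)) (R^[J] v' - R^[J] v)
    rw [norm_sub_rev (D J v * (v' - v))] at this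
    linarith
  rw [norm_mul] at h9
  have h10 : 24 / 25 * (‖D J v‖ * ‖v' - v‖) ≤ ‖R^[J] v' - R^[J] v‖ := by linarith
  have h11 : 499 / 500 * ‖D J x‖ ≤ ‖D J v‖ := by linarith
  have h12 : ‖D J v‖ * (157 / 200) ≤ ‖D J v‖ * ‖v' - v‖ := by
    apply mul_le_mul_of_nonneg_left _ (norm_nonneg _)
    linarith
  have e : phi J v' - phi J v = (R^[J] v' - R^[J] v) / 16 := by
    unfold phi
    ring
  rw [e, norm_div]
  have h13 : ‖(16 : ℂ)‖ = 16 := by norm_num
  rw [h13]
  linarith

lemma escape_len (J : ℕ) (P f : ℂ[X])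
    (hP : ∀ v ∈ Sig J, ‖P.eval (phi J v) - exp (10 * Real.pi * v)‖ ≤ 1 / 8)
    (hf : ∀ z : ℂ, ‖z‖ ≤ 1 / 2 → ‖f.eval z‖ ≤ 1 → (P.eval 0).re - 1 / 8 ≤ (P.eval z).re) :
    ENNReal.ofReal (8 / 25 * Real.exp (J / 10 ^ 5)) ≤ shortestPathLength f := by
  have hpi1 := Real.pi_gt_d2
  have hpi0 := Real.pi_pos
  unfold shortestPathLength
  refine le_iInf fun z => le_iInf fun γ => le_iInf fun hz => le_iInf fun hγ => ?_
  show ENNReal.ofReal (8 / 25 * Real.exp (J / 10 ^ 5)) ≤ μH[1] (Set.range γ)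
  have hTin : ∀ v ∈ Sig J, ‖phi J v‖ ≤ 1 / 2 := fun v hv => T_small J ⟨v, hv, rfl⟩
  have hP0 : 7 / 8 ≤ (P.eval 0).re := by
    have h1 := hP 0 (w443_sig0 J)
    rw [w443_phi0, mul_zero, exp_zero] at h1
    have h2 := (abs_le.1 ((abs_re_le_norm _).trans h1)).1
    rw [sub_re, one_re] at h2
    linarith
  have key := tube_length (g := phi J) (hh0 := by norm_num) (w443_diff J).continuous (X := 2 * Real.pi * 100 ^ J)
    (h := 1 / 10) (by norm_num) (phi_open J)
    (by
      intro v hv v' hv' hvv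
      have hvs : v ∈ Sig J := hv
      have hvs' : v' ∈ Sig J := hv'
      refine iter_inj J (Sig_subset J hvs) (Sig_subset J hvs') ?_
      have h3 : R^[J] v / 16 = R^[J] v' / 16 := hvv
      have h4 := congrArg (fun t => t * 16) h3
      simpa using h4)
    (8 * 100 ^ J) (fun i => (i : ℝ) * (Real.pi / 4))
    (fun i => 1 / 25 * ‖D J (((i : ℝ) * (Real.pi / 4) : ℝ) : ℂ)‖)
    (by
      intro a b hab
      have : (a : ℝ) < b := by exact_mod_cast hab
      exact mul_lt_mul_of_pos_right this (by positivity))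
    (by simp)
    (by
      push_cast
      apply le_of_eq
      ring)
    (by
      intro i _ v v' h1 h2 h3 h4
      exact cross_dist J i h1 h2 h3 h4)
    (Γ := Set.range γ)
    (isPreconnected_range γ.continuous)
    (isCompact_range γ.continuous).measurableSet
    (by
      rw [w443_phi0]
      exact ⟨0, γ.source⟩)
    ⟨z, ⟨1, γ.target⟩, by
      intro hcon
      have h1 : z ∈ T J := hcon
      have h2 := T_small J h1
      rw [hz] at h2
      linarith⟩
    (by
      intro v h1 h2 h3 h4 h5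
      have hvs : v ∈ Sig J := ⟨h1, h2, h3⟩
      have h6 := hf _ (hTin v hvs) (hγ h5)
      have h7 := hP v hvs
      have h8 := (abs_le.1 ((abs_re_le_norm _).trans h7)).2
      rw [sub_re] at h8
      have h9 : 5 / 8 ≤ (exp (10 * Real.pi * v)).re := by linarith
      rcases h4 with h4 | h4
      · have e1 : (10 * (Real.pi : ℂ) * v).im = 10 * Real.pi * v.im := by
          have : (10 * (Real.pi : ℂ) * v) = ((10 * Real.pi : ℝ) : ℂ) * v := by push_cast; ring
          rw [this, im_ofReal_mul]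
        have e2 : Real.cos (10 * Real.pi * v.im) = -1 := by
          rcases (abs_eq (by norm_num : (0 : ℝ) ≤ 1 / 10)).1 h4 with h | h
          · rw [h, show 10 * Real.pi * (1 / 10) = Real.pi by ring, Real.cos_pi]
          · rw [h, show 10 * Real.pi * (-(1 / 10)) = -Real.pi by ring, Real.cos_neg, Real.cos_pi]
        rw [exp_re, e1, e2] at h9
        have := Real.exp_pos (10 * (Real.pi : ℂ) * v).re
        linarith
      · have e1 : (10 * (Real.pi : ℂ) * v).re = -(10 * Real.pi) := by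
          have : (10 * (Real.pi : ℂ) * v) = ((10 * Real.pi : ℝ) : ℂ) * v := by push_cast; ring
          rw [this, re_ofReal_mul, h4]
          ring
        have h10 := (re_le_norm (exp (10 * Real.pi * v)))
        rw [norm_exp, e1, Real.exp_neg] at h10
        have h11 : 1 + 10 * Real.pi ≤ Real.exp (10 * Real.pi) := by
          have := Real.add_one_le_exp (10 * Real.pi)
          linarith
        have h12 : (Real.exp (10 * Real.pi))⁻¹ ≤ 1 / 8 := by
          rw [inv_eq_one_div]
          apply one_div_le_one_div_of_le (by norm_num)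
          linarith
        linarith)
  refine le_trans ?_ key
  rw [← ENNReal.ofReal_sum_of_nonneg (fun i _ => by positivity)]
  apply ENNReal.ofReal_le_ofReal
  rw [← Finset.mul_sum]
  have := growth J
  linarith




end Esc405
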