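import Mathlib
import Pool.Agent.Esc405.Defs
import Pool.Prelude.Def_F_75ec743f

set_option autoImplicit false

namespace Esc405
open N3d24e4eb

-- TARGET
lemma final_power_thr (J : ℕ) :
    250 * 100 ^ J * 8 ^ (30 * J + 60) + 4 * (1000 * 100 ^ J * 11 ^ (30 * J + 60)) + 40 ≤
      (10 ^ 4 * 11 ^ 60) * (100 * 11 ^ 30) ^ J := by
  have h1 : 8 ^ (30 * J + 60) ≤ 11 ^ (30 * J + 60) := Nat.pow_le_pow_left (by norm_num) _
  have h2 : (10 ^ 4 * 11 ^ 60) * (100 * 11 ^ 30) ^ J = 10 ^ 4 * (100 ^ J * 11 ^ (30 * J + 60)) := by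
    rw [mul_pow, ← pow_mul, pow_add]
    ring
  rw [h2]
  have h3 : 250 * 100 ^ J * 8 ^ (30 * J + 60) ≤ 250 * (100 ^ J * 11 ^ (30 * J + 60)) := by
    rw [mul_assoc]
    exact Nat.mul_le_mul_left _ (Nat.mul_le_mul_left _ h1)
  have h4 : 1 ≤ 100 ^ J * 11 ^ (30 * J + 60) :=
    Nat.one_le_iff_ne_zero.2 (mul_ne_zero (pow_ne_zero _ (by norm_num)) (pow_ne_zero _ (by norm_num)))
  have h5 : 4 * (1000 * 100 ^ J * 11 ^ (30 * J + 60)) = 4000 * (100 ^ J * 11 ^ (30 * J + 60)) := by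
    ring
  rw [h5]
  generalize 100 ^ J * 11 ^ (30 * J + 60) = P at *
  have h6 : (10:ℕ) ^ 4 = 10000 := by norm_num
  rw [h6]
  omega

/-- Choice of the level `J` in terms of the degree. -/
lemma final_power
    (h : ∀ J n : ℕ, 1 ≤ J →
      250 * 100 ^ J * 8 ^ (30 * J + 60) + 4 * (1000 * 100 ^ J * 11 ^ (30 * J + 60)) + 40 ≤ n →
      ENNReal.ofReal (8 / 25 * Real.exp (J / 10 ^ 5)) ≤ worstCase n) :
    ∃ c : ℝ, 0 < c ∧ ∃ n₀ : ℕ, ∀ n : ℕ, n₀ ≤ n → ENNReal.ofReal ((n : ℝ) ^ c) ≤ worstCase n := by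
  have key : ∀ (A B : ℝ), 0 < A → 1 < B →
      (∀ J n : ℕ, 1 ≤ J → A * B ^ J ≤ (n : ℝ) →
        ENNReal.ofReal (8 / 25 * Real.exp (J / 10 ^ 5)) ≤ worstCase n) →
      ∃ c : ℝ, 0 < c ∧ ∃ n₀ : ℕ, ∀ n : ℕ, n₀ ≤ n →
        ENNReal.ofReal ((n : ℝ) ^ c) ≤ worstCase n := by
    intro A B hA hB hh
    have hlB : 0 < Real.log B := Real.log_pos hB
    set c : ℝ := 1 / (2 * 10 ^ 5 * Real.log B) with hc
    have hc0 : 0 < c := by positivity
    set K : ℝ := -Real.log (8 / 25) + (Real.log A / Real.log B + 1) / 10 ^ 5 with hK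
    obtain ⟨m, hm⟩ := exists_nat_ge (max (A * B) (Real.exp (K / c)))
    refine ⟨c, hc0, m, fun n hn => ?_⟩
    have hmn : (m : ℝ) ≤ n := by exact_mod_cast hn
    have h1 : A * B ≤ n := (le_max_left _ _).trans (hm.trans hmn)
    have h2 : Real.exp (K / c) ≤ n := (le_max_right _ _).trans (hm.trans hmn)
    have hn0 : (0 : ℝ) < n := (mul_pos hA (by linarith)).trans_le h1
    have h3 : K / c ≤ Real.log n := (Real.le_log_iff_exp_le hn0).2 h2
    have h4 : K ≤ Real.log n * c := (div_le_iff₀ hc0).1 h3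
    have hnA : 0 < (n : ℝ) / A := div_pos hn0 hA
    set J : ℕ := ⌊Real.log (n / A) / Real.log B⌋₊ with hJ
    have h5 : Real.log B ≤ Real.log (n / A) := by
      apply Real.log_le_log (by linarith)
      rw [le_div_iff₀ hA]
      linarith
    have h6 : 1 ≤ Real.log (n / A) / Real.log B := by
      rw [le_div_iff₀ hlB]
      linarith
    have hJ1 : 1 ≤ J := Nat.le_floor (by exact_mod_cast h6)
    have hJle : (J : ℝ) ≤ Real.log (n / A) / Real.log B := Nat.floor_le (by linarith)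
    have hJgt : Real.log (n / A) / Real.log B < J + 1 := Nat.lt_floor_add_one _
    have h7 : A * B ^ J ≤ n := by
      have h8 : (J : ℝ) * Real.log B ≤ Real.log (n / A) := (le_div_iff₀ hlB).1 hJle
      have h9 : Real.log (B ^ J) ≤ Real.log (n / A) := by
        rw [Real.log_pow]
        exact h8
      have h10 : B ^ J ≤ n / A := (Real.log_le_log_iff (by positivity) hnA).1 h9
      rw [le_div_iff₀ hA] at h10
      linarith
    refine le_trans (ENNReal.ofReal_le_ofReal ?_) (hh J n hJ1 h7)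
    rw [Real.rpow_def_of_pos hn0]
    have h11 : (8 / 25 : ℝ) = Real.exp (Real.log (8 / 25)) := (Real.exp_log (by norm_num)).symm
    rw [h11, ← Real.exp_add]
    apply Real.exp_le_exp.2
    have h12 : Real.log (n / A) = Real.log n - Real.log A := Real.log_div hn0.ne' hA.ne'
    rw [h12, sub_div] at hJgt
    have h13 : Real.log n / Real.log B / 10 ^ 5 = 2 * (Real.log n * c) := by
      rw [hc]
      field_simp
    have h14 : (Real.log n / Real.log B - Real.log A / Real.log B - 1) / 10 ^ 5 ≤ (J : ℝ) / 10 ^ 5 :=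
      div_le_div_of_nonneg_right (by linarith) (by norm_num)
    have h15 : (Real.log n / Real.log B - Real.log A / Real.log B - 1) / 10 ^ 5 =
        2 * (Real.log n * c) - (Real.log A / Real.log B + 1) / 10 ^ 5 := by
      rw [← h13]
      ring
    rw [h15] at h14
    linarith
  refine key (10 ^ 4 * 11 ^ 60) (100 * 11 ^ 30) (by positivity) (by norm_num) ?_
  intro J n hJ hle
  apply h J n hJ
  refine (final_power_thr J).trans ?_
  exact_mod_cast hle



end Esc405
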