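import Mathlib
import Pool.Agent.Esc405.Defs

set_option autoImplicit false

namespace Esc405
open Complex Polynomial

/-- the kernel polynomial attached to a good point -/
lemma kernel_poly {Q : Set ℂ} (hQ : ∀ z ∈ Q, ‖z‖ ≤ 1 / 2) {w : ℂ} (hw : ‖w‖ ≤ 2) {d : ℕ} {B : ℝ}
    (hB : 2 ≤ B) (h : Good Q w d B) {δ : ℝ} (hδ : 0 < δ) (hD : ∀ z ∈ Q, δ ≤ ‖w - z‖) (k : ℕ) :
    ∃ p : ℂ[X], p.natDegree ≤ k * d ∧ (∀ z : ℂ, ‖z‖ ≤ 3 → ‖p.eval z‖ ≤ 2 * B ^ k) ∧
      ∀ z ∈ Q, ‖1 / (w - z) - p.eval z‖ ≤ (1 / 4) ^ k / δ := by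
  obtain ⟨P, hPd, hPw, hPQ, hPB⟩ := h
  have hroot : (1 - P ^ k).IsRoot w := by
    simp [IsRoot, hPw]
  obtain ⟨q, hq⟩ := dvd_iff_isRoot.2 hroot
  have heval : ∀ z : ℂ, (w - z) * (-q).eval z = 1 - (P.eval z) ^ k := by
    intro z
    have := congrArg (fun r : ℂ[X] => r.eval z) hq
    simp only [eval_sub, eval_one, eval_pow, eval_mul, eval_X, eval_C] at this
    rw [this, eval_neg]
    ring
  have hB1 : (1 : ℝ) ≤ B ^ k := one_le_pow₀ (by linarith)
  refine ⟨-q, ?_, ?_, ?_⟩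
  · rw [natDegree_neg]
    by_cases hq0 : q = 0
    · rw [hq0]; simp
    · have h1 : (1 - P ^ k).natDegree = 1 + q.natDegree := by
        rw [hq, natDegree_mul (X_sub_C_ne_zero w) hq0, natDegree_X_sub_C]
      have h2 : (1 - P ^ k).natDegree ≤ k * d := by
        refine (natDegree_sub_le _ _).trans (max_le ?_ ?_)
        · simp
        · refine natDegree_pow_le.trans ?_
          exact Nat.mul_le_mul_left k hPd
      omega
  · have hfr : ∀ z ∈ frontier (Metric.ball (0 : ℂ) 3), ‖(-q).eval z‖ ≤ 2 * B ^ k := by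
      intro z hz
      rw [frontier_ball (0 : ℂ) (by norm_num), mem_sphere_zero_iff_norm] at hz
      have hwz : 1 ≤ ‖w - z‖ := by
        have := norm_sub_norm_le z w
        rw [norm_sub_rev w z]
        linarith
      have e1 : ‖w - z‖ * ‖(-q).eval z‖ ≤ 1 + B ^ k := by
        rw [← norm_mul, heval z]
        refine (norm_sub_le _ _).trans ?_
        rw [norm_one, norm_pow]
        have := pow_le_pow_left₀ (norm_nonneg _) (hPB z hz.le) k
        linarith
      have e2 : ‖(-q).eval z‖ ≤ ‖w - z‖ * ‖(-q).eval z‖ :=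
        le_mul_of_one_le_left (norm_nonneg _) hwz
      linarith
    intro z hz
    refine Complex.norm_le_of_forall_mem_frontier_norm_le Metric.isBounded_ball
      ((-q).differentiable.diffContOnCl) hfr ?_
    rw [closure_ball (0 : ℂ) (by norm_num), mem_closedBall_zero_iff]
    exact hz
  · intro z hz
    have hwz : 0 < ‖w - z‖ := lt_of_lt_of_le hδ (hD z hz)
    have hne : w - z ≠ 0 := norm_pos_iff.1 hwz
    have e1 : 1 / (w - z) - (-q).eval z = (P.eval z) ^ k / (w - z) := by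
      have := heval z
      rw [eq_div_iff hne, sub_mul, one_div, inv_mul_cancel₀ hne, mul_comm _ (w - z), this]
      ring
    rw [e1, norm_div, norm_pow]
    exact div_le_div₀ (by positivity) (pow_le_pow_left₀ (norm_nonneg _) (hPQ z hz) k) hδ (hD z hz)

lemma side_poly_riemann {Q : Set ℂ} {α β : ℝ} (hαβ : α ≤ β) (F : ℝ → ℂ → ℂ)
    (hcont : ∀ z ∈ Q, ContinuousOn (fun t => F t z) (Set.Icc α β))
    (hunif : ∀ ε : ℝ, 0 < ε → ∃ ρ : ℝ, 0 < ρ ∧ ∀ t ∈ Set.Icc α β, ∀ s ∈ Set.Icc α β,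
      |t - s| < ρ → ∀ z ∈ Q, ‖F t z - F s z‖ ≤ ε) {η : ℝ} (hη : 0 < η) :
    ∃ N : ℕ, 0 < N ∧ (∀ i < N, α + i * ((β - α) / N) ∈ Set.Icc α β) ∧
      ∀ z ∈ Q, ‖(∫ t in α..β, F t z) -
        ∑ i ∈ Finset.range N, (((β - α) / N : ℝ) : ℂ) * F (α + i * ((β - α) / N)) z‖ ≤ η := by
  have hβα : 0 ≤ β - α := by linarith
  obtain ⟨ρ, hρ, hρ'⟩ := hunif (η / (β - α + 1)) (by positivity)
  obtain ⟨N, hN⟩ := exists_nat_gt ((β - α) / ρ)
  have hN0 : 0 < N := by
    rcases Nat.eq_zero_or_pos N with h | h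
    · exfalso
      rw [h] at hN
      have : 0 ≤ (β - α) / ρ := by positivity
      simp at hN
      linarith
    · exact h
  have hNr : (0 : ℝ) < N := by exact_mod_cast hN0
  set hh : ℝ := (β - α) / N with hhd
  have hh0 : 0 ≤ hh := by positivity
  have hhρ : hh < ρ := by
    rw [hhd, div_lt_iff₀ hNr]
    rw [div_lt_iff₀ hρ] at hN
    linarith
  have hNh : (N : ℝ) * hh = β - α := by
    rw [hhd]; field_simp
  have hmem : ∀ i ≤ N, α + i * hh ∈ Set.Icc α β := by
    intro i hi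
    have hi' : (i : ℝ) ≤ N := by exact_mod_cast hi
    constructor
    · have : 0 ≤ (i : ℝ) * hh := by positivity
      linarith
    · have : (i : ℝ) * hh ≤ N * hh := mul_le_mul_of_nonneg_right hi' hh0
      linarith
  refine ⟨N, hN0, fun i hi => hmem i hi.le, fun z hz => ?_⟩
  set a : ℕ → ℝ := fun i => α + i * hh with ha
  have hstep : ∀ i, a (i + 1) - a i = hh := by
    intro i
    simp only [ha]
    push_cast
    ring
  have hsub : ∀ i < N, Set.uIcc (a i) (a (i + 1)) ⊆ Set.Icc α β := by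
    intro i hi
    have hle : a i ≤ a (i + 1) := by have := hstep i; linarith
    rw [Set.uIcc_of_le hle]
    exact Set.Icc_subset_Icc (hmem i hi.le).1 (hmem (i + 1) hi).2
  have hint : ∀ i < N, IntervalIntegrable (fun t => F t z) MeasureTheory.volume (a i) (a (i + 1)) :=
    fun i hi => ((hcont z hz).mono (hsub i hi)).intervalIntegrable
  have hsum := intervalIntegral.sum_integral_adjacent_intervals hint
  have ha0 : a 0 = α := by simp [ha]
  have haN : a N = β := by simp only [ha]; linarith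
  rw [ha0, haN] at hsum
  rw [← hsum, ← Finset.sum_sub_distrib]
  have hterm : ∀ i ∈ Finset.range N, ‖(∫ t in a i..a (i + 1), F t z) - (hh : ℂ) * F (a i) z‖ ≤
      η / (β - α + 1) * hh := by
    intro i hi
    rw [Finset.mem_range] at hi
    have e1 : (hh : ℂ) * F (a i) z = ∫ t in a i..a (i + 1), F (a i) z := by
      rw [intervalIntegral.integral_const, hstep i]
      rfl
    rw [e1, ← intervalIntegral.integral_sub (hint i hi) intervalIntegrable_const]
    have hle : a i ≤ a (i + 1) := by have := hstep i; linarith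
    have e2 := intervalIntegral.norm_integral_le_of_norm_le_const (a := a i) (b := a (i + 1))
      (f := fun t => F t z - F (a i) z) (C := η / (β - α + 1)) (by
        intro t ht
        have ht' : t ∈ Set.uIcc (a i) (a (i + 1)) := Set.uIoc_subset_uIcc ht
        have ht2 := ht'
        rw [Set.uIcc_of_le hle] at ht2
        refine hρ' t (hsub i hi ht') (a i) (hmem i hi.le) ?_ z hz
        rw [abs_of_nonneg (by linarith [ht2.1])]
        have := hstep i
        linarith [ht2.2])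
    rw [hstep i, abs_of_nonneg hh0] at e2
    exact e2
  calc ‖∑ i ∈ Finset.range N, ((∫ t in a i..a (i + 1), F t z) - (hh : ℂ) * F (a i) z)‖
      ≤ ∑ i ∈ Finset.range N, η / (β - α + 1) * hh := norm_sum_le_of_le _ hterm
    _ = η / (β - α + 1) * (β - α) := by
        rw [Finset.sum_const, Finset.card_range, nsmul_eq_mul, ← hNh]
        ring
    _ ≤ η := by
        rw [div_mul_eq_mul_div, div_le_iff₀ (by linarith)]
        nlinarith

/-- polynomial approximation of a Cauchy type integral along a curve of good points -/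
lemma side_poly {Q : Set ℂ} (hQ : ∀ z ∈ Q, ‖z‖ ≤ 1 / 2) {α β : ℝ} (hαβ : α ≤ β)
    {ζ c : ℝ → ℂ} (hζ : ContinuousOn ζ (Set.Icc α β)) (hc : ContinuousOn c (Set.Icc α β))
    {M δ B : ℝ} {d : ℕ} (k : ℕ) (hM : ∀ t ∈ Set.Icc α β, ‖c t‖ ≤ M) (hδ : 0 < δ) (hB : 2 ≤ B)
    (hD : ∀ t ∈ Set.Icc α β, ∀ z ∈ Q, δ ≤ ‖ζ t - z‖) (hζ2 : ∀ t ∈ Set.Icc α β, ‖ζ t‖ ≤ 2)
    (hG : ∀ t ∈ Set.Icc α β, Good Q (ζ t) d B) {η : ℝ} (hη : 0 < η) :
    ∃ P : ℂ[X], P.natDegree ≤ k * d ∧
      (∀ z : ℂ, ‖z‖ ≤ 3 → ‖P.eval z‖ ≤ (β - α) * M * (2 * B ^ k)) ∧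
      ∀ z ∈ Q, ‖(∫ t in α..β, c t / (ζ t - z)) - P.eval z‖ ≤
        (β - α) * M * ((1 / 4) ^ k / δ) + η := by
  have hM0 : 0 ≤ M := (norm_nonneg _).trans (hM α ⟨le_refl _, hαβ⟩)
  have hβα : 0 ≤ β - α := by linarith
  have hne : ∀ t ∈ Set.Icc α β, ∀ z ∈ Q, ζ t - z ≠ 0 := fun t ht z hz =>
    norm_pos_iff.1 (lt_of_lt_of_le hδ (hD t ht z hz))
  -- uniform continuity
  have hunif : ∀ ε : ℝ, 0 < ε → ∃ ρ : ℝ, 0 < ρ ∧ ∀ t ∈ Set.Icc α β, ∀ s ∈ Set.Icc α β,
      |t - s| < ρ → ∀ z ∈ Q, ‖c t / (ζ t - z) - c s / (ζ s - z)‖ ≤ ε := by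
    intro ε hε
    have hcu := isCompact_Icc.uniformContinuousOn_of_continuous hc
    have hζu := isCompact_Icc.uniformContinuousOn_of_continuous hζ
    rw [Metric.uniformContinuousOn_iff] at hcu hζu
    obtain ⟨ρ1, hρ1, h1⟩ := hcu (ε * δ / 2) (by positivity)
    obtain ⟨ρ2, hρ2, h2⟩ := hζu (ε * δ ^ 2 / (2 * (M + 1))) (by positivity)
    refine ⟨min ρ1 ρ2, lt_min hρ1 hρ2, ?_⟩
    intro t ht s hs hts z hz
    have a1 := h1 t ht s hs (by rw [Real.dist_eq]; exact lt_of_lt_of_le hts (min_le_left _ _))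
    have a2 := h2 t ht s hs (by rw [Real.dist_eq]; exact lt_of_lt_of_le hts (min_le_right _ _))
    rw [dist_eq_norm] at a1 a2
    have n1 := hne t ht z hz
    have n2 := hne s hs z hz
    have b1 := hD t ht z hz
    have b2 := hD s hs z hz
    have e1 : c t / (ζ t - z) - c s / (ζ s - z) =
        (c t - c s) / (ζ t - z) + c s * (ζ s - ζ t) / ((ζ t - z) * (ζ s - z)) := by
      field_simp
      ring
    rw [e1]
    refine (norm_add_le _ _).trans ?_
    have c1 : ‖(c t - c s) / (ζ t - z)‖ ≤ ε / 2 := by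
      rw [norm_div, div_le_iff₀ (lt_of_lt_of_le hδ b1)]
      have : ε / 2 * δ ≤ ε / 2 * ‖ζ t - z‖ := mul_le_mul_of_nonneg_left b1 (by positivity)
      linarith
    have c2 : ‖c s * (ζ s - ζ t) / ((ζ t - z) * (ζ s - z))‖ ≤ ε / 2 := by
      rw [norm_div, norm_mul, norm_mul, div_le_iff₀ (mul_pos (lt_of_lt_of_le hδ b1)
        (lt_of_lt_of_le hδ b2))]
      have d1 : ‖c s‖ * ‖ζ s - ζ t‖ ≤ M * (ε * δ ^ 2 / (2 * (M + 1))) := by
        refine mul_le_mul (hM s hs) ?_ (norm_nonneg _) hM0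
        rw [norm_sub_rev]; exact a2.le
      have d2 : M * (ε * δ ^ 2 / (2 * (M + 1))) ≤ ε / 2 * δ ^ 2 := by
        rw [mul_div_assoc', div_le_iff₀ (by positivity)]
        nlinarith [mul_nonneg hε.le (sq_nonneg δ)]
      have d3 : ε / 2 * δ ^ 2 ≤ ε / 2 * (‖ζ t - z‖ * ‖ζ s - z‖) := by
        refine mul_le_mul_of_nonneg_left ?_ (by positivity)
        rw [sq]
        exact mul_le_mul b1 b2 hδ.le (norm_nonneg _)
      linarith
    linarith
  have hcont : ∀ z ∈ Q, ContinuousOn (fun t => c t / (ζ t - z)) (Set.Icc α β) := fun z hz =>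
    hc.div (hζ.sub continuousOn_const) (fun t ht => hne t ht z hz)
  obtain ⟨N, hN0, hmem, hR⟩ := side_poly_riemann hαβ (fun t z => c t / (ζ t - z)) hcont hunif hη
  have hNr : (0 : ℝ) < N := by exact_mod_cast hN0
  set hh : ℝ := (β - α) / N with hhd
  have hh0 : 0 ≤ hh := by positivity
  have hNh : (N : ℝ) * hh = β - α := by
    rw [hhd]; field_simp
  have hker : ∀ t : ℝ, ∃ p : ℂ[X], t ∈ Set.Icc α β → (p.natDegree ≤ k * d ∧
      (∀ z : ℂ, ‖z‖ ≤ 3 → ‖p.eval z‖ ≤ 2 * B ^ k) ∧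
      ∀ z ∈ Q, ‖1 / (ζ t - z) - p.eval z‖ ≤ (1 / 4) ^ k / δ) := by
    intro t
    by_cases ht : t ∈ Set.Icc α β
    · obtain ⟨p, hp⟩ := kernel_poly hQ (hζ2 t ht) hB (hG t ht) hδ (hD t ht) k
      exact ⟨p, fun _ => hp⟩
    · exact ⟨0, fun h => absurd h ht⟩
  choose p hp using hker
  refine ⟨∑ i ∈ Finset.range N, C ((hh : ℂ) * c (α + i * hh)) * p (α + i * hh), ?_, ?_, ?_⟩
  · refine natDegree_sum_le_of_forall_le _ _ ?_
    intro i hi
    rw [Finset.mem_range] at hi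
    exact (natDegree_C_mul_le _ _).trans (hp _ (hmem i hi)).1
  · intro z hz
    rw [eval_finsetSum]
    have hterm : ∀ i ∈ Finset.range N,
        ‖(C ((hh : ℂ) * c (α + i * hh)) * p (α + i * hh)).eval z‖ ≤ hh * M * (2 * B ^ k) := by
      intro i hi
      rw [Finset.mem_range] at hi
      rw [eval_mul, eval_C, norm_mul, norm_mul, Complex.norm_real, Real.norm_eq_abs,
        abs_of_nonneg hh0]
      have f1 := hM _ (hmem i hi)
      have f2 := (hp _ (hmem i hi)).2.1 z hz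
      have f3 : (0 : ℝ) ≤ 2 * B ^ k := by positivity
      gcongr
    refine (norm_sum_le_of_le _ hterm).trans (le_of_eq ?_)
    rw [Finset.sum_const, Finset.card_range, nsmul_eq_mul, ← hNh]
    ring
  · intro z hz
    have g1 := hR z hz
    have g2 : ‖(∑ i ∈ Finset.range N, (hh : ℂ) * (c (α + i * hh) / (ζ (α + i * hh) - z))) -
        (∑ i ∈ Finset.range N, C ((hh : ℂ) * c (α + i * hh)) * p (α + i * hh)).eval z‖ ≤
        (β - α) * M * ((1 / 4) ^ k / δ) := by
      rw [eval_finsetSum, ← Finset.sum_sub_distrib]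
      have hterm : ∀ i ∈ Finset.range N,
          ‖(hh : ℂ) * (c (α + i * hh) / (ζ (α + i * hh) - z)) -
            (C ((hh : ℂ) * c (α + i * hh)) * p (α + i * hh)).eval z‖ ≤
            hh * M * ((1 / 4) ^ k / δ) := by
        intro i hi
        rw [Finset.mem_range] at hi
        have e2 : (hh : ℂ) * (c (α + i * hh) / (ζ (α + i * hh) - z)) -
            (C ((hh : ℂ) * c (α + i * hh)) * p (α + i * hh)).eval z =
            (hh : ℂ) * c (α + i * hh) * (1 / (ζ (α + i * hh) - z) - (p (α + i * hh)).eval z) := by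
          rw [eval_mul, eval_C]
          ring
        rw [e2, norm_mul, norm_mul, Complex.norm_real, Real.norm_eq_abs, abs_of_nonneg hh0]
        have f1 := hM _ (hmem i hi)
        have f2 := (hp _ (hmem i hi)).2.2 z hz
        have f3 : (0 : ℝ) ≤ (1 / 4) ^ k / δ := by positivity
        gcongr
      refine (norm_sum_le_of_le _ hterm).trans (le_of_eq ?_)
      rw [Finset.sum_const, Finset.card_range, nsmul_eq_mul, ← hNh]
      ring
    calc _ = ‖((∫ t in α..β, c t / (ζ t - z)) -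
          ∑ i ∈ Finset.range N, (hh : ℂ) * (c (α + i * hh) / (ζ (α + i * hh) - z))) +
          ((∑ i ∈ Finset.range N, (hh : ℂ) * (c (α + i * hh) / (ζ (α + i * hh) - z))) -
        (∑ i ∈ Finset.range N, C ((hh : ℂ) * c (α + i * hh)) * p (α + i * hh)).eval z)‖ := by
          congr 1
          ring
      _ ≤ _ := norm_add_le _ _
      _ ≤ η + (β - α) * M * ((1 / 4) ^ k / δ) := add_le_add g1 g2
      _ = _ := by ring



end Esc405
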