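import Mathlib
import Pool.Agent.Esc405.Defs

set_option autoImplicit false

namespace Esc405
open Complex Polynomial

-- TARGET: all of the following lemmas
/-- boundary integral of a rectangle (bottom - top + I right - I left) -/
noncomputable def rectInt (f : ℂ → ℂ) (x₀ x₁ y₀ y₁ : ℝ) : ℂ :=
  (∫ x in x₀..x₁, f (x + y₀ * I)) - (∫ x in x₀..x₁, f (x + y₁ * I)) +
    I * (∫ y in y₀..y₁, f (x₁ + y * I)) - I * (∫ y in y₀..y₁, f (x₀ + y * I))

lemma h400_hor {x₀ x₁ y : ℝ} {v₀ : ℂ} (hy : y ≠ v₀.im) :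
    ∫ x in x₀..x₁, 1 / (((x : ℂ) + y * I) - v₀) = log ((x₁ : ℂ) + y * I - v₀) - log ((x₀ : ℂ) + y * I - v₀) := by
  have hs : ∀ x : ℝ, (x : ℂ) + y * I - v₀ ∈ slitPlane := by
    intro x
    rw [mem_slitPlane_iff]
    right
    simp
    intro h
    apply hy
    linarith
  apply intervalIntegral.integral_eq_sub_of_hasDerivAt
  · intro x _
    have h1 : HasDerivAt (fun z : ℂ => log (z + y * I - v₀)) (1 / ((x : ℂ) + y * I - v₀)) (x : ℂ) :=
      (((hasDerivAt_id (x : ℂ)).add_const _).sub_const _).clog (hs x)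
    exact h1.comp_ofReal
  · apply Continuous.intervalIntegrable
    apply Continuous.div continuous_const (by fun_prop)
    intro x
    exact slitPlane_ne_zero (hs x)

lemma h400_ver {y₀ y₁ x : ℝ} {v₀ : ℂ} (s : ℂ) (hs1 : s = 1 ∨ s = -1)
    (hx : ∀ y : ℝ, s * ((x : ℂ) + y * I - v₀) ∈ slitPlane) :
    I * ∫ y in y₀..y₁, 1 / (((x : ℂ) + y * I) - v₀) =
      log (s * ((x : ℂ) + y₁ * I - v₀)) - log (s * ((x : ℂ) + y₀ * I - v₀)) := by
  have hs0 : s ≠ 0 := by rcases hs1 with h | h <;> rw [h] <;> norm_num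
  have hne : ∀ y : ℝ, (x : ℂ) + y * I - v₀ ≠ 0 := by
    intro y h
    have := slitPlane_ne_zero (hx y)
    rw [h, mul_zero] at this
    exact this rfl
  rw [← intervalIntegral.integral_const_mul]
  apply intervalIntegral.integral_eq_sub_of_hasDerivAt (f := fun y : ℝ => log (s * ((x : ℂ) + y * I - v₀)))
  · intro y _
    have h1 : HasDerivAt (fun z : ℂ => log (s * ((x : ℂ) + z * I - v₀))) ((s * (1 * I)) / (s * ((x : ℂ) + y * I - v₀))) (y : ℂ) :=
      (((((hasDerivAt_id (y : ℂ)).mul_const I).const_add _).sub_const _).const_mul s).clog (hx y)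
    have h2 := h1.comp_ofReal
    have e : (s * (1 * I)) / (s * ((x : ℂ) + y * I - v₀)) = I * (1 / ((x : ℂ) + y * I - v₀)) := by
      have := hne y
      field_simp
    rw [e] at h2
    exact h2
  · apply Continuous.intervalIntegrable
    apply Continuous.mul continuous_const
    apply Continuous.div continuous_const (by fun_prop)
    exact hne

lemma h400_logneg_pos {z : ℂ} (hz : 0 < z.im) : log (-z) = log z - Real.pi * I := by
  rw [log, log, arg_neg_eq_arg_sub_pi_of_im_pos hz, norm_neg]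
  push_cast
  ring

lemma h400_logneg_neg {z : ℂ} (hz : z.im < 0) : log (-z) = log z + Real.pi * I := by
  rw [log, log, arg_neg_eq_arg_add_pi_of_im_neg hz, norm_neg]
  push_cast
  ring

lemma rectInt_inv {x₀ x₁ y₀ y₁ : ℝ} {v₀ : ℂ} (h1 : x₀ < v₀.re) (h2 : v₀.re < x₁) (h3 : y₀ < v₀.im)
    (h4 : v₀.im < y₁) : rectInt (fun v => 1 / (v - v₀)) x₀ x₁ y₀ y₁ = 2 * Real.pi * I := by
  unfold rectInt
  rw [h400_hor h3.ne, h400_hor h4.ne', h400_ver (x := x₁) 1 (Or.inl rfl) (by
    intro y
    rw [mem_slitPlane_iff]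
    left
    simp
    linarith), h400_ver (x := x₀) (-1) (Or.inr rfl) (by
    intro y
    rw [mem_slitPlane_iff]
    left
    simp
    linarith)]
  simp only [one_mul, neg_one_mul]
  rw [h400_logneg_pos (z := (x₀ : ℂ) + y₁ * I - v₀) (by simp; linarith),
    h400_logneg_neg (z := (x₀ : ℂ) + y₀ * I - v₀) (by simp; linarith)]
  ring

lemma h400_congr {x₀ x₁ y₀ y₁ : ℝ} {v₀ : ℂ} (h1 : x₀ < v₀.re) (h2 : v₀.re < x₁) (h3 : y₀ < v₀.im)
    (h4 : v₀.im < y₁) {f g : ℂ → ℂ}
    (h : ∀ v : ℂ, x₀ ≤ v.re → v.re ≤ x₁ → y₀ ≤ v.im → v.im ≤ y₁ → v ≠ v₀ → f v = g v) :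
    rectInt f x₀ x₁ y₀ y₁ = rectInt g x₀ x₁ y₀ y₁ := by
  have hx : x₀ ≤ x₁ := by linarith
  have hy : y₀ ≤ y₁ := by linarith
  unfold rectInt
  congr 1
  · congr 1
    · congr 1
      · apply intervalIntegral.integral_congr
        intro x hx'
        rw [Set.uIcc_of_le hx] at hx'
        apply h
        · simpa using hx'.1
        · simpa using hx'.2
        · simp
        · simpa using hy
        · rintro rfl
          simp at h3
      · apply intervalIntegral.integral_congr
        intro x hx'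
        rw [Set.uIcc_of_le hx] at hx'
        apply h
        · simpa using hx'.1
        · simpa using hx'.2
        · simpa using hy
        · simp
        · rintro rfl
          simp at h4
    · congr 1
      apply intervalIntegral.integral_congr
      intro y hy'
      rw [Set.uIcc_of_le hy] at hy'
      apply h
      · simpa using hx
      · simp
      · simpa using hy'.1
      · simpa using hy'.2
      · rintro rfl
        simp at h2
  · congr 1
    apply intervalIntegral.integral_congr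
    intro y hy'
    rw [Set.uIcc_of_le hy] at hy'
    apply h
    · simp
    · simpa using hx
    · simpa using hy'.1
    · simpa using hy'.2
    · rintro rfl
      simp at h1

lemma h400_add {x₀ x₁ y₀ y₁ : ℝ} {v₀ : ℂ} (h1 : x₀ < v₀.re) (h2 : v₀.re < x₁) (h3 : y₀ < v₀.im)
    (h4 : v₀.im < y₁) {f g : ℂ → ℂ}
    (hf : ∀ v : ℂ, x₀ ≤ v.re → v.re ≤ x₁ → y₀ ≤ v.im → v.im ≤ y₁ → v ≠ v₀ → ContinuousAt f v)
    (hg : ∀ v : ℂ, x₀ ≤ v.re → v.re ≤ x₁ → y₀ ≤ v.im → v.im ≤ y₁ → v ≠ v₀ → ContinuousAt g v) :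
    rectInt (fun v => f v + g v) x₀ x₁ y₀ y₁ = rectInt f x₀ x₁ y₀ y₁ + rectInt g x₀ x₁ y₀ y₁ := by
  have hx : x₀ ≤ x₁ := by linarith
  have hy : y₀ ≤ y₁ := by linarith
  have key : ∀ F : ℂ → ℂ, (∀ v : ℂ, x₀ ≤ v.re → v.re ≤ x₁ → y₀ ≤ v.im → v.im ≤ y₁ → v ≠ v₀ → ContinuousAt F v) →
      IntervalIntegrable (fun x : ℝ => F (x + y₀ * I)) MeasureTheory.volume x₀ x₁ ∧
      IntervalIntegrable (fun x : ℝ => F (x + y₁ * I)) MeasureTheory.volume x₀ x₁ ∧
      IntervalIntegrable (fun y : ℝ => F (x₁ + y * I)) MeasureTheory.volume y₀ y₁ ∧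
      IntervalIntegrable (fun y : ℝ => F (x₀ + y * I)) MeasureTheory.volume y₀ y₁ := by
    intro F hF
    refine ⟨?_, ?_, ?_, ?_⟩
    · apply ContinuousOn.intervalIntegrable
      intro x hx'
      rw [Set.uIcc_of_le hx] at hx'
      apply ContinuousAt.continuousWithinAt
      apply ContinuousAt.comp (f := fun x : ℝ => (x : ℂ) + y₀ * I) (g := F) _ (by fun_prop)
      apply hF
      · simpa using hx'.1
      · simpa using hx'.2
      · simp
      · simpa using hy
      · rintro rfl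
        simp at h3
    · apply ContinuousOn.intervalIntegrable
      intro x hx'
      rw [Set.uIcc_of_le hx] at hx'
      apply ContinuousAt.continuousWithinAt
      apply ContinuousAt.comp (f := fun x : ℝ => (x : ℂ) + y₁ * I) (g := F) _ (by fun_prop)
      apply hF
      · simpa using hx'.1
      · simpa using hx'.2
      · simpa using hy
      · simp
      · rintro rfl
        simp at h4
    · apply ContinuousOn.intervalIntegrable
      intro y hy'
      rw [Set.uIcc_of_le hy] at hy'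
      apply ContinuousAt.continuousWithinAt
      apply ContinuousAt.comp (f := fun y : ℝ => (x₁ : ℂ) + y * I) (g := F) _ (by fun_prop)
      apply hF
      · simpa using hx
      · simp
      · simpa using hy'.1
      · simpa using hy'.2
      · rintro rfl
        simp at h2
    · apply ContinuousOn.intervalIntegrable
      intro y hy'
      rw [Set.uIcc_of_le hy] at hy'
      apply ContinuousAt.continuousWithinAt
      apply ContinuousAt.comp (f := fun y : ℝ => (x₀ : ℂ) + y * I) (g := F) _ (by fun_prop)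
      apply hF
      · simp
      · simpa using hx
      · simpa using hy'.1
      · simpa using hy'.2
      · rintro rfl
        simp at h1
  obtain ⟨f1, f2, f3, f4⟩ := key f hf
  obtain ⟨g1, g2, g3, g4⟩ := key g hg
  unfold rectInt
  rw [intervalIntegral.integral_add f1 g1, intervalIntegral.integral_add f2 g2,
    intervalIntegral.integral_add f3 g3, intervalIntegral.integral_add f4 g4]
  ring

lemma h400_smul (c : ℂ) {x₀ x₁ y₀ y₁ : ℝ} (f : ℂ → ℂ) :
    rectInt (fun v => c * f v) x₀ x₁ y₀ y₁ = c * rectInt f x₀ x₁ y₀ y₁ := by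
  unfold rectInt
  simp only [intervalIntegral.integral_const_mul]
  ring

/-- Cauchy's formula for a rectangle -/
lemma rect_cauchy {x₀ x₁ y₀ y₁ : ℝ} {v₀ : ℂ} (h1 : x₀ < v₀.re) (h2 : v₀.re < x₁) (h3 : y₀ < v₀.im)
    (h4 : v₀.im < y₁) {Ψ : ℂ → ℂ}
    (hΨ : ∀ v : ℂ, x₀ ≤ v.re → v.re ≤ x₁ → y₀ ≤ v.im → v.im ≤ y₁ → DifferentiableAt ℂ Ψ v) :
    rectInt (fun v => Ψ v / (v - v₀)) x₀ x₁ y₀ y₁ = 2 * Real.pi * I * Ψ v₀ := by
  have hx : x₀ ≤ x₁ := by linarith
  have hy : y₀ ≤ y₁ := by linarith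
  have hcD : ∀ v : ℂ, x₀ ≤ v.re → v.re ≤ x₁ → y₀ ≤ v.im → v.im ≤ y₁ → ContinuousAt (dslope Ψ v₀) v := by
    intro v a b c d
    by_cases hv : v = v₀
    · rw [hv]
      exact continuousAt_dslope_same.mpr (hΨ v₀ h1.le h2.le h3.le h4.le)
    · exact (continuousAt_dslope_of_ne hv).mpr (hΨ v a b c d).continuousAt
  have hz : rectInt (dslope Ψ v₀) x₀ x₁ y₀ y₁ = 0 := by
    have h := Complex.integral_boundary_rect_eq_zero_of_differentiable_on_off_countable (dslope Ψ v₀)
      (x₀ + y₀ * I) (x₁ + y₁ * I) {v₀} (Set.countable_singleton _) (by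
        intro v hv
        apply ContinuousAt.continuousWithinAt
        simp only [mem_reProdIm, add_re, ofReal_re, mul_re, I_re, mul_zero, ofReal_im, I_im, mul_one, sub_self,
          add_zero, add_im, mul_im, zero_add, Set.uIcc_of_le hx, Set.uIcc_of_le hy] at hv
        exact hcD v hv.1.1 hv.1.2 hv.2.1 hv.2.2) (by
        rintro v ⟨hv, hv0⟩
        simp only [mem_reProdIm, add_re, ofReal_re, mul_re, I_re, mul_zero, ofReal_im, I_im, mul_one, sub_self,
          add_zero, add_im, mul_im, zero_add, min_eq_left hx, max_eq_right hx, min_eq_left hy, max_eq_right hy] at hv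
        exact (differentiableAt_dslope_of_ne hv0).mpr (hΨ v hv.1.1.le hv.1.2.le hv.2.1.le hv.2.2.le))
    simpa [rectInt] using h
  have he : rectInt (fun v => Ψ v / (v - v₀)) x₀ x₁ y₀ y₁ =
      rectInt (fun v => dslope Ψ v₀ v + Ψ v₀ * (1 / (v - v₀))) x₀ x₁ y₀ y₁ := by
    apply h400_congr h1 h2 h3 h4
    intro v _ _ _ _ hv
    rw [dslope_of_ne _ hv, slope_def_field]
    have : v - v₀ ≠ 0 := sub_ne_zero.mpr hv
    field_simp
    ring
  rw [he, h400_add h1 h2 h3 h4, hz, h400_smul, rectInt_inv h1 h2 h3 h4]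
  · ring
  · intro v a b c d _
    exact hcD v a b c d
  · intro v _ _ _ _ hv
    have : v - v₀ ≠ 0 := sub_ne_zero.mpr hv
    have h5 : ContinuousAt (fun v : ℂ => v - v₀) v := by fun_prop
    exact continuousAt_const.mul (continuousAt_const.div h5 this)
/-- Cauchy's formula pulled back by an injective map -/
lemma rect_cauchy_map {x₀ x₁ y₀ y₁ : ℝ} {v₀ : ℂ} (h1 : x₀ < v₀.re) (h2 : v₀.re < x₁)
    (h3 : y₀ < v₀.im) (h4 : v₀.im < y₁) {F g g' : ℂ → ℂ} (hF : Differentiable ℂ F)
    (hg : ∀ v : ℂ, HasDerivAt g (g' v) v)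
    (hinj : ∀ v : ℂ, x₀ ≤ v.re → v.re ≤ x₁ → y₀ ≤ v.im → v.im ≤ y₁ → g v = g v₀ → v = v₀)
    (h0 : g' v₀ ≠ 0) :
    rectInt (fun v => F v * g' v / (g v - g v₀)) x₀ x₁ y₀ y₁ = 2 * Real.pi * I * F v₀ := by
  have hgd : Differentiable ℂ g := fun v => (hg v).differentiableAt
  have hg' : g' = deriv g := funext (fun v => (hg v).deriv.symm)
  have hgd' : Differentiable ℂ g' := by
    rw [hg']
    have h := (hgd.differentiableOn (s := Set.univ)).deriv isOpen_univ
    exact differentiableOn_univ.mp h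
  have hds : Differentiable ℂ (dslope g v₀) := by
    have h := (Complex.differentiableOn_dslope (f := g) (c := v₀) (s := Set.univ) Filter.univ_mem).mpr
      hgd.differentiableOn
    exact differentiableOn_univ.mp h
  have hne : ∀ v : ℂ, x₀ ≤ v.re → v.re ≤ x₁ → y₀ ≤ v.im → v.im ≤ y₁ → dslope g v₀ v ≠ 0 := by
    intro v a b c d
    by_cases hv : v = v₀
    · rw [hv, dslope_same, (hg v₀).deriv]
      exact h0
    · rw [dslope_of_ne _ hv, slope_def_field]
      apply div_ne_zero
      · exact sub_ne_zero.mpr (fun h => hv (hinj v a b c d h))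
      · exact sub_ne_zero.mpr hv
  have h := rect_cauchy h1 h2 h3 h4 (Ψ := fun v => F v * g' v / dslope g v₀ v) (by
    intro v a b c d
    exact ((hF v).mul (hgd' v)).div (hds v) (hne v a b c d))
  have e1 : F v₀ * g' v₀ / dslope g v₀ v₀ = F v₀ := by
    rw [dslope_same, (hg v₀).deriv]
    field_simp
  simp only [e1] at h
  rw [← h]
  apply h400_congr h1 h2 h3 h4
  intro v a b c d hv
  have h5 : v - v₀ ≠ 0 := sub_ne_zero.mpr hv
  have h6 : g v - g v₀ ≠ 0 := sub_ne_zero.mpr (fun h => hv (hinj v a b c d h))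
  rw [dslope_of_ne _ hv, slope_def_field]
  field_simp



end Esc405
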