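import Mathlib
import Pool.Agent.Esc405.M5
import Pool.Agent.Esc405.M6
import Pool.Agent.Esc405.M7

set_option autoImplicit false

namespace Esc405
open Complex Polynomial

-- TARGET: all of the following lemmas
lemma contour_dist (J : ℕ) {v : ℂ} (hre1 : -2 ≤ v.re)
    (hre2 : v.re ≤ 2 * Real.pi * 100 ^ J + 1) (him : |v.im| ≤ 1 / 5)
    (hb : |v.im| = 1 / 5 ∨ v.re = -2 ∨ v.re = 2 * Real.pi * 100 ^ J + 1) {z : ℂ} (hz : z ∈ T J) :
    1 / 320 * (63 / 6400 : ℝ) ^ J ≤ ‖phi J v - z‖ := by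
  obtain ⟨v', hv', rfl⟩ := hz
  obtain ⟨h1, h2, h3⟩ := hv'
  have hvU : v ∈ U := by
    show |v.im| ≤ 1
    linarith
  have hv'U : v' ∈ U := Sig_subset J ⟨h1, h2, h3⟩
  have hX : 0 ≤ 2 * Real.pi * 100 ^ J := by positivity
  have hsep : (1 / 10 : ℝ) ≤ ‖v' - v‖ := by
    rcases hb with hb | hb | hb
    · have h4 := Complex.abs_im_le_norm (v' - v)
      rw [Complex.sub_im] at h4
      have h5 : |v.im| - |v'.im| ≤ |v'.im - v.im| := by
        rw [abs_sub_comm]; exact abs_sub_abs_le_abs_sub _ _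
      linarith
    · have h4 := Complex.abs_re_le_norm (v' - v)
      rw [Complex.sub_re, hb] at h4
      have h5 := le_abs_self (v'.re - (-2))
      linarith
    · have h4 := Complex.abs_re_le_norm (v' - v)
      rw [Complex.sub_re, hb] at h4
      have h5 := neg_abs_le (v'.re - (2 * Real.pi * 100 ^ J + 1))
      linarith
  have h6 := iter_sep J hvU hv'U (r := 1 / 10) (by norm_num) (by norm_num) hsep
  have h7 := D_lower hvU J
  have h8 : ‖phi J v - phi J v'‖ = ‖R^[J] v' - R^[J] v‖ / 16 := by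
    unfold phi
    rw [← sub_div, norm_div, norm_sub_rev]
    congr 1
    norm_num
  rw [h8]
  linarith
lemma num_Y833 (J : ℕ) (hJ : 1 ≤ J) (Y : ℝ) (hY : Y = (100 : ℝ) ^ J) : 100 ≤ Y := by
  rw [hY]
  calc (100 : ℝ) = 100 ^ 1 := by norm_num
    _ ≤ 100 ^ J := pow_le_pow_right₀ (by norm_num) hJ

lemma num_quarter833 (J : ℕ) (Y : ℝ) (hY : Y = (100 : ℝ) ^ J) :
    (1 / 4 : ℝ) ^ (250 * 100 ^ J) ≤ Real.exp (-(250 * Y)) := by
  have h1 : (1 / 4 : ℝ) ≤ Real.exp (-1) := by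
    rw [Real.exp_neg, one_div]
    apply inv_anti₀ (Real.exp_pos 1)
    have := Real.exp_one_lt_d9
    linarith
  calc (1 / 4 : ℝ) ^ (250 * 100 ^ J) ≤ Real.exp (-1) ^ (250 * 100 ^ J) :=
        pow_le_pow_left₀ (by norm_num) h1 _
    _ = Real.exp (-(250 * Y)) := by
        rw [← Real.exp_nat_mul]
        congr 1
        rw [hY]
        push_cast
        ring

lemma num_exp833 (Y : ℝ) (hY : 100 ≤ Y) :
    Real.exp (10 * Real.pi * (2 * Real.pi * Y + 1)) ≤ Real.exp (199 * Y) := by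
  apply Real.exp_le_exp.2
  have h1 := Real.pi_lt_d2
  have h2 := Real.pi_pos
  have h3 : Real.pi * Real.pi ≤ 3.15 * 3.15 := by
    apply mul_le_mul h1.le h1.le h2.le (by norm_num)
  have h4 : Real.pi * Real.pi * Y ≤ 3.15 * 3.15 * Y := by
    apply mul_le_mul_of_nonneg_right h3 (by linarith)
  nlinarith

lemma num_lin833 (Y : ℝ) (hY : 100 ≤ Y) : 2 * (2 * Real.pi * Y) + 7 ≤ 13 * Y := by
  have h1 := Real.pi_lt_d2
  have h2 : Real.pi * Y ≤ 3.15 * Y := mul_le_mul_of_nonneg_right h1.le (by linarith)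
  linarith

lemma numeric_a (J : ℕ) (hJ : 1 ≤ J) :
    (2 * (2 * Real.pi * 100 ^ J) + 7) * (Real.exp (10 * Real.pi * (2 * Real.pi * 100 ^ J + 1)) / 16) *
      ((1 / 4 : ℝ) ^ (250 * 100 ^ J) / (1 / 320 * (63 / 6400 : ℝ) ^ J)) ≤ 1 / 2 := by
  obtain ⟨Y, hY⟩ : ∃ Y : ℝ, Y = (100 : ℝ) ^ J := ⟨_, rfl⟩
  have hY100 : 100 ≤ Y := num_Y833 J hJ Y hY
  rw [← hY]
  have h1 := num_quarter833 J Y hY
  have h2 := num_exp833 Y hY100
  have h3 := num_lin833 Y hY100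
  have h4 : (6400 / 63 : ℝ) ^ J ≤ Y ^ 2 := by
    rw [hY, ← pow_mul, mul_comm J 2, pow_mul]
    apply pow_le_pow_left₀ (by norm_num)
    norm_num
  have h5 : ((1 / 4 : ℝ) ^ (250 * 100 ^ J) / (1 / 320 * (63 / 6400 : ℝ) ^ J))
      ≤ Real.exp (-(250 * Y)) * (320 * Y ^ 2) := by
    have h6 : ((1 / 4 : ℝ) ^ (250 * 100 ^ J) / (1 / 320 * (63 / 6400 : ℝ) ^ J))
        = (1 / 4 : ℝ) ^ (250 * 100 ^ J) * (320 * (6400 / 63 : ℝ) ^ J) := by
      rw [div_eq_mul_inv, mul_inv, ← inv_pow]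
      norm_num
    rw [h6]
    gcongr
  have hYe : Y ≤ Real.exp Y := by
    have := Real.add_one_le_exp Y
    linarith
  have hY0 : 0 < Y := by linarith
  calc (2 * (2 * Real.pi * Y) + 7) * (Real.exp (10 * Real.pi * (2 * Real.pi * Y + 1)) / 16) *
        ((1 / 4 : ℝ) ^ (250 * 100 ^ J) / (1 / 320 * (63 / 6400 : ℝ) ^ J))
      ≤ (13 * Y) * (Real.exp (199 * Y) / 16) * (Real.exp (-(250 * Y)) * (320 * Y ^ 2)) := by
        gcongr
    _ = 260 * (Y * Y * Y) * (Real.exp (199 * Y) * Real.exp (-(250 * Y))) := by ring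
    _ ≤ 260 * (Real.exp Y * Real.exp Y * Real.exp Y) *
        (Real.exp (199 * Y) * Real.exp (-(250 * Y))) := by gcongr
    _ = 260 * Real.exp (-(48 * Y)) := by
        rw [mul_assoc, ← Real.exp_add, ← Real.exp_add, ← Real.exp_add, ← Real.exp_add]
        congr 2
        ring
    _ ≤ 1 / 2 := by
        have h7 := Real.add_one_le_exp (48 * Y)
        rw [Real.exp_neg]
        have h8 : (Real.exp (48 * Y))⁻¹ ≤ (4801 : ℝ)⁻¹ := by
          apply inv_anti₀ (by norm_num)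
          linarith
        calc 260 * (Real.exp (48 * Y))⁻¹ ≤ 260 * (4801 : ℝ)⁻¹ := by gcongr
          _ ≤ 1 / 2 := by norm_num
lemma numeric_b (J : ℕ) (hJ : 1 ≤ J) :
    (2 * (2 * Real.pi * 100 ^ J) + 7) * (Real.exp (10 * Real.pi * (2 * Real.pi * 100 ^ J + 1)) / 16) *
      (2 * ((2 : ℝ) ^ (11 ^ (30 * J + 60))) ^ (250 * 100 ^ J)) ≤
      (2 : ℝ) ^ (1000 * 100 ^ J * 11 ^ (30 * J + 60)) := by
  obtain ⟨Y, hY⟩ : ∃ Y : ℝ, Y = (100 : ℝ) ^ J := ⟨_, rfl⟩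
  have hY100 : 100 ≤ Y := num_Y833 J hJ Y hY
  rw [← hY]
  have h2 := num_exp833 Y hY100
  have h3 := num_lin833 Y hY100
  have hY0 : 0 < Y := by linarith
  have hYe : Y ≤ Real.exp Y := by
    have := Real.add_one_le_exp Y
    linarith
  obtain ⟨m, hm⟩ : ∃ m : ℕ, m = 11 ^ (30 * J + 60) := ⟨_, rfl⟩
  have hm1 : 1 ≤ m := by rw [hm]; exact Nat.one_le_pow _ _ (by norm_num)
  obtain ⟨n, hn⟩ : ∃ n : ℕ, n = 250 * 100 ^ J := ⟨_, rfl⟩
  have hnY : (n : ℝ) = 250 * Y := by rw [hn, hY]; push_cast; ring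
  have he : 1000 * 100 ^ J * m = m * n + 3 * n * m := by rw [hn]; ring
  rw [← hm, ← hn, he, pow_add, ← pow_mul]
  have h8 : Real.exp (250 * Y) ≤ (2 : ℝ) ^ (3 * n * m) := by
    calc Real.exp (250 * Y) = Real.exp 1 ^ n := by
          rw [← Real.exp_nat_mul, hnY, mul_one]
      _ ≤ (8 : ℝ) ^ n := by
          apply pow_le_pow_left₀ (Real.exp_pos 1).le
          have := Real.exp_one_lt_d9
          linarith
      _ = (2 : ℝ) ^ (3 * n) := by
          rw [pow_mul]; norm_num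
      _ ≤ (2 : ℝ) ^ (3 * n * m) := by
          apply pow_le_pow_right₀ (by norm_num)
          exact Nat.le_mul_of_pos_right _ hm1
  have h9 : (2 : ℝ) ≤ Real.exp (50 * Y) := by
    have := Real.add_one_le_exp (50 * Y)
    linarith
  have hB : (0 : ℝ) < 2 ^ (m * n) := by positivity
  calc (2 * (2 * Real.pi * Y) + 7) * (Real.exp (10 * Real.pi * (2 * Real.pi * Y + 1)) / 16) *
        (2 * (2 : ℝ) ^ (m * n))
      ≤ (13 * Y) * (Real.exp (199 * Y) / 16) * (2 * (2 : ℝ) ^ (m * n)) := by gcongr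
    _ = 2 ^ (m * n) * (13 / 8 * Y * Real.exp (199 * Y)) := by ring
    _ ≤ 2 ^ (m * n) * (2 * Real.exp Y * Real.exp (199 * Y)) := by
        gcongr
        norm_num
    _ ≤ 2 ^ (m * n) * (Real.exp (50 * Y) * Real.exp Y * Real.exp (199 * Y)) := by gcongr
    _ = 2 ^ (m * n) * Real.exp (250 * Y) := by
        rw [← Real.exp_add, ← Real.exp_add]
        congr 2
        ring
    _ ≤ 2 ^ (m * n) * 2 ^ (3 * n * m) := by gcongr
lemma cont_R833 : Continuous R := by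
  unfold R
  fun_prop

lemma cont_R'833 : Continuous R' := by
  unfold R'
  fun_prop

lemma cont_D833 (J : ℕ) : Continuous (D J) := by
  unfold D
  apply continuous_finsetProd
  intro k _
  exact cont_R'833.comp (cont_R833.iterate k)

lemma cont_phi833 (J : ℕ) : Continuous (phi J) := by
  unfold phi
  exact (cont_R833.iterate J).div_const 16

lemma deg833 (κ : ℂ) (Pb Pt Pr Pl : ℂ[X]) (n : ℕ) (h1 : Pb.natDegree ≤ n) (h2 : Pt.natDegree ≤ n)
    (h3 : Pr.natDegree ≤ n) (h4 : Pl.natDegree ≤ n) :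
    (Polynomial.C κ * (Pb - Pt + Polynomial.C I * Pr - Polynomial.C I * Pl)).natDegree ≤ n := by
  have k1 : (Pb - Pt).natDegree ≤ n :=
    (Polynomial.natDegree_sub_le Pb Pt).trans (max_le h1 h2)
  have k2 : (Pb - Pt + Polynomial.C I * Pr).natDegree ≤ n :=
    (Polynomial.natDegree_add_le _ _).trans
      (max_le k1 ((Polynomial.natDegree_C_mul_le _ _).trans h3))
  have k3 : (Pb - Pt + Polynomial.C I * Pr - Polynomial.C I * Pl).natDegree ≤ n :=
    (Polynomial.natDegree_sub_le _ _).trans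
      (max_le k2 ((Polynomial.natDegree_C_mul_le _ _).trans h4))
  exact (Polynomial.natDegree_C_mul_le _ _).trans k3

lemma side833 (J : ℕ) (hJ : 1 ≤ J) (γ : ℝ → ℂ) (hγ : Continuous γ) (α β : ℝ) (hαβ : α ≤ β)
    (h : ∀ t ∈ Set.Icc α β, -2 ≤ (γ t).re ∧ (γ t).re ≤ 2 * Real.pi * 100 ^ J + 1 ∧
      |(γ t).im| ≤ 1 / 5 ∧ (|(γ t).im| = 1 / 5 ∨ (γ t).re = -2 ∨
        (γ t).re = 2 * Real.pi * 100 ^ J + 1)) :
    ∃ P : ℂ[X], P.natDegree ≤ 250 * 100 ^ J * 8 ^ (30 * J + 60) ∧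
      (∀ z : ℂ, ‖z‖ ≤ 3 → ‖P.eval z‖ ≤ (β - α) *
        (Real.exp (10 * Real.pi * (2 * Real.pi * 100 ^ J + 1)) / 16) *
        (2 * ((2 : ℝ) ^ (11 ^ (30 * J + 60))) ^ (250 * 100 ^ J))) ∧
      ∀ z ∈ T J, ‖(∫ t in α..β, (exp (10 * Real.pi * γ t) * (D J (γ t) / 16)) /
        (phi J (γ t) - z)) - P.eval z‖ ≤ (β - α) *
        (Real.exp (10 * Real.pi * (2 * Real.pi * 100 ^ J + 1)) / 16) *
        ((1 / 4 : ℝ) ^ (250 * 100 ^ J) / (1 / 320 * (63 / 6400 : ℝ) ^ J)) + 1 / 100 := by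
  have hpi := Real.pi_pos
  have hY : (1 : ℝ) ≤ 100 ^ J := one_le_pow₀ (by norm_num)
  have hU : ∀ t ∈ Set.Icc α β, γ t ∈ U := by
    intro t ht
    show |(γ t).im| ≤ 1
    linarith [(h t ht).2.2.1]
  apply side_poly (Q := T J) (fun z hz => T_small J hz) hαβ
    (ζ := fun t => phi J (γ t)) (c := fun t => exp (10 * Real.pi * γ t) * (D J (γ t) / 16))
    (δ := 1 / 320 * (63 / 6400 : ℝ) ^ J) (B := (2 : ℝ) ^ (11 ^ (30 * J + 60)))
    (d := 8 ^ (30 * J + 60)) (k := 250 * 100 ^ J)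
  case hζ => exact ((cont_phi833 J).comp hγ).continuousOn
  case hc =>
    have h1 : Continuous (fun t : ℝ => exp (10 * Real.pi * γ t)) :=
      Complex.continuous_exp.comp (continuous_const.mul hγ)
    exact (h1.mul (((cont_D833 J).comp hγ).div_const 16)).continuousOn
  case hM =>
    intro t ht
    obtain ⟨h1, h2, h3, h4⟩ := h t ht
    rw [norm_mul, norm_div, Complex.norm_exp]
    have h5 : (10 * (Real.pi : ℂ) * γ t).re = 10 * Real.pi * (γ t).re := by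
      have h6 : 10 * (Real.pi : ℂ) * γ t = ((10 * Real.pi : ℝ) : ℂ) * γ t := by push_cast; ring
      rw [h6, Complex.re_ofReal_mul]
    have h6 : ‖D J (γ t)‖ ≤ 1 := by
      refine (D_upper (hU t ht) J).trans ?_
      apply pow_le_one₀ (by norm_num) (by norm_num)
    have h7 : ‖(16 : ℂ)‖ = 16 := by norm_num
    rw [h5, h7]
    have h8 : Real.exp (10 * Real.pi * (γ t).re)
        ≤ Real.exp (10 * Real.pi * (2 * Real.pi * 100 ^ J + 1)) := by
      apply Real.exp_le_exp.2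
      apply mul_le_mul_of_nonneg_left h2 (by positivity)
    calc Real.exp (10 * Real.pi * (γ t).re) * (‖D J (γ t)‖ / 16)
        ≤ Real.exp (10 * Real.pi * (2 * Real.pi * 100 ^ J + 1)) * (1 / 16) := by gcongr
      _ = _ := by ring
  case hδ => positivity
  case hB =>
    calc (2 : ℝ) = 2 ^ 1 := by norm_num
      _ ≤ 2 ^ (11 ^ (30 * J + 60)) :=
        pow_le_pow_right₀ (by norm_num) (Nat.one_le_pow _ _ (by norm_num))
  case hD =>
    intro t ht z hz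
    obtain ⟨h1, h2, h3, h4⟩ := h t ht
    exact contour_dist J h1 h2 h3 h4 hz
  case hζ2 =>
    intro t ht
    obtain ⟨h1, h2, h3, h4⟩ := h t ht
    apply phi_norm J (hU t ht)
    have h5 : 2 * Real.pi * 100 ^ J ≤ 8 * 100 ^ J := by
      apply mul_le_mul_of_nonneg_right _ (by positivity)
      have := Real.pi_lt_d2
      linarith
    rw [abs_le]
    constructor <;> linarith
  case hG =>
    intro t ht
    obtain ⟨h1, h2, h3, h4⟩ := h t ht
    exact contour_good J hJ h1 h2 h3 h4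
  case hη => norm_num

lemma exists_P (J : ℕ) (hJ : 1 ≤ J) : ∃ P : ℂ[X],
    P.natDegree ≤ 250 * 100 ^ J * 8 ^ (30 * J + 60) ∧
    (∀ z : ℂ, ‖z‖ ≤ 3 → ‖P.eval z‖ ≤ (2 : ℝ) ^ (1000 * 100 ^ J * 11 ^ (30 * J + 60))) ∧
    ∀ v ∈ Sig J, ‖P.eval (phi J v) - exp (10 * Real.pi * v)‖ ≤ 1 / 8 := by
  have hpi := Real.pi_pos
  have hpi3 := Real.pi_gt_three
  obtain ⟨x₁, hx₁⟩ : ∃ x₁ : ℝ, x₁ = 2 * Real.pi * 100 ^ J + 1 := ⟨_, rfl⟩
  have hx₁0 : 1 ≤ x₁ := by
    rw [hx₁]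
    have : (0 : ℝ) ≤ 2 * Real.pi * 100 ^ J := by positivity
    linarith
  have hre : ∀ x y : ℝ, ((x : ℂ) + (y : ℂ) * I).re = x := by intro x y; simp
  have him : ∀ x y : ℝ, ((x : ℂ) + (y : ℂ) * I).im = y := by intro x y; simp
  obtain ⟨Pb, hb1, hb2, hb3⟩ := side833 J hJ (fun t => (t : ℂ) + ((-(1 / 5) : ℝ) : ℂ) * I)
    (by fun_prop) (-2) x₁ (by linarith) (by
      intro t ht
      rw [hre, him]
      refine ⟨ht.1, by rw [← hx₁]; exact ht.2, by rw [abs_neg, abs_of_pos] <;> norm_num,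
        Or.inl (by rw [abs_neg, abs_of_pos]; norm_num)⟩)
  obtain ⟨Pt, ht1, ht2, ht3⟩ := side833 J hJ (fun t => (t : ℂ) + ((1 / 5 : ℝ) : ℂ) * I)
    (by fun_prop) (-2) x₁ (by linarith) (by
      intro t ht
      rw [hre, him]
      refine ⟨ht.1, by rw [← hx₁]; exact ht.2, by rw [abs_of_pos] <;> norm_num,
        Or.inl (by rw [abs_of_pos]; norm_num)⟩)
  obtain ⟨Pr, hr1, hr2, hr3⟩ := side833 J hJ (fun t => (x₁ : ℂ) + (t : ℂ) * I)
    (by fun_prop) (-(1 / 5)) (1 / 5) (by norm_num) (by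
      intro t ht
      rw [hre, him]
      refine ⟨by linarith, by rw [← hx₁], abs_le.2 ht, Or.inr (Or.inr (by rw [← hx₁]))⟩)
  obtain ⟨Pl, hl1, hl2, hl3⟩ := side833 J hJ (fun t => ((-2 : ℝ) : ℂ) + (t : ℂ) * I)
    (by fun_prop) (-(1 / 5)) (1 / 5) (by norm_num) (by
      intro t ht
      rw [hre, him]
      refine ⟨le_refl _, by rw [← hx₁]; linarith, abs_le.2 ht, Or.inr (Or.inl rfl)⟩)
  have hna := numeric_a J hJ
  have hnb := numeric_b J hJ
  have hx₁' : 2 * Real.pi * 100 ^ J = x₁ - 1 := by rw [hx₁]; ring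
  rw [hx₁'] at hb2 hb3 ht2 ht3 hr2 hr3 hl2 hl3 hna hnb
  obtain ⟨M, hM⟩ : ∃ M : ℝ, M = Real.exp (10 * Real.pi * (x₁ - 1 + 1)) / 16 := ⟨_, rfl⟩
  obtain ⟨q, hq⟩ : ∃ q : ℝ, q = (1 / 4 : ℝ) ^ (250 * 100 ^ J) / (1 / 320 * (63 / 6400 : ℝ) ^ J) :=
    ⟨_, rfl⟩
  obtain ⟨b, hbd⟩ : ∃ b : ℝ, b = 2 * ((2 : ℝ) ^ (11 ^ (30 * J + 60))) ^ (250 * 100 ^ J) := ⟨_, rfl⟩
  rw [← hM, ← hbd] at hb2 ht2 hr2 hl2 hnb
  rw [← hM, ← hq] at hb3 ht3 hr3 hl3 hna
  have hM0 : 0 < M := by rw [hM]; positivity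
  have hq0 : 0 < q := by rw [hq]; positivity
  have hb0 : 0 < b := by rw [hbd]; positivity
  obtain ⟨κ, hκ⟩ : ∃ κ : ℂ, κ = (2 * Real.pi * I)⁻¹ := ⟨_, rfl⟩
  have hκn : ‖κ‖ = (2 * Real.pi)⁻¹ := by
    rw [hκ, norm_inv, norm_mul, norm_mul, Complex.norm_I, mul_one, Complex.norm_real,
      Real.norm_eq_abs, abs_of_pos hpi]
    norm_num
  have hκ6 : ‖κ‖ ≤ 1 / 6 := by
    rw [hκn, one_div]
    apply inv_anti₀ (by norm_num)
    linarith
  have hκ0 : 0 ≤ ‖κ‖ := norm_nonneg _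
  have hev : ∀ z : ℂ, (Polynomial.C κ * (Pb - Pt + Polynomial.C I * Pr - Polynomial.C I * Pl)).eval z
      = κ * (Pb.eval z - Pt.eval z + I * Pr.eval z - I * Pl.eval z) := by
    intro z
    simp only [Polynomial.eval_mul, Polynomial.eval_C, Polynomial.eval_sub, Polynomial.eval_add]
  refine ⟨Polynomial.C κ * (Pb - Pt + Polynomial.C I * Pr - Polynomial.C I * Pl), ?_, ?_, ?_⟩
  · exact deg833 κ Pb Pt Pr Pl _ hb1 ht1 hr1 hl1
  · intro z hz
    rw [hev, norm_mul]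
    have k1 := hb2 z hz
    have k2 := ht2 z hz
    have k3 := hr2 z hz
    have k4 := hl2 z hz
    have k5 : ‖Pb.eval z - Pt.eval z + I * Pr.eval z - I * Pl.eval z‖
        ≤ ‖Pb.eval z‖ + ‖Pt.eval z‖ + ‖Pr.eval z‖ + ‖Pl.eval z‖ := by
      have e1 := norm_sub_le (Pb.eval z - Pt.eval z + I * Pr.eval z) (I * Pl.eval z)
      have e2 := norm_add_le (Pb.eval z - Pt.eval z) (I * Pr.eval z)
      have e3 := norm_sub_le (Pb.eval z) (Pt.eval z)
      rw [norm_mul, Complex.norm_I, one_mul] at e1 e2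
      linarith
    have hMb : 0 < M * b := mul_pos hM0 hb0
    have k6 : ‖Pb.eval z - Pt.eval z + I * Pr.eval z - I * Pl.eval z‖
        ≤ (2 * (x₁ - 1) + 7) * M * b := by
      refine k5.trans ?_
      have m1 : (x₁ - -2) * M * b = x₁ * (M * b) + 2 * (M * b) := by ring
      have m2 : (1 / 5 - -(1 / 5)) * M * b = 2 / 5 * (M * b) := by ring
      have m3 : (2 * (x₁ - 1) + 7) * M * b = 2 * (x₁ * (M * b)) + 5 * (M * b) := by ring
      rw [m1] at k1 k2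
      rw [m2] at k3 k4
      rw [m3]
      linarith
    have k7 : 0 ≤ (2 * (x₁ - 1) + 7) * M * b := (norm_nonneg _).trans k6
    calc ‖κ‖ * ‖Pb.eval z - Pt.eval z + I * Pr.eval z - I * Pl.eval z‖
        ≤ 1 * ((2 * (x₁ - 1) + 7) * M * b) := by
          apply mul_le_mul (by linarith) k6 (norm_nonneg _) (by norm_num)
      _ ≤ _ := by rw [one_mul]; exact hnb
  · intro v hv
    have hz : phi J v ∈ T J := ⟨v, hv, rfl⟩
    have hvU : v ∈ U := Sig_subset J hv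
    obtain ⟨hv1, hv2, hv3⟩ := hv
    obtain ⟨hv4, hv5⟩ := abs_le.1 hv3
    have hrc := rect_cauchy_map (x₀ := -2) (x₁ := x₁) (y₀ := -(1 / 5)) (y₁ := 1 / 5) (v₀ := v)
      (by linarith) (by linarith) (by linarith) (by linarith)
      (F := fun w => exp (10 * Real.pi * w)) (g := phi J) (g' := fun w => D J w / 16)
      (by fun_prop) (fun w => (hasDerivAt_iter J w).div_const 16)
      (by
        intro w _ _ hw1 hw2 hw
        have hwU : w ∈ U := by
          show |w.im| ≤ 1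
          rw [abs_le]
          constructor <;> linarith
        apply iter_inj J hwU hvU
        have h1 : R^[J] w / 16 = R^[J] v / 16 := hw
        have h2 := congrArg (fun z : ℂ => z * 16) h1
        simpa using h2)
      (by
        have h1 := D_lower hvU J
        have h2 : (0 : ℝ) < (63 / 6400) ^ J := by positivity
        have h3 : D J v ≠ 0 := by
          rw [← norm_pos_iff]
          linarith
        exact div_ne_zero h3 (by norm_num))
    have e1 := hb3 _ hz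
    have e2 := ht3 _ hz
    have e3 := hr3 _ hz
    have e4 := hl3 _ hz
    unfold rectInt at hrc
    obtain ⟨Ib, hIb⟩ : ∃ Ib : ℂ, Ib = ∫ t in (-2)..x₁,
      (exp (10 * Real.pi * ((t : ℂ) + ((-(1 / 5) : ℝ) : ℂ) * I)) *
        (D J ((t : ℂ) + ((-(1 / 5) : ℝ) : ℂ) * I) / 16)) /
        (phi J ((t : ℂ) + ((-(1 / 5) : ℝ) : ℂ) * I) - phi J v) := ⟨_, rfl⟩
    obtain ⟨It, hIt⟩ : ∃ It : ℂ, It = ∫ t in (-2)..x₁,
      (exp (10 * Real.pi * ((t : ℂ) + ((1 / 5 : ℝ) : ℂ) * I)) *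
        (D J ((t : ℂ) + ((1 / 5 : ℝ) : ℂ) * I) / 16)) /
        (phi J ((t : ℂ) + ((1 / 5 : ℝ) : ℂ) * I) - phi J v) := ⟨_, rfl⟩
    obtain ⟨Ir, hIr⟩ : ∃ Ir : ℂ, Ir = ∫ t in (-(1 / 5) : ℝ)..(1 / 5),
      (exp (10 * Real.pi * ((x₁ : ℂ) + (t : ℂ) * I)) *
        (D J ((x₁ : ℂ) + (t : ℂ) * I) / 16)) /
        (phi J ((x₁ : ℂ) + (t : ℂ) * I) - phi J v) := ⟨_, rfl⟩
    obtain ⟨Il, hIl⟩ : ∃ Il : ℂ, Il = ∫ t in (-(1 / 5) : ℝ)..(1 / 5),
      (exp (10 * Real.pi * (((-2 : ℝ) : ℂ) + (t : ℂ) * I)) *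
        (D J (((-2 : ℝ) : ℂ) + (t : ℂ) * I) / 16)) /
        (phi J (((-2 : ℝ) : ℂ) + (t : ℂ) * I) - phi J v) := ⟨_, rfl⟩
    have hrc' : Ib - It + I * Ir - I * Il = 2 * Real.pi * I * exp (10 * Real.pi * v) := by
      rw [hIb, hIt, hIr, hIl]
      exact hrc
    rw [← hIb] at e1
    rw [← hIt] at e2
    rw [← hIr] at e3
    rw [← hIl] at e4
    have h2pi : (2 * (Real.pi : ℂ) * I) ≠ 0 := by
      have : (Real.pi : ℂ) ≠ 0 := by exact_mod_cast hpi.ne'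
      simp [this]
    have hF : exp (10 * Real.pi * v) = κ * (Ib - It + I * Ir - I * Il) := by
      rw [hrc', hκ, ← mul_assoc, inv_mul_cancel₀ h2pi, one_mul]
    rw [hev, hF, ← mul_sub, norm_mul]
    have k5 : ‖(Pb.eval (phi J v) - Pt.eval (phi J v) + I * Pr.eval (phi J v)
          - I * Pl.eval (phi J v)) - (Ib - It + I * Ir - I * Il)‖
        ≤ ‖Ib - Pb.eval (phi J v)‖ + ‖It - Pt.eval (phi J v)‖ + ‖Ir - Pr.eval (phi J v)‖
          + ‖Il - Pl.eval (phi J v)‖ := by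
      have e0 : (Pb.eval (phi J v) - Pt.eval (phi J v) + I * Pr.eval (phi J v)
          - I * Pl.eval (phi J v)) - (Ib - It + I * Ir - I * Il)
          = (It - Pt.eval (phi J v)) - (Ib - Pb.eval (phi J v))
            - I * (Ir - Pr.eval (phi J v)) + I * (Il - Pl.eval (phi J v)) := by ring
      rw [e0]
      have f1 := norm_add_le ((It - Pt.eval (phi J v)) - (Ib - Pb.eval (phi J v))
            - I * (Ir - Pr.eval (phi J v))) (I * (Il - Pl.eval (phi J v)))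
      have f2 := norm_sub_le ((It - Pt.eval (phi J v)) - (Ib - Pb.eval (phi J v)))
        (I * (Ir - Pr.eval (phi J v)))
      have f3 := norm_sub_le (It - Pt.eval (phi J v)) (Ib - Pb.eval (phi J v))
      rw [norm_mul, Complex.norm_I, one_mul] at f1 f2
      linarith
    have hMq : 0 < M * q := mul_pos hM0 hq0
    have k6 : ‖(Pb.eval (phi J v) - Pt.eval (phi J v) + I * Pr.eval (phi J v)
          - I * Pl.eval (phi J v)) - (Ib - It + I * Ir - I * Il)‖ ≤ 1 / 2 + 4 / 100 := by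
      refine k5.trans ?_
      have m1 : (x₁ - -2) * M * q = x₁ * (M * q) + 2 * (M * q) := by ring
      have m2 : (1 / 5 - -(1 / 5)) * M * q = 2 / 5 * (M * q) := by ring
      have m3 : (2 * (x₁ - 1) + 7) * M * q = 2 * (x₁ * (M * q)) + 5 * (M * q) := by ring
      rw [m1] at e1 e2
      rw [m2] at e3 e4
      rw [m3] at hna
      linarith
    calc ‖κ‖ * ‖(Pb.eval (phi J v) - Pt.eval (phi J v) + I * Pr.eval (phi J v)
          - I * Pl.eval (phi J v)) - (Ib - It + I * Ir - I * Il)‖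
        ≤ 1 / 6 * (1 / 2 + 4 / 100) := by
          apply mul_le_mul hκ6 k6 (norm_nonneg _) (by norm_num)
      _ ≤ 1 / 8 := by norm_num



end Esc405
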