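import Mathlib
import Pool.Agent.Esc405.Base
import Pool.Prelude.Def_F_75ec743f

set_option autoImplicit false

namespace Esc405
open Complex Polynomial N3d24e4eb

-- TARGET
/-- From a polynomial to an admissible one whose sublevel set lies where `Re P` is not small. -/
lemma of_poly (P : ℂ[X]) (d s n : ℕ) (hdeg : P.natDegree ≤ d)
    (hB : ∀ z : ℂ, ‖z‖ ≤ 1 → ‖P.eval z‖ ≤ 2 ^ s) (hn : d + 4 * s + 40 ≤ n) :
    ∃ f : ℂ[X], IsAdmissible n f ∧ ∀ z : ℂ, ‖z‖ ≤ 1 / 2 → ‖f.eval z‖ ≤ 1 →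
      (P.eval 0).re - 1 / 8 ≤ (P.eval z).re := by
  obtain ⟨B, hBd⟩ : ∃ B : ℝ, B = 2 ^ s := ⟨_, rfl⟩
  rw [← hBd] at hB
  have hB1 : 1 ≤ B := by rw [hBd]; exact one_le_pow₀ (by norm_num)
  have hB0 : 0 < B := by linarith
  let g : ℂ[X] := 1 + C (((1 / (4 * B) : ℝ)) : ℂ) * (C (P.eval 0) - P)
  have hgeval : ∀ z : ℂ, g.eval z = 1 + ((1 / (4 * B) : ℝ) : ℂ) * (P.eval 0 - P.eval z) := by
    intro z; simp [g]
  have hg0 : g.coeff 0 = 1 := by
    rw [coeff_zero_eq_eval_zero, hgeval]; simp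
  have hgd : g.natDegree ≤ d := by
    have e1 : (C (((1 / (4 * B) : ℝ)) : ℂ) * (C (P.eval 0) - P)).natDegree ≤ d := by
      refine le_trans (natDegree_C_mul_le _ _) (le_trans (natDegree_sub_le _ _) ?_)
      exact max_le (by simp) hdeg
    exact natDegree_add_le_of_degree_le (by simp) e1
  have hg : ∀ z : ℂ, ‖z‖ ≤ 1 → g.eval z ≠ 0 := by
    intro z hz h0
    rw [hgeval] at h0
    have h1 : ((1 / (4 * B) : ℝ) : ℂ) * (P.eval 0 - P.eval z) = -1 := by linear_combination h0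
    have h2 := congrArg norm h1
    rw [norm_mul, norm_neg, norm_one, Complex.norm_real, Real.norm_eq_abs,
      abs_of_pos (by positivity)] at h2
    have h3 : ‖P.eval 0 - P.eval z‖ ≤ 2 * B := by
      refine le_trans (norm_sub_le _ _) ?_
      have := hB 0 (by simp)
      linarith [hB z hz]
    have h4 : 1 / (4 * B) * ‖P.eval 0 - P.eval z‖ ≤ 1 / (4 * B) * (2 * B) :=
      mul_le_mul_of_nonneg_left h3 (by positivity)
    have h5 : 1 / (4 * B) * (2 * B) = 1 / 2 := by field_simp; norm_num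
    linarith
  obtain ⟨m, hm⟩ : ∃ m : ℕ, m = n - g.natDegree := ⟨_, rfl⟩
  have hm3 : 3 * (s + 7) ≤ m := by omega
  have hpow : (3 / 4 : ℝ) ^ m ≤ 1 / (128 * B) := by
    calc (3 / 4 : ℝ) ^ m ≤ (3 / 4 : ℝ) ^ (3 * (s + 7)) :=
          pow_le_pow_of_le_one (by norm_num) (by norm_num) hm3
      _ = ((3 / 4 : ℝ) ^ 3) ^ (s + 7) := by rw [pow_mul]
      _ ≤ (1 / 2 : ℝ) ^ (s + 7) := pow_le_pow_left₀ (by norm_num) (by norm_num) _
      _ = 1 / (128 * B) := by
          rw [hBd, pow_add, one_div_pow]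
          norm_num
  refine ⟨fam g m, ⟨fam_monic g hg0 _ (by omega), ?_, fam_roots g hg _ (by omega)⟩, ?_⟩
  · rw [fam_natDegree g hg0 _ (by omega)]; omega
  · intro z hz hfz
    by_contra hcon
    push Not at hcon
    have h1 := fam_large g hg m z (by linarith)
    have h4 : (g.eval z).re = 1 + 1 / (4 * B) * ((P.eval 0).re - (P.eval z).re) := by
      rw [hgeval, Complex.add_re, Complex.one_re, Complex.re_ofReal_mul, Complex.sub_re]
    have h5 : 1 / (4 * B) * (1 / 8) ≤ 1 / (4 * B) * ((P.eval 0).re - (P.eval z).re) :=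
      mul_le_mul_of_nonneg_left (by linarith) (by positivity)
    have h7 := Complex.re_le_norm (g.eval z)
    have hx0 : 0 < 1 / B := by positivity
    have hx1 : 1 / B ≤ 1 := by rw [div_le_one hB0]; exact hB1
    have h8 : 1 / (4 * B) * (1 / 8) = 1 / B / 32 := by field_simp; norm_num
    have h9 : 1 / (128 * B) = 1 / B / 128 := by field_simp
    rw [h9] at hpow
    set x := 1 / B with hx
    have h10 : 1 + x / 32 ≤ ‖g.eval z‖ := by linarith
    have h11 : (1 + x / 32) * (1 - x / 128) ≤ ‖g.eval z‖ * (1 - (3 / 4) ^ m) := by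
      apply mul_le_mul h10 (by linarith) (by linarith) (norm_nonneg _)
    have h12 : 1 < (1 + x / 32) * (1 - x / 128) := by nlinarith
    linarith



end Esc405
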