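import Mathlib
import Pool.Prelude.Def_F_75ec743f

set_option autoImplicit false

namespace Esc405
open Complex Polynomial N3d24e4eb

lemma exists_F_ineq (a z : ℂ) (ha : ‖a‖ ≤ 1) (hz : ‖z‖ ≤ 1) :
    ‖z - a‖ ≤ ‖1 - (starRingEnd ℂ) a * z‖ := by
  have h1 : ‖1 - (starRingEnd ℂ) a * z‖ ^ 2 - ‖z - a‖ ^ 2 = (1 - ‖a‖ ^ 2) * (1 - ‖z‖ ^ 2) := by
    rw [Complex.sq_norm, Complex.sq_norm, Complex.sq_norm, Complex.sq_norm, Complex.normSq_apply,
      Complex.normSq_apply, Complex.normSq_apply, Complex.normSq_apply]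
    simp only [Complex.sub_re, Complex.sub_im, Complex.mul_re, Complex.mul_im, Complex.conj_re,
      Complex.conj_im, Complex.one_re, Complex.one_im]
    ring
  have ha2 : 0 ≤ 1 - ‖a‖ ^ 2 := by nlinarith [norm_nonneg a]
  have hz2 : 0 ≤ 1 - ‖z‖ ^ 2 := by nlinarith [norm_nonneg z]
  have h2 : ‖z - a‖ ^ 2 ≤ ‖1 - (starRingEnd ℂ) a * z‖ ^ 2 := by
    have := mul_nonneg ha2 hz2
    linarith
  exact (sq_le_sq₀ (norm_nonneg _) (norm_nonneg _)).1 h2

lemma exists_F_ne (a z : ℂ) (ha : ‖a‖ ≤ 1) (hz : ‖z‖ < 1) : 1 - (starRingEnd ℂ) a * z ≠ 0 := by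
  intro h
  have h1 : (starRingEnd ℂ) a * z = 1 := (sub_eq_zero.1 h).symm
  have h2 : ‖(starRingEnd ℂ) a * z‖ = 1 := by rw [h1, norm_one]
  rw [norm_mul, Complex.norm_conj] at h2
  have h3 : ‖a‖ * ‖z‖ ≤ 1 * ‖z‖ := mul_le_mul_of_nonneg_right ha (norm_nonneg z)
  linarith

lemma exists_F_multiset (s : Multiset ℂ) : (∀ a ∈ s, ‖a‖ ≤ 1) →
    ∃ F : ℂ[X], F.natDegree ≤ Multiset.card s ∧ F.eval 0 = 1 ∧ (∀ z : ℂ, ‖z‖ < 1 → F.eval z ≠ 0) ∧
      ∀ z : ℂ, ‖z‖ ≤ 1 → ‖((s.map (fun a => X - C a)).prod).eval z‖ ≤ ‖F.eval z‖ := by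
  induction s using Multiset.induction with
  | empty =>
    intro _
    refine ⟨1, by simp, by simp, by simp, ?_⟩
    intro z _
    simp
  | cons a s ih =>
    intro h
    obtain ⟨F, h1, h2, h3, h4⟩ := ih (fun b hb => h b (Multiset.mem_cons_of_mem hb))
    have ha := h a (Multiset.mem_cons_self a s)
    have hev : ∀ z : ℂ, ((1 - C ((starRingEnd ℂ) a) * X) * F).eval z =
        (1 - (starRingEnd ℂ) a * z) * F.eval z := by
      intro z
      simp
    refine ⟨(1 - C ((starRingEnd ℂ) a) * X) * F, ?_, ?_, ?_, ?_⟩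
    · rw [Multiset.card_cons, add_comm]
      refine natDegree_mul_le.trans (add_le_add ?_ h1)
      compute_degree
    · rw [hev, h2]
      simp
    · intro z hz
      rw [hev]
      exact mul_ne_zero (exists_F_ne a z ha hz) (h3 z hz)
    · intro z hz
      rw [hev, Multiset.map_cons, Multiset.prod_cons, eval_mul, norm_mul, norm_mul]
      apply mul_le_mul _ (h4 z hz) (norm_nonneg _) (norm_nonneg _)
      rw [eval_sub, eval_X, eval_C]
      exact exists_F_ineq a z ha hz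

-- TARGET
/-- The reciprocal polynomial `F = ∏ (1 - conj a z)` dominates `f` on the disc. -/
lemma exists_F (n : ℕ) (f : ℂ[X]) (hf : IsAdmissible n f) :
    ∃ F : ℂ[X], F.natDegree ≤ n ∧ F.eval 0 = 1 ∧ (∀ z : ℂ, ‖z‖ < 1 → F.eval z ≠ 0) ∧
      ∀ z : ℂ, ‖z‖ ≤ 1 → ‖f.eval z‖ ≤ ‖F.eval z‖ := by
  obtain ⟨hm, hd, hr⟩ := hf
  have hroots : ∀ a ∈ f.roots, ‖a‖ ≤ 1 := by
    intro a ha
    have h1 : a ∈ f.rootSet ℂ := by
      rw [mem_rootSet]
      refine ⟨hm.ne_zero, ?_⟩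
      rw [coe_aeval_eq_eval]
      exact (mem_roots hm.ne_zero).1 ha
    have h2 := hr h1
    rwa [mem_closedBall_zero_iff] at h2
  obtain ⟨F, h1, h2, h3, h4⟩ := exists_F_multiset f.roots hroots
  have hsplit : f.Splits := IsAlgClosed.splits f
  have hprod : f = (f.roots.map (fun a => X - C a)).prod := by
    exact hsplit.eq_prod_roots_of_monic hm
  refine ⟨F, ?_, h2, h3, ?_⟩
  · rw [← hd]
    exact h1.trans (card_roots' f)
  · intro z hz
    have h5 := h4 z hz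
    rw [← hprod] at h5
    exact h5


end Esc405
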