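import Mathlib

set_option autoImplicit false

namespace Esc405
open Complex Polynomial

-- TARGET
/-- A starting point near `0` in `{|F| < 1}`, joined to `0` by a segment in `{|F| ≤ 1}`, such that
the segment from `F z₀` to `0` (without `0`) contains no critical value. -/
lemma exists_start (F : ℂ[X]) (h0 : F.eval 0 = 1) (hn : 0 < F.natDegree) (ε : ℝ) (hε : 0 < ε) :
    ∃ z₀ : ℂ, ‖z₀‖ ≤ ε ∧ F.eval z₀ ≠ 0 ∧
      (∀ t : ℝ, 0 ≤ t → t ≤ 1 → ‖F.eval ((t : ℂ) * z₀)‖ ≤ 1) ∧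
      ∀ s : ℝ, 0 < s → s ≤ 1 → (s : ℂ) * F.eval z₀ ∉ F.eval '' {k | F.derivative.eval k = 0} := by
  classical
  have hF1 : F - C 1 ≠ 0 := by
    intro h
    have : F = C 1 := sub_eq_zero.1 h
    rw [this, natDegree_C] at hn
    exact lt_irrefl _ hn
  obtain ⟨g, hg, hgnd⟩ := Polynomial.exists_eq_pow_rootMultiplicity_mul_and_not_dvd (F - C 1) hF1 0
  obtain ⟨m, hmdef⟩ : ∃ m : ℕ, m = rootMultiplicity 0 (F - C 1) := ⟨_, rfl⟩
  rw [← hmdef] at hg
  have hm : 0 < m := by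
    rw [hmdef]
    refine (rootMultiplicity_pos hF1).2 ?_
    simp [IsRoot, h0]
  obtain ⟨α, hαdef⟩ : ∃ α : ℂ, α = g.eval 0 := ⟨_, rfl⟩
  have hα : α ≠ 0 := by
    intro h
    rw [hαdef] at h
    exact hgnd (dvd_iff_isRoot.2 h)
  have hFe : ∀ z, F.eval z = 1 + z ^ m * g.eval z := by
    intro z
    have := congrArg (eval z) hg
    simp only [map_zero, sub_zero, eval_sub, eval_mul, eval_pow, eval_X, eval_C] at this
    linear_combination this
  have hαn : 0 < ‖α‖ := norm_pos_iff.2 hα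
  obtain ⟨u, hu⟩ := IsAlgClosed.exists_pow_nat_eq (-((‖α‖ : ℝ) : ℂ) / α) hm
  have hun : ‖u‖ = 1 := by
    have h1 := congrArg norm hu
    rw [norm_pow, norm_div, norm_neg, Complex.norm_real, norm_norm, div_self hαn.ne'] at h1
    exact (pow_eq_one_iff_of_nonneg (norm_nonneg _) hm.ne').1 h1
  have huα : u ^ m * α = -((‖α‖ : ℝ) : ℂ) := by
    rw [hu]
    field_simp
  obtain ⟨K, hK⟩ : ∃ K : ℝ × ℂ → ℂ, K = fun p => (u * p.2) ^ m * g.eval ((p.1 : ℂ) * u * p.2) := ⟨_, rfl⟩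
  have hKc : Continuous K := by
    rw [hK]
    refine Continuous.mul (by fun_prop) (g.continuous.comp (by fun_prop))
  obtain ⟨Φ, hΦ⟩ : ∃ Φ : ℝ × ℂ → ℝ, Φ = fun p => 2 * (K p).re + p.1 ^ m * ‖K p‖ ^ 2 := ⟨_, rfl⟩
  have hΦc : Continuous Φ := by
    rw [hΦ]
    have h1 : Continuous fun p => (K p).re := Complex.continuous_re.comp hKc
    have h2 : Continuous fun p => ‖K p‖ := hKc.norm
    fun_prop
  have hΦ0 : Φ (0, 1) < 0 := by
    rw [hΦ, hK]
    simp only [Complex.ofReal_zero, zero_mul, mul_one, zero_pow hm.ne', add_zero]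
    rw [← hαdef, huα, Complex.neg_re, Complex.ofReal_re]
    linarith
  have hnear : ∀ᶠ p in nhds ((0 : ℝ), (1 : ℂ)), Φ p < 0 :=
    hΦc.continuousAt.eventually (Iio_mem_nhds hΦ0)
  obtain ⟨δ, hδ, hball⟩ := Metric.eventually_nhds_iff.1 hnear
  have hkey : ∀ ρ : ℝ, 0 ≤ ρ → ρ < δ → ∀ w : ℂ, ‖w - 1‖ < δ → ‖F.eval ((ρ : ℂ) * u * w)‖ ≤ 1 := by
    intro ρ hρ0 hρδ w hw
    have h1 : Φ (ρ, w) < 0 := by
      apply hball
      rw [Prod.dist_eq, max_lt_iff]
      constructor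
      · rw [Real.dist_eq, sub_zero, abs_of_nonneg hρ0]
        exact hρδ
      · rw [dist_eq_norm]
        exact hw
    have h2 : F.eval ((ρ : ℂ) * u * w) = 1 + ((ρ ^ m : ℝ) : ℂ) * K (ρ, w) := by
      rw [hFe, hK]
      push_cast
      ring
    have h3 : ‖F.eval ((ρ : ℂ) * u * w)‖ ^ 2 = 1 + ρ ^ m * Φ (ρ, w) := by
      rw [h2, hΦ]
      beta_reduce
      rw [Complex.sq_norm, Complex.sq_norm, Complex.normSq_apply, Complex.normSq_apply]
      simp only [Complex.add_re, Complex.add_im, Complex.one_re, Complex.one_im, Complex.mul_re,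
        Complex.mul_im, Complex.ofReal_re, Complex.ofReal_im]
      ring
    have h4 : ‖F.eval ((ρ : ℂ) * u * w)‖ ^ 2 ≤ 1 := by
      rw [h3]
      have : ρ ^ m * Φ (ρ, w) ≤ 0 := mul_nonpos_of_nonneg_of_nonpos (pow_nonneg hρ0 m) h1.le
      linarith
    nlinarith [norm_nonneg (F.eval ((ρ : ℂ) * u * w))]
  -- the open set
  obtain ⟨δ', hδ', hδ'δ, hδ'1⟩ : ∃ δ' : ℝ, 0 < δ' ∧ δ' ≤ δ ∧ δ' ≤ 1 :=
    ⟨min δ 1, lt_min hδ one_pos, min_le_left _ _, min_le_right _ _⟩
  obtain ⟨ρ, hρ, hρδ, hρε⟩ : ∃ ρ : ℝ, 0 < ρ ∧ ρ < δ ∧ 2 * ρ ≤ ε :=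
    ⟨min (δ / 2) (ε / 2), lt_min (by linarith) (by linarith),
      lt_of_le_of_lt (min_le_left _ _) (by linarith), by
        have := min_le_right (δ / 2) (ε / 2)
        linarith⟩
  have hρc : (ρ : ℂ) ≠ 0 := by exact_mod_cast hρ.ne'
  have hu0 : u ≠ 0 := by
    intro h
    rw [h, norm_zero] at hun
    exact zero_ne_one hun
  have hOopen : IsOpen (Metric.ball ((ρ : ℂ) * u) (ρ * δ')) := Metric.isOpen_ball
  have himg : IsOpen (F.eval '' (Metric.ball ((ρ : ℂ) * u) (ρ * δ'))) := by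
    have han : AnalyticOnNhd ℂ (fun z => F.eval z) Set.univ :=
      fun z _ => F.differentiable.analyticAt z
    rcases han.is_constant_or_isOpen isPreconnected_univ with ⟨w, hw⟩ | h
    · exfalso
      have : F = C w := Polynomial.funext fun z => by
        rw [eval_C]
        exact hw z (Set.mem_univ z)
      rw [this, natDegree_C] at hn
      exact lt_irrefl _ hn
    · exact h _ (Set.subset_univ _) hOopen
  have hCVfin : (F.eval '' {k | F.derivative.eval k = 0}).Finite := by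
    refine Set.Finite.image _ ?_
    have hd : F.derivative ≠ 0 := by
      intro h
      exact hn.ne' (natDegree_eq_zero_of_derivative_eq_zero h)
    exact Polynomial.finite_setOf_isRoot hd
  obtain ⟨T, hT⟩ : ∃ T : Set ℂ, T = insert 0 (F.eval '' {k | F.derivative.eval k = 0}) := ⟨_, rfl⟩
  have hTfin : T.Finite := by
    rw [hT]
    exact hCVfin.insert 0
  have hnull : MeasureTheory.volume (⋃ c ∈ T, ((Submodule.span ℝ {c} : Submodule ℝ ℂ) : Set ℂ)) = 0 := by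
    rw [MeasureTheory.measure_biUnion_null_iff hTfin.countable]
    intro c _
    refine MeasureTheory.Measure.addHaar_submodule _ _ ?_
    intro htop
    have h1 : Module.finrank ℝ (Submodule.span ℝ {c} : Submodule ℝ ℂ) ≤ 1 := by
      have := finrank_span_le_card (R := ℝ) ({c} : Set ℂ)
      simpa using this
    rw [htop, finrank_top, Complex.finrank_real_complex] at h1
    omega
  have hne : (F.eval '' (Metric.ball ((ρ : ℂ) * u) (ρ * δ'))).Nonempty :=
    ⟨_, (ρ : ℂ) * u, Metric.mem_ball_self (by positivity), rfl⟩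
  have hpos := himg.measure_pos MeasureTheory.volume hne
  have hnsub : ¬ (F.eval '' (Metric.ball ((ρ : ℂ) * u) (ρ * δ'))) ⊆
      (⋃ c ∈ T, ((Submodule.span ℝ {c} : Submodule ℝ ℂ) : Set ℂ)) := by
    intro hsub
    have := MeasureTheory.measure_mono (μ := MeasureTheory.volume) hsub
    rw [hnull] at this
    exact absurd (lt_of_lt_of_le hpos this) (lt_irrefl _)
  obtain ⟨y, ⟨z₀, hz₀, rfl⟩, hy⟩ := Set.not_subset.1 hnsub
  have hy' : ∀ c ∈ T, F.eval z₀ ∉ (Submodule.span ℝ {c} : Submodule ℝ ℂ) := by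
    intro c hc hmem
    exact hy (Set.mem_biUnion hc hmem)
  -- write z₀ = ρ u w
  obtain ⟨w, hw⟩ : ∃ w : ℂ, w = z₀ / ((ρ : ℂ) * u) := ⟨_, rfl⟩
  have hzw : z₀ = (ρ : ℂ) * u * w := by
    rw [hw]
    field_simp
  have hw1 : ‖w - 1‖ < δ' := by
    have h1 : z₀ - (ρ : ℂ) * u = (ρ : ℂ) * u * (w - 1) := by rw [hzw]; ring
    rw [Metric.mem_ball, dist_eq_norm, h1, norm_mul, norm_mul, hun, mul_one, Complex.norm_real,
      Real.norm_eq_abs, abs_of_pos hρ] at hz₀
    exact lt_of_mul_lt_mul_left hz₀ hρ.le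
  have hwn : ‖w‖ ≤ 2 := by
    have h1 : ‖w‖ ≤ ‖w - 1‖ + ‖(1 : ℂ)‖ := by
      have := norm_add_le (w - 1) 1
      rw [sub_add_cancel] at this
      exact this
    rw [norm_one] at h1
    linarith
  refine ⟨z₀, ?_, ?_, ?_, ?_⟩
  · rw [hzw, norm_mul, norm_mul, hun, mul_one, Complex.norm_real, Real.norm_eq_abs, abs_of_pos hρ]
    nlinarith
  · intro h
    refine hy' 0 (by rw [hT]; exact Set.mem_insert _ _) ?_
    rw [h]
    exact Submodule.zero_mem _
  · intro t ht0 ht1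
    have h1 : (t : ℂ) * z₀ = ((t * ρ : ℝ) : ℂ) * u * w := by
      rw [hzw]
      push_cast
      ring
    rw [h1]
    refine hkey (t * ρ) (mul_nonneg ht0 hρ.le) ?_ w (lt_of_lt_of_le hw1 hδ'δ)
    nlinarith
  · intro s hs0 hs1 hmem
    refine hy' ((s : ℂ) * F.eval z₀) (by rw [hT]; exact Set.mem_insert_of_mem _ hmem) ?_
    rw [Submodule.mem_span_singleton]
    refine ⟨s⁻¹, ?_⟩
    rw [Complex.real_smul]
    have : (s : ℂ) ≠ 0 := by exact_mod_cast hs0.ne'
    push_cast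
    field_simp


end Esc405
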