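import Mathlib

set_option autoImplicit false

namespace Esc405
open Complex Polynomial

-- TARGET
/-- Lifting of the segment `(1 - t) c₀`. -/
lemma exists_lift (F : ℂ[X]) (z₀ : ℂ)
    (hs : ∀ s : ℝ, 0 < s → s ≤ 1 → (s : ℂ) * F.eval z₀ ∉ F.eval '' {k | F.derivative.eval k = 0})
    (τ : ℝ) (hτ0 : 0 < τ) (hτ1 : τ < 1) :
    ∃ z : ℝ → ℂ, Continuous z ∧ z 0 = z₀ ∧
      ∀ t : ℝ, 0 ≤ t → t ≤ τ → F.eval (z t) = ((1 - t : ℝ) : ℂ) * F.eval z₀ := by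
  obtain ⟨f, hf⟩ : ∃ f : C(ℝ, ℂ), ∀ t, f t = ((1 - max 0 (min t τ) : ℝ) : ℂ) * F.eval z₀ :=
    ⟨⟨fun t => ((1 - max 0 (min t τ) : ℝ) : ℂ) * F.eval z₀, by fun_prop⟩, fun _ => rfl⟩
  have h0 : F.eval z₀ = f 0 := by
    rw [hf, min_eq_left hτ0.le, max_self]
    simp
  have hmem : ∀ t, f t ∈ (F.eval '' {k | F.derivative.eval k = 0})ᶜ := by
    intro t
    rw [hf]
    refine hs _ ?_ ?_
    · have : max 0 (min t τ) ≤ τ := max_le hτ0.le (min_le_right _ _)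
      linarith
    · have : 0 ≤ max 0 (min t τ) := le_max_left _ _
      linarith
  obtain ⟨z, ⟨hz0, hz⟩, _⟩ := F.isCoveringMapOn_eval.existsUnique_continuousMap_lifts f h0 hmem
  refine ⟨z, z.continuous, hz0, ?_⟩
  intro t ht0 ht1
  have h1 := congrFun hz t
  have h2 : F.eval (z t) = f t := h1
  rw [h2, hf, min_eq_left ht1, max_eq_right ht0]


end Esc405
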