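import Mathlib

set_option autoImplicit false

namespace Esc405
open MeasureTheory

theorem card_crossings {u : ℝ → ℝ} {α β : ℝ}
    (hu : ContinuousOn u (Set.Icc α β)) (n : ℕ) (c : ℝ)
    (hc : {t | t ∈ Set.Icc α β ∧ u t = c}.encard ≤ n) (N : ℕ) (t : ℕ → ℝ) (ht : Monotone t)
    (hts : ∀ i, t i ∈ Set.Icc α β) (J : Finset ℕ)
    (hJ : ∀ i ∈ J, c ∈ Set.Ioo (min (u (t i)) (u (t (i + 1)))) (max (u (t i)) (u (t (i + 1))))) :
    (J.card : ENNReal) ≤ n := by
  have hex : ∀ i ∈ J, ∃ τ, t i < τ ∧ τ < t (i + 1) ∧ u τ = c := by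
    intro i hi
    obtain ⟨h1, h2⟩ := hJ i hi
    have hle : t i ≤ t (i + 1) := ht (Nat.le_succ i)
    have hsub : Set.uIcc (t i) (t (i + 1)) ⊆ Set.Icc α β := by
      rw [Set.uIcc_of_le hle]
      exact Set.Icc_subset_Icc (hts i).1 (hts (i + 1)).2
    have h3 : c ∈ Set.uIcc (u (t i)) (u (t (i + 1))) := ⟨h1.le, h2.le⟩
    obtain ⟨τ, hτ, hτc⟩ := intermediate_value_uIcc (hu.mono hsub) h3
    rw [Set.uIcc_of_le hle] at hτ
    have hne1 : c ≠ u (t i) := by
      intro h
      rcases le_total (u (t i)) (u (t (i + 1))) with h4 | h4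
      · rw [min_eq_left h4] at h1; linarith
      · rw [max_eq_left h4] at h2; linarith
    have hne2 : c ≠ u (t (i + 1)) := by
      intro h
      rcases le_total (u (t i)) (u (t (i + 1))) with h4 | h4
      · rw [max_eq_right h4] at h2; linarith
      · rw [min_eq_right h4] at h1; linarith
    refine ⟨τ, lt_of_le_of_ne hτ.1 ?_, lt_of_le_of_ne hτ.2 ?_, hτc⟩
    · rintro rfl; exact hne1 hτc.symm
    · rintro rfl; exact hne2 hτc.symm
  choose! τ hτ1 hτ2 hτ3 using hex
  have hlt : ∀ i ∈ J, ∀ j ∈ J, i < j → τ i < τ j := by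
    intro i hi j hj hij
    calc τ i < t (i + 1) := hτ2 i hi
      _ ≤ t j := ht hij
      _ < τ j := hτ1 j hj
  have hinj : Set.InjOn τ (J : Set ℕ) := by
    intro i hi j hj hij
    rcases lt_trichotomy i j with h | h | h
    · exact absurd hij (hlt i hi j hj h).ne
    · exact h
    · exact absurd hij (hlt j hj i hi h).ne'
  have hsub : τ '' (J : Set ℕ) ⊆ {t | t ∈ Set.Icc α β ∧ u t = c} := by
    rintro _ ⟨i, hi, rfl⟩
    exact ⟨⟨(hts i).1.trans (hτ1 i hi).le, (hτ2 i hi).le.trans (hts (i + 1)).2⟩, hτ3 i hi⟩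
  have h5 : (J : Set ℕ).encard ≤ n := by
    rw [← hinj.encard_image]
    exact (Set.encard_le_encard hsub).trans hc
  rw [Set.encard_coe_eq_coe_finsetCard] at h5
  exact_mod_cast h5

-- TARGET: both lemmas
/-- Banach indicatrix inequality: a continuous function with values in `[-1,1]` taking almost every
value at most `n` times has variation at most `2n`. -/
lemma variation_le_of_crossings {u : ℝ → ℝ} {α β : ℝ} (hαβ : α ≤ β)
    (hu : ContinuousOn u (Set.Icc α β)) (hb : ∀ t ∈ Set.Icc α β, |u t| ≤ 1) (n : ℕ)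
    (E : Set ℝ) (hE : E.Finite)
    (hc : ∀ c : ℝ, c ∉ E → {t | t ∈ Set.Icc α β ∧ u t = c}.encard ≤ n) :
    eVariationOn u (Set.Icc α β) ≤ 2 * n := by
  classical
  refine iSup_le ?_
  rintro ⟨N, t, ht, hts⟩
  simp only
  set I : ℕ → Set ℝ := fun i =>
    Set.Ioo (min (u (t i)) (u (t (i + 1)))) (max (u (t i)) (u (t (i + 1)))) with hI
  have h1 : ∀ i, edist (u (t (i + 1))) (u (t i)) = ∫⁻ c, (I i).indicator (fun _ => (1 : ENNReal)) c := by
    intro i
    rw [lintegral_indicator measurableSet_Ioo, lintegral_const, Measure.restrict_apply_univ, one_mul]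
    show edist (u (t (i + 1))) (u (t i)) =
      volume (Set.Ioo (min (u (t i)) (u (t (i + 1)))) (max (u (t i)) (u (t (i + 1)))))
    rw [Real.volume_Ioo, edist_dist, Real.dist_eq, max_sub_min_eq_abs]
  rw [Finset.sum_congr rfl fun i _ => h1 i,
    ← lintegral_finsetSum _ fun i _ => measurable_const.indicator measurableSet_Ioo]
  calc ∫⁻ c, ∑ i ∈ Finset.range N, (I i).indicator (fun _ => (1 : ENNReal)) c
      ≤ ∫⁻ c, (Set.Icc (-1 : ℝ) 1).indicator (fun _ => (n : ENNReal)) c := by
        refine lintegral_mono_ae ?_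
        filter_upwards [hE.countable.ae_notMem volume] with c hcE
        have hsum : ∑ i ∈ Finset.range N, (I i).indicator (fun _ => (1 : ENNReal)) c =
            (((Finset.range N).filter fun i => c ∈ I i).card : ENNReal) := by
          simp only [Set.indicator_apply]
          rw [Finset.sum_ite, Finset.sum_const_zero, add_zero, Finset.sum_const, nsmul_eq_mul,
            mul_one]
        rw [hsum]
        by_cases hcI : c ∈ Set.Icc (-1 : ℝ) 1
        · rw [Set.indicator_of_mem hcI]
          exact card_crossings hu n c (hc c hcE) N t ht hts _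
            (fun i hi => (Finset.mem_filter.1 hi).2)
        · rw [Set.indicator_of_notMem hcI]
          have hempty : ((Finset.range N).filter fun i => c ∈ I i) = ∅ := by
            rw [Finset.filter_eq_empty_iff]
            intro i _ hci
            apply hcI
            obtain ⟨h2, h3⟩ := hci
            have h4 := abs_le.1 (hb _ (hts i))
            have h5 := abs_le.1 (hb _ (hts (i + 1)))
            constructor
            · exact (le_min h4.1 h5.1).trans h2.le
            · exact h3.le.trans (max_le h4.2 h5.2)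
          rw [hempty]
          simp
    _ = 2 * n := by
        rw [lintegral_indicator measurableSet_Icc, lintegral_const, Measure.restrict_apply_univ,
          Real.volume_Icc, mul_comm]
        congr 1
        norm_num

/-- The one-dimensional Hausdorff measure of a curve is at most its variation. -/
lemma hausdorff_le_variation {z : ℝ → ℂ} {α β : ℝ} (hαβ : α ≤ β)
    (hz : ContinuousOn z (Set.Icc α β)) :
    μH[1] (z '' Set.Icc α β) ≤ eVariationOn z (Set.Icc α β) := by
  set P : ℕ → ℕ → ℝ := fun k i => α + i * ((β - α) / (k + 1)) with hP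
  have hmesh0 : ∀ k : ℕ, 0 ≤ (β - α) / ((k : ℝ) + 1) := fun k =>
    div_nonneg (by linarith) (by positivity)
  have hPm : ∀ k, Monotone (P k) := by
    intro k i j hij
    simp only [hP]
    have : (i : ℝ) ≤ j := by exact_mod_cast hij
    have := mul_le_mul_of_nonneg_right this (hmesh0 k)
    linarith
  have hP0 : ∀ k, P k 0 = α := by intro k; simp [hP]
  have hPk : ∀ k, P k (k + 1) = β := by
    intro k
    simp only [hP]
    push_cast
    field_simp
    ring
  have hPd : ∀ k i, P k (i + 1) - P k i = (β - α) / ((k : ℝ) + 1) := by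
    intro k i
    simp only [hP]
    push_cast
    ring
  have hsub : ∀ k (i : Fin (k + 1)), Set.Icc (P k i) (P k (i + 1)) ⊆ Set.Icc α β := by
    intro k i
    refine Set.Icc_subset_Icc ?_ ?_
    · rw [← hP0 k]; exact hPm k (Nat.zero_le _)
    · rw [← hPk k]
      refine hPm k ?_
      have := i.2
      omega
  have hcover : ∀ k, Set.Icc α β ⊆ ⋃ i : Fin (k + 1), Set.Icc (P k i) (P k (i + 1)) := by
    intro k
    have hind : ∀ m : ℕ, m ≤ k + 1 → ∀ x ∈ Set.Icc α (P k m), 0 < m →
        ∃ i < m, x ∈ Set.Icc (P k i) (P k (i + 1)) := by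
      intro m
      induction m with
      | zero => intro _ x _ h0; exact absurd h0 (lt_irrefl 0)
      | succ m ih =>
        intro hm x hx _
        by_cases hxm : x ≤ P k m
        · rcases Nat.eq_zero_or_pos m with h0 | h0
          · subst h0
            refine ⟨0, Nat.zero_lt_one, ?_, hx.2⟩
            rw [hP0]; exact hx.1
          · obtain ⟨i, hi, hxi⟩ := ih (by omega) x ⟨hx.1, hxm⟩ h0
            exact ⟨i, by omega, hxi⟩
        · push Not at hxm
          exact ⟨m, Nat.lt_succ_self m, hxm.le, hx.2⟩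
    intro x hx
    rw [← hPk k] at hx
    obtain ⟨i, hi, hxi⟩ := hind (k + 1) le_rfl x hx (Nat.succ_pos k)
    rw [Set.mem_iUnion]
    exact ⟨⟨i, hi⟩, hxi⟩
  set r : ℕ → ENNReal := fun k =>
    ⨆ i : Fin (k + 1), Metric.ediam (z '' Set.Icc (P k i) (P k (i + 1))) with hr
  have hrt : Filter.Tendsto r Filter.atTop (nhds 0) := by
    rw [ENNReal.tendsto_nhds_zero]
    intro ε hε
    have huc := isCompact_Icc.uniformContinuousOn_of_continuous hz
    rw [EMetric.uniformContinuousOn_iff] at huc
    obtain ⟨δ, hδ, hδ'⟩ := huc ε hε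
    have hlim : Filter.Tendsto (fun k : ℕ => ENNReal.ofReal ((β - α) / ((k : ℝ) + 1)))
        Filter.atTop (nhds 0) := by
      have h1 : Filter.Tendsto (fun k : ℕ => (β - α) / ((k : ℝ) + 1)) Filter.atTop (nhds 0) :=
        tendsto_const_div_atTop_nhds_zero_nat (β - α) |>.comp (Filter.tendsto_add_atTop_nat 1)
          |>.congr fun k => by simp
      have h2 := ENNReal.tendsto_ofReal h1
      rwa [ENNReal.ofReal_zero] at h2
    filter_upwards [hlim.eventually (gt_mem_nhds hδ)] with k hk
    refine iSup_le fun i => ?_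
    refine Metric.ediam_le ?_
    rintro _ ⟨x, hx, rfl⟩ _ ⟨y, hy, rfl⟩
    refine (hδ' (hsub k i hx) (hsub k i hy) ?_).le
    refine lt_of_le_of_lt ?_ hk
    rw [edist_dist, Real.dist_eq]
    apply ENNReal.ofReal_le_ofReal
    rw [← hPd k i, abs_le]
    constructor
    · linarith [hx.1, hy.2]
    · linarith [hx.2, hy.1]
  have key := Measure.hausdorffMeasure_le_liminf_sum (1 : ℝ) (z '' Set.Icc α β)
    (l := Filter.atTop) r hrt (ι := fun k : ℕ => Fin (k + 1))
    (fun k i => z '' Set.Icc (P k i) (P k (i + 1)))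
    (Filter.Eventually.of_forall fun k i =>
      le_iSup (fun i : Fin (k + 1) => Metric.ediam (z '' Set.Icc (P k i) (P k (i + 1)))) i)
    (Filter.Eventually.of_forall fun k => by
      rw [← Set.image_iUnion]
      exact Set.image_mono (hcover k))
  refine key.trans ?_
  have hle : ∀ k : ℕ, ∑ i : Fin (k + 1), Metric.ediam (z '' Set.Icc (P k i) (P k (i + 1))) ^ (1 : ℝ) ≤
      eVariationOn z (Set.Icc α β) := by
    intro k
    have h1 := eVariationOn.sum' z (hPm k) (n := k + 1)
    rw [hP0, hPk] at h1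
    rw [← h1, ← Fin.sum_univ_eq_sum_range (fun i => eVariationOn z (Set.Icc (P k i) (P k (i + 1))))]
    refine Finset.sum_le_sum fun i _ => ?_
    rw [ENNReal.rpow_one]
    refine Metric.ediam_le ?_
    rintro _ ⟨x, hx, rfl⟩ _ ⟨y, hy, rfl⟩
    exact eVariationOn.edist_le z hx hy
  calc Filter.liminf (fun k : ℕ => ∑ i : Fin (k + 1),
        Metric.ediam (z '' Set.Icc (P k i) (P k (i + 1))) ^ (1 : ℝ)) Filter.atTop
      ≤ Filter.liminf (fun _ : ℕ => eVariationOn z (Set.Icc α β)) Filter.atTop :=
        Filter.liminf_le_liminf (Filter.Eventually.of_forall hle)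
    _ = _ := Filter.liminf_const _


end Esc405
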