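import Mathlib
import Pool.Agent.Esc405.U4

set_option autoImplicit false

namespace Esc405
open Complex Polynomial MeasureTheory

noncomputable def h170_imP (P : ℂ[X]) : ℝ[X] := ∑ i ∈ Finset.range (P.natDegree + 1), C ((P.coeff i).im) * X ^ i

lemma h170_imP_eval (P : ℂ[X]) (y : ℝ) : (h170_imP P).eval y = (P.eval (y : ℂ)).im := by
  rw [h170_imP, eval_finset_sum, Polynomial.eval_eq_sum_range, Complex.im_sum]
  refine Finset.sum_congr rfl fun i _ => ?_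
  rw [eval_mul, eval_C, eval_pow, eval_X, ← Complex.ofReal_pow, Complex.im_mul_ofReal]

lemma h170_imP_deg (P : ℂ[X]) : (h170_imP P).natDegree ≤ P.natDegree := by
  rw [h170_imP]
  refine natDegree_sum_le_of_forall_le _ _ fun i hi => ?_
  refine (natDegree_C_mul_X_pow_le _ _).trans ?_
  have := Finset.mem_range.1 hi
  omega

lemma h170_roots (P : ℂ[X]) (y0 : ℝ) (h : (P.eval (y0 : ℂ)).im ≠ 0) :
    ∃ S : Finset ℝ, S.card ≤ P.natDegree ∧ ∀ y : ℝ, (P.eval (y : ℂ)).im = 0 → y ∈ S := by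
  classical
  have hne : h170_imP P ≠ 0 := by
    intro h0
    apply h
    rw [← h170_imP_eval, h0, eval_zero]
  refine ⟨(h170_imP P).roots.toFinset, ?_, fun y hy => ?_⟩
  · exact (Multiset.toFinset_card_le _).trans ((card_roots' _).trans (h170_imP_deg P))
  · rw [Multiset.mem_toFinset, mem_roots hne, IsRoot.def, h170_imP_eval, hy]

lemma h170_comp_deg (G : ℂ[X]) (a d : ℂ) : (G.comp (C a + C d * X)).natDegree ≤ G.natDegree := by
  refine natDegree_comp_le.trans ?_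
  have h : (C a + C d * X).natDegree ≤ 1 := by
    rw [add_comm]; exact natDegree_linear_le
  calc G.natDegree * (C a + C d * X).natDegree ≤ G.natDegree * 1 := Nat.mul_le_mul_left _ h
    _ = _ := mul_one _

lemma h170_cross (F : ℂ[X]) (hn : 0 < F.natDegree) (c₀ : ℂ) (hc₀ : c₀ ≠ 0) (τ : ℝ) (z : ℝ → ℂ)
    (hz : ∀ t : ℝ, 0 ≤ t → t ≤ τ → F.eval (z t) = ((1 - t : ℝ) : ℂ) * c₀)
    (A B : ℂ → ℝ) (e d : ℂ) (hAB : ∀ w : ℂ, w = (A w : ℂ) * e + (B w : ℂ) * d) :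
    ∃ E : Set ℝ, E.Finite ∧ ∀ c : ℝ, c ∉ E →
      {t | t ∈ Set.Icc 0 τ ∧ A (z t) = c}.encard ≤ F.natDegree := by
  classical
  obtain ⟨G, hG⟩ : ∃ G, G = C c₀⁻¹ * F := ⟨_, rfl⟩
  have hGd : G.natDegree = F.natDegree := by
    rw [hG]; exact natDegree_C_mul (inv_ne_zero hc₀)
  have hGz : ∀ t : ℝ, 0 ≤ t → t ≤ τ → G.eval (z t) = ((1 - t : ℝ) : ℂ) := by
    intro t h0 h1
    rw [hG, eval_mul, eval_C, hz t h0 h1]
    field_simp
  have hev : ∀ (a b x : ℂ), (G.comp (C a + C b * X)).eval x = G.eval (a + b * x) := by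
    intro a b x
    rw [eval_comp]; simp
  -- a point with value I
  obtain ⟨w0, hw0⟩ : ∃ w0 : ℂ, G.eval w0 = I := by
    have hd : (G - C I).degree ≠ 0 := by
      have h1 : (G - C I).natDegree = G.natDegree := natDegree_sub_C
      intro h2
      have h3 : (G - C I).natDegree = 0 := natDegree_eq_of_degree_eq_some h2
      omega
    obtain ⟨w, hw⟩ := IsAlgClosed.exists_root (G - C I) hd
    refine ⟨w, ?_⟩
    rw [IsRoot.def, eval_sub, eval_C] at hw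
    exact sub_eq_zero.1 hw
  have hEfin : {c : ℝ | ∀ y : ℝ, (G.eval ((c:ℂ) * e + (y:ℂ) * d)).im = 0}.Finite := by
    have h1 : ((G.comp (C ((B w0 : ℂ) * d) + C e * X)).eval ((A w0 : ℝ) : ℂ)).im ≠ 0 := by
      rw [hev]
      have : (B w0 : ℂ) * d + e * (A w0 : ℂ) = w0 := by
        conv_rhs => rw [hAB w0]
        ring
      rw [this, hw0]
      simp
    obtain ⟨S, -, hS⟩ := h170_roots _ _ h1
    refine S.finite_toSet.subset fun c hc => ?_
    refine Finset.mem_coe.2 (hS c ?_)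
    rw [hev]
    have := hc (B w0)
    have e1 : (B w0 : ℂ) * d + e * (c : ℂ) = (c:ℂ) * e + ((B w0 : ℝ) : ℂ) * d := by ring
    rw [e1]; exact this
  refine ⟨_, hEfin, fun c hc => ?_⟩
  simp only [Set.mem_setOf_eq, not_forall] at hc
  obtain ⟨y0, hy0⟩ := hc
  have h1 : ((G.comp (C ((c : ℂ) * e) + C d * X)).eval ((y0 : ℝ) : ℂ)).im ≠ 0 := by
    rw [hev, mul_comm d]; exact hy0
  obtain ⟨S, hScard, hS⟩ := h170_roots _ _ h1
  have hinj : Set.InjOn (fun t => B (z t)) {t | t ∈ Set.Icc 0 τ ∧ A (z t) = c} := by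
    rintro s ⟨hs, hs2⟩ t ⟨ht, ht2⟩ hst
    simp only at hst
    have : z s = z t := by rw [hAB (z s), hAB (z t), hs2, ht2, hst]
    have h3 := hGz s hs.1 hs.2
    rw [this, hGz t ht.1 ht.2] at h3
    have h4 : (1 - t : ℝ) = 1 - s := by exact_mod_cast h3
    linarith
  have hmaps : (fun t => B (z t)) '' {t | t ∈ Set.Icc 0 τ ∧ A (z t) = c} ⊆ (S : Set ℝ) := by
    rintro _ ⟨t, ⟨ht, ht2⟩, rfl⟩
    refine Finset.mem_coe.2 (hS _ ?_)
    rw [hev]
    have : (c : ℂ) * e + d * ((B (z t) : ℝ) : ℂ) = z t := by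
      conv_rhs => rw [hAB (z t), ht2]
      ring
    rw [this, hGz t ht.1 ht.2, Complex.ofReal_im]
  rw [← hinj.encard_image]
  refine (Set.encard_le_encard hmaps).trans ?_
  rw [Set.encard_coe_eq_coe_finsetCard]
  have h5 : S.card ≤ F.natDegree := hScard.trans ((h170_comp_deg _ _ _).trans hGd.le)
  exact_mod_cast h5

lemma h170_evar (z : ℝ → ℂ) (s : Set ℝ) :
    eVariationOn z s ≤ eVariationOn (fun t => (z t).re) s + eVariationOn (fun t => (z t).im) s := by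
  have hed : ∀ a b : ℂ, edist a b ≤ edist a.re b.re + edist a.im b.im := by
    intro a b
    rw [edist_dist, edist_dist, edist_dist, ← ENNReal.ofReal_add dist_nonneg dist_nonneg]
    refine ENNReal.ofReal_le_ofReal ?_
    rw [dist_eq_norm, Real.dist_eq, Real.dist_eq, ← Complex.sub_re, ← Complex.sub_im]
    exact Complex.norm_le_abs_re_add_abs_im _
  refine iSup_le ?_
  rintro ⟨n, u, hu, us⟩
  calc ∑ i ∈ Finset.range n, edist (z (u (i+1))) (z (u i))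
      ≤ ∑ i ∈ Finset.range n, (edist (z (u (i+1))).re (z (u i)).re + edist (z (u (i+1))).im (z (u i)).im) :=
        Finset.sum_le_sum fun i _ => hed _ _
    _ = (∑ i ∈ Finset.range n, edist (z (u (i+1))).re (z (u i)).re) + ∑ i ∈ Finset.range n, edist (z (u (i+1))).im (z (u i)).im :=
        Finset.sum_add_distrib
    _ ≤ _ := add_le_add (eVariationOn.sum_le (f := fun t => (z t).re) hu us) (eVariationOn.sum_le (f := fun t => (z t).im) hu us)

lemma crossings_re (F : ℂ[X]) (hn : 0 < F.natDegree) (c₀ : ℂ) (hc₀ : c₀ ≠ 0) (τ : ℝ) (z : ℝ → ℂ)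
    (hz : ∀ t : ℝ, 0 ≤ t → t ≤ τ → F.eval (z t) = ((1 - t : ℝ) : ℂ) * c₀) :
    ∃ E : Set ℝ, E.Finite ∧ ∀ c : ℝ, c ∉ E →
      {t | t ∈ Set.Icc 0 τ ∧ (z t).re = c}.encard ≤ F.natDegree :=
  h170_cross F hn c₀ hc₀ τ z hz Complex.re Complex.im 1 I (fun w => by rw [mul_one, Complex.re_add_im])
lemma crossings_im (F : ℂ[X]) (hn : 0 < F.natDegree) (c₀ : ℂ) (hc₀ : c₀ ≠ 0) (τ : ℝ) (z : ℝ → ℂ)
    (hz : ∀ t : ℝ, 0 ≤ t → t ≤ τ → F.eval (z t) = ((1 - t : ℝ) : ℂ) * c₀) :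
    ∃ E : Set ℝ, E.Finite ∧ ∀ c : ℝ, c ∉ E →
      {t | t ∈ Set.Icc 0 τ ∧ (z t).im = c}.encard ≤ F.natDegree :=
  h170_cross F hn c₀ hc₀ τ z hz Complex.im Complex.re I 1 (fun w => by rw [mul_one, add_comm, Complex.re_add_im])
lemma curve_length (F : ℂ[X]) (hn : 0 < F.natDegree) (c₀ : ℂ) (hc₀ : c₀ ≠ 0) (τ : ℝ) (hτ : 0 ≤ τ)
    (z : ℝ → ℂ) (hzc : Continuous z) (hz1 : ∀ t : ℝ, 0 ≤ t → t ≤ τ → ‖z t‖ ≤ 1)
    (hz : ∀ t : ℝ, 0 ≤ t → t ≤ τ → F.eval (z t) = ((1 - t : ℝ) : ℂ) * c₀) :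
    μH[1] (z '' Set.Icc 0 τ) ≤ 4 * F.natDegree := by
  refine (hausdorff_le_variation hτ hzc.continuousOn).trans ?_
  refine (h170_evar z _).trans ?_
  obtain ⟨E1, hE1, h1⟩ := crossings_re F hn c₀ hc₀ τ z hz
  obtain ⟨E2, hE2, h2⟩ := crossings_im F hn c₀ hc₀ τ z hz
  have v1 := variation_le_of_crossings hτ (Complex.continuous_re.comp hzc).continuousOn
    (fun t ht => (Complex.abs_re_le_norm _).trans (hz1 t ht.1 ht.2)) F.natDegree E1 hE1 h1
  have v2 := variation_le_of_crossings hτ (Complex.continuous_im.comp hzc).continuousOn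
    (fun t ht => (Complex.abs_im_le_norm _).trans (hz1 t ht.1 ht.2)) F.natDegree E2 hE2 h2
  refine (add_le_add v1 v2).trans (le_of_eq ?_)
  ring


end Esc405
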