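import Mathlib
import Pool.Agent.Esc405.U1
import Pool.Agent.Esc405.U2
import Pool.Agent.Esc405.U3
import Pool.Agent.Esc405.U5
import Pool.Prelude.Def_F_75ec743f

set_option autoImplicit false

namespace Esc405
open Complex Polynomial MeasureTheory N3d24e4eb

-- TARGET: all of the following lemmas

lemma mprod_norm_ge (s : Multiset ℂ) (z : ℂ) (δ : ℝ) (hδ : 0 < δ) (h : ∀ a ∈ s, δ ≤ ‖z - a‖) :
    δ ^ (Multiset.card s) ≤ ‖(s.map (z - ·)).prod‖ := by
  induction s using Multiset.induction_on with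
  | empty => simp
  | cons a s ih =>
    rw [Multiset.card_cons, Multiset.map_cons, Multiset.prod_cons, norm_mul, pow_succ, mul_comm]
    exact mul_le_mul (h a (Multiset.mem_cons_self a s))
      (ih fun b hb => h b (Multiset.mem_cons_of_mem hb)) (by positivity) (norm_nonneg _)

/-- points where `F` is tiny are close to roots, and `F` is small near its roots -/
lemma near_root (F : ℂ[X]) (hn : 0 < F.natDegree) (δ : ℝ) (hδ : 0 < δ) :
    ∃ η : ℝ, 0 < η ∧ ∀ z : ℂ, ‖F.eval z‖ ≤ η → ∃ a : ℂ, F.eval a = 0 ∧ ‖z - a‖ ≤ δ := by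
  have hF : F ≠ 0 := by rintro rfl; simp at hn
  have hl : 0 < ‖F.leadingCoeff‖ := norm_pos_iff.2 (leadingCoeff_ne_zero.2 hF)
  refine ⟨‖F.leadingCoeff‖ * δ ^ (Multiset.card F.roots) / 2, by positivity, fun z hz => ?_⟩
  by_contra hcon
  push Not at hcon
  have h1 : ∀ a ∈ F.roots, δ ≤ ‖z - a‖ := fun a ha =>
    (hcon a ((mem_roots hF).1 ha)).le
  have h2 := mprod_norm_ge F.roots z δ hδ h1
  have h3 := (IsAlgClosed.splits F).eval_eq_prod_roots z
  rw [h3, norm_mul] at hz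
  have h4 : ‖F.leadingCoeff‖ * δ ^ (Multiset.card F.roots) ≤
      ‖F.leadingCoeff‖ * ‖(F.roots.map (z - ·)).prod‖ :=
    mul_le_mul_of_nonneg_left h2 hl.le
  have h5 : 0 < ‖F.leadingCoeff‖ * δ ^ (Multiset.card F.roots) := by positivity
  linarith

lemma small_near_root (F : ℂ[X]) (hn : 0 < F.natDegree) :
    ∃ δ : ℝ, 0 < δ ∧ δ ≤ 1 / 4 ∧ ∀ a z : ℂ, F.eval a = 0 → ‖z - a‖ ≤ δ → ‖F.eval z‖ ≤ 1 := by
  classical
  have hF : F ≠ 0 := by rintro rfl; simp at hn
  have h1 : ∀ a ∈ F.roots.toFinset, ∀ᶠ δ : ℝ in nhdsWithin 0 (Set.Ioi 0),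
      ∀ z : ℂ, ‖z - a‖ ≤ δ → ‖F.eval z‖ ≤ 1 := by
    intro a ha
    have ha0 : F.eval a = 0 := (mem_roots hF).1 (Multiset.mem_toFinset.1 ha)
    have hc : ContinuousAt (fun z : ℂ => ‖F.eval z‖) a := F.continuous.norm.continuousAt
    have he : ∀ᶠ z in nhds a, ‖F.eval z‖ < 1 := by
      refine hc.eventually (gt_mem_nhds ?_)
      show ‖F.eval a‖ < 1
      rw [ha0, norm_zero]
      exact one_pos
    obtain ⟨ε, hε, hb⟩ := Metric.eventually_nhds_iff.1 he
    filter_upwards [nhdsWithin_le_nhds (gt_mem_nhds hε)] with δ hδ z hz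
    exact (hb (by rw [dist_eq_norm]; exact lt_of_le_of_lt hz hδ)).le
  have h2 : ∀ᶠ δ : ℝ in nhdsWithin 0 (Set.Ioi 0), δ < 1 / 4 :=
    nhdsWithin_le_nhds (gt_mem_nhds (by norm_num))
  have h3 := (Filter.eventually_all_finset F.roots.toFinset).2 h1
  obtain ⟨δ, ⟨h4, h5⟩, h6⟩ := ((h3.and h2).and self_mem_nhdsWithin).exists
  refine ⟨δ, h6, h5.le, fun a z ha hz => h4 a ?_ z hz⟩
  rw [Multiset.mem_toFinset, mem_roots hF]
  exact ha

lemma exists_path (z : ℝ → ℂ) (hz : Continuous z) (T : ℝ) (hT : 0 ≤ T) (a b : ℂ) (ha : z 0 = a)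
    (hb : z T = b) : ∃ γ : Path a b, Set.range γ ⊆ z '' Set.Icc 0 T := by
  refine ⟨⟨⟨fun t => z (T * t), hz.comp (continuous_const.mul continuous_subtype_val)⟩, ?_, ?_⟩, ?_⟩
  · simp [ha]
  · simp [hb]
  · rintro _ ⟨t, rfl⟩
    exact ⟨T * t, ⟨mul_nonneg hT t.2.1, mul_le_of_le_one_right hT t.2.2⟩, rfl⟩

lemma first_hit (g : ℝ → ℝ) (hg : Continuous g) (h0 : g 0 < 1) (T : ℝ) (t₀ : ℝ) (ht₀ : 0 ≤ t₀)
    (ht₀T : t₀ ≤ T) (h1 : 1 ≤ g t₀) :
    ∃ t, 0 ≤ t ∧ t ≤ T ∧ g t = 1 ∧ ∀ s, 0 ≤ s → s ≤ t → g s ≤ 1 := by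
  have hne : ({t | t ∈ Set.Icc 0 T ∧ 1 ≤ g t}).Nonempty := ⟨t₀, ⟨ht₀, ht₀T⟩, h1⟩
  have hcl : IsClosed {t | t ∈ Set.Icc 0 T ∧ 1 ≤ g t} :=
    isClosed_Icc.inter (isClosed_le continuous_const hg)
  have hbd : BddBelow {t | t ∈ Set.Icc 0 T ∧ 1 ≤ g t} := ⟨0, fun t ht => ht.1.1⟩
  have hmem := hcl.csInf_mem hne hbd
  set t := sInf {t | t ∈ Set.Icc 0 T ∧ 1 ≤ g t} with ht
  have hlt : ∀ s, 0 ≤ s → s < t → g s < 1 := by
    intro s hs hst
    by_contra hcon
    push Not at hcon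
    exact absurd (csInf_le hbd ⟨⟨hs, hst.le.trans hmem.1.2⟩, hcon⟩) (not_le.2 hst)
  have hgt : g t = 1 := by
    have hivt := intermediate_value_Icc hmem.1.1 hg.continuousOn
    obtain ⟨s, hs, hs1⟩ := hivt (⟨h0.le, hmem.2⟩ : (1:ℝ) ∈ Set.Icc (g 0) (g t))
    rcases hs.2.lt_or_eq with h | h
    · exact absurd hs1 (hlt s hs.1 h).ne
    · rw [← h]; exact hs1
  refine ⟨t, hmem.1.1, hmem.1.2, hgt, fun s hs hst => ?_⟩
  rcases hst.lt_or_eq with h | h
  · exact (hlt s hs h).le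
  · rw [h, hgt]

lemma spl_le (f : ℂ[X]) (z : ℂ) (γ : Path (0 : ℂ) z) (hz : ‖z‖ = 1)
    (hγ : Set.range γ ⊆ sublevel f) : shortestPathLength f ≤ μH[1] (Set.range γ) :=
  iInf_le_of_le z (iInf_le_of_le γ (iInf_le_of_le hz (iInf_le_of_le hγ le_rfl)))

lemma seg_mem (z₀ w : ℂ) (hw : w ∈ segment ℝ 0 z₀) : ∃ t : ℝ, 0 ≤ t ∧ t ≤ 1 ∧ w = (t : ℂ) * z₀ := by
  rw [segment_eq_image] at hw
  obtain ⟨t, ht, rfl⟩ := hw
  exact ⟨t, ht.1, ht.2, by simp⟩

/-- The linear upper bound. -/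
lemma shortest_le (n : ℕ) (hn : 1 ≤ n) (f : ℂ[X]) (hf : IsAdmissible n f) :
    shortestPathLength f ≤ 5 * n := by
  obtain ⟨F, hFn, hF0, hFz, hFf⟩ := exists_F n f hf
  have hn' : (1 : ENNReal) ≤ n := by exact_mod_cast hn
  rcases Nat.eq_zero_or_pos F.natDegree with hd | hd
  · -- constant case
    have hF1 : ∀ z, F.eval z = 1 := by
      intro z
      rw [eq_C_of_natDegree_eq_zero hd] at hF0 ⊢
      simpa using hF0
    have h1 := spl_le f 1 (Path.segment 0 1) (by simp) (by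
      rw [Path.range_segment]
      intro w hw
      obtain ⟨t, ht0, ht1, rfl⟩ := seg_mem 1 w hw
      have hw1 : ‖(t : ℂ) * 1‖ ≤ 1 := by
        rw [mul_one, Complex.norm_real, Real.norm_eq_abs, abs_of_nonneg ht0]; exact ht1
      show ‖f.eval _‖ ≤ 1
      refine (hFf _ hw1).trans ?_
      rw [hF1]; simp)
    rw [Path.range_segment, hausdorffMeasure_segment] at h1
    refine h1.trans ?_
    have h2 : edist (0 : ℂ) 1 = 1 := by
      rw [edist_dist, dist_eq_norm]; simp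
    rw [h2]
    calc (1 : ENNReal) ≤ n := hn'
      _ = 1 * n := (one_mul _).symm
      _ ≤ 5 * n := by gcongr; norm_num
  · obtain ⟨δ, hδ0, hδ4, hδ⟩ := small_near_root F hd
    obtain ⟨η, hη0, hη⟩ := near_root F hd δ hδ0
    obtain ⟨z₀, hz₀, hFz₀, hseg, hray⟩ := exists_start F hF0 hd (1 / 4) (by norm_num)
    have hFz₀1 : ‖F.eval z₀‖ ≤ 1 := by simpa using hseg 1 zero_le_one le_rfl
    set τ : ℝ := 1 - min (1 / 2) η with hτ
    have hm0 : 0 < min (1 / 2) η := lt_min (by norm_num) hη0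
    have hm1 : min (1 / 2) η ≤ 1 / 2 := min_le_left _ _
    have hm2 : min (1 / 2) η ≤ η := min_le_right _ _
    obtain ⟨z, hzc, hz0, hzF⟩ := exists_lift F z₀ hray τ (by linarith) (by linarith)
    -- the initial segment
    have hseg0 : Set.range (Path.segment 0 z₀) ⊆ sublevel f := by
      rw [Path.range_segment]
      intro w hw
      obtain ⟨t, ht0, ht1, rfl⟩ := seg_mem z₀ w hw
      have hw1 : ‖(t : ℂ) * z₀‖ ≤ 1 := by
        rw [norm_mul, Complex.norm_real, Real.norm_eq_abs, abs_of_nonneg ht0]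
        nlinarith [norm_nonneg z₀]
      exact (hFf _ hw1).trans (hseg t ht0 ht1)
    have hlen0 : μH[1] (Set.range (Path.segment 0 z₀)) ≤ ENNReal.ofReal (1 / 4) := by
      rw [Path.range_segment, hausdorffMeasure_segment, edist_dist, dist_zero_left]
      exact ENNReal.ofReal_le_ofReal hz₀
    -- the curve
    have hcurve : ∀ T, 0 ≤ T → T ≤ τ → (∀ t, 0 ≤ t → t ≤ T → ‖z t‖ ≤ 1) →
        z '' Set.Icc 0 T ⊆ sublevel f ∧ μH[1] (z '' Set.Icc 0 T) ≤ 4 * n := by
      intro T hT0 hTτ hT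
      constructor
      · rintro _ ⟨t, ht, rfl⟩
        refine (hFf _ (hT t ht.1 ht.2)).trans ?_
        rw [hzF t ht.1 (ht.2.trans hTτ), norm_mul, Complex.norm_real, Real.norm_eq_abs,
          abs_of_nonneg (by linarith [ht.2])]
        have : 1 - t ≤ 1 := by linarith [ht.1]
        have h0 : 0 ≤ 1 - t := by linarith [ht.2]
        nlinarith [norm_nonneg (F.eval z₀)]
      · refine (curve_length F hd (F.eval z₀) hFz₀ T hT0 z hzc hT
          (fun t h0 h1 => hzF t h0 (h1.trans hTτ))).trans ?_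
        have : (F.natDegree : ENNReal) ≤ n := by exact_mod_cast hFn
        gcongr
    by_cases hcase : ∃ t, 0 ≤ t ∧ t ≤ τ ∧ 1 ≤ ‖z t‖
    · obtain ⟨t₀, ht₀, ht₀τ, hzt₀⟩ := hcase
      obtain ⟨t₁, ht₁0, ht₁τ, hzt₁, hzlt⟩ := first_hit (fun t => ‖z t‖) hzc.norm
        (by show ‖z 0‖ < 1; rw [hz0]; linarith) τ t₀ ht₀ ht₀τ hzt₀
      obtain ⟨hsub, hlen⟩ := hcurve t₁ ht₁0 ht₁τ hzlt
      obtain ⟨γ, hγ⟩ := exists_path z hzc t₁ ht₁0 z₀ (z t₁) hz0 rfl
      have h1 := spl_le f (z t₁) ((Path.segment 0 z₀).trans γ) hzt₁ (by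
        rw [Path.trans_range]
        exact Set.union_subset hseg0 (hγ.trans hsub))
      rw [Path.trans_range] at h1
      calc shortestPathLength f ≤ _ := h1
        _ ≤ μH[1] (Set.range (Path.segment 0 z₀)) + μH[1] (Set.range γ) := measure_union_le _ _
        _ ≤ ENNReal.ofReal (1 / 4) + 4 * n :=
          add_le_add hlen0 ((measure_mono hγ).trans hlen)
        _ ≤ n + 4 * n := by
          gcongr
          refine le_trans ?_ hn'
          rw [← ENNReal.ofReal_one]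
          exact ENNReal.ofReal_le_ofReal (by norm_num)
        _ = 5 * n := by ring
    · push Not at hcase
      have hzτ : ‖z τ‖ < 1 := hcase τ (by linarith) le_rfl
      have hFτ : ‖F.eval (z τ)‖ ≤ η := by
        rw [hzF τ (by linarith) le_rfl, norm_mul, Complex.norm_real, Real.norm_eq_abs,
          abs_of_nonneg (by linarith)]
        have e1 : 1 - τ = min (1 / 2) η := by rw [hτ]; ring
        rw [e1]
        nlinarith [norm_nonneg (F.eval z₀)]
      obtain ⟨a, ha0, haz⟩ := hη _ hFτ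
      have ha1 : 1 ≤ ‖a‖ := by
        by_contra hcon
        push Not at hcon
        exact hFz a hcon ha0
      obtain ⟨hsub, hlen⟩ := hcurve τ (by linarith) le_rfl (fun t h0 h1 => (hcase t h0 h1).le)
      obtain ⟨γ, hγ⟩ := exists_path z hzc τ (by linarith) z₀ (z τ) hz0 rfl
      set w : ℝ → ℂ := fun s => z τ + (s : ℂ) * (a - z τ) with hw
      have hwc : Continuous w := by
        rw [hw]; fun_prop
      have hw0 : w 0 = z τ := by simp [hw]
      have hw1 : w 1 = a := by simp [hw]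
      obtain ⟨s₁, hs₁0, hs₁1, hws₁, hwlt⟩ := first_hit (fun t => ‖w t‖) hwc.norm
        (by show ‖w 0‖ < 1; rw [hw0]; exact hzτ) 1 1 zero_le_one le_rfl
        (by show 1 ≤ ‖w 1‖; rw [hw1]; exact ha1)
      obtain ⟨γ', hγ'⟩ := exists_path w hwc s₁ hs₁0 (z τ) (w s₁) hw0 rfl
      have hsub' : w '' Set.Icc 0 s₁ ⊆ sublevel f := by
        rintro _ ⟨s, hs, rfl⟩
        refine (hFf _ (hwlt s hs.1 hs.2)).trans (hδ a _ ha0 ?_)
        have e1 : w s - a = ((1 - s : ℝ) : ℂ) * (z τ - a) := by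
          rw [hw]; push_cast; ring
        have h0 : 0 ≤ 1 - s := by linarith [hs.2]
        rw [e1, norm_mul, Complex.norm_real, Real.norm_eq_abs, abs_of_nonneg h0]
        nlinarith [norm_nonneg (z τ - a), hs.1]
      have hlen' : μH[1] (w '' Set.Icc 0 s₁) ≤ ENNReal.ofReal (1 / 4) := by
        have hss : w '' Set.Icc 0 s₁ ⊆ segment ℝ (z τ) a := by
          rintro _ ⟨s, hs, rfl⟩
          rw [segment_eq_image]
          refine ⟨s, ⟨hs.1, hs.2.trans hs₁1⟩, ?_⟩
          simp only [hw, Complex.real_smul]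
          push_cast
          ring
        refine (measure_mono hss).trans ?_
        rw [hausdorffMeasure_segment, edist_dist, dist_eq_norm]
        exact ENNReal.ofReal_le_ofReal (haz.trans hδ4)
      have h1 := spl_le f (w s₁) (((Path.segment 0 z₀).trans γ).trans γ') hws₁ (by
        rw [Path.trans_range, Path.trans_range]
        exact Set.union_subset (Set.union_subset hseg0 (hγ.trans hsub)) (hγ'.trans hsub'))
      rw [Path.trans_range, Path.trans_range] at h1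
      calc shortestPathLength f ≤ _ := h1
        _ ≤ μH[1] (Set.range (Path.segment 0 z₀) ∪ Set.range γ) + μH[1] (Set.range γ') :=
          measure_union_le _ _
        _ ≤ (μH[1] (Set.range (Path.segment 0 z₀)) + μH[1] (Set.range γ)) +
            μH[1] (Set.range γ') := add_le_add (measure_union_le _ _) le_rfl
        _ ≤ (ENNReal.ofReal (1 / 4) + 4 * n) + ENNReal.ofReal (1 / 4) :=
          add_le_add (add_le_add hlen0 ((measure_mono hγ).trans hlen))
            ((measure_mono hγ').trans hlen')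
        _ = (ENNReal.ofReal (1 / 4) + ENNReal.ofReal (1 / 4)) + 4 * n := by ring
        _ ≤ n + 4 * n := by
          gcongr
          refine le_trans ?_ hn'
          rw [← ENNReal.ofReal_add (by norm_num) (by norm_num), ← ENNReal.ofReal_one]
          exact ENNReal.ofReal_le_ofReal (by norm_num)
        _ = 5 * n := by ring

theorem worstCase_le (n : ℕ) (hn : 1 ≤ n) : worstCase n ≤ 5 * n :=
  iSup₂_le fun f hf => shortest_le n hn f hf


end Esc405
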