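import Mathlib
import Pool.Prelude.Def_F_75ec743f
import Pool.Agent.Esc405.M8
import Pool.Agent.Esc405.M9
import Pool.Agent.Esc405.M10b
import Pool.Agent.Esc405.M12
import Pool.Agent.Esc405.U6

set_option autoImplicit false

namespace Esc405
open Complex Polynomial MeasureTheory N3d24e4eb

lemma level_bound (J n : ℕ) (hJ : 1 ≤ J)
    (hn : 250 * 100 ^ J * 8 ^ (30 * J + 60) + 4 * (1000 * 100 ^ J * 11 ^ (30 * J + 60)) + 40 ≤ n) :
    ENNReal.ofReal (8 / 25 * Real.exp (J / 10 ^ 5)) ≤ worstCase n := by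
  obtain ⟨P, hd, hB, hP⟩ := exists_P J hJ
  obtain ⟨f, hf, hf2⟩ := of_poly P (250 * 100 ^ J * 8 ^ (30 * J + 60))
    (1000 * 100 ^ J * 11 ^ (30 * J + 60)) n hd (fun z hz => hB z (by linarith)) hn
  refine le_trans (escape_len J P f hP hf2) ?_
  exact le_iSup₂_of_le f hf (le_refl _)

/-- Lower bound: `S(n)` grows at least like a power of `n`. -/
theorem lower_power :
    ∃ c : ℝ, 0 < c ∧ ∃ n₀ : ℕ, ∀ n : ℕ, n₀ ≤ n → ENNReal.ofReal ((n : ℝ) ^ c) ≤ worstCase n :=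
  final_power level_bound

theorem main :
    (∃ c : ℝ, 0 < c ∧ ∃ n₀ : ℕ, ∀ n : ℕ, n₀ ≤ n → ENNReal.ofReal ((n : ℝ) ^ c) ≤ worstCase n) ∧
      ∀ n : ℕ, 1 ≤ n → worstCase n ≤ ENNReal.ofReal (5 * n) := by
  refine ⟨lower_power, fun n hn => ?_⟩
  refine le_trans (worstCase_le n hn) (le_of_eq ?_)
  rw [ENNReal.ofReal_mul (by norm_num)]
  simp

end Esc405
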